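import Mathlib

set_option autoImplicit false

/-!
Definitions for the statement on group classes closed under subgroups, epimorphic images and
automorphism groups.
-/

namespace Pool.Agent.SHA

/-- A class of groups that is closed under subgroups, epimorphic images and automorphism groups
(closure under injective and surjective homomorphisms includes closure under isomorphism). -/
structure SHAClosed (K : (G : Type) → [Group G] → Prop) : Prop where
  sub : ∀ (G H : Type) [Group G] [Group H] (f : H →* G), Function.Injective f → K G → K H
  quo : ∀ (G Q : Type) [Group G] [Group Q] (f : G →* Q), Function.Surjective f → K G → K Q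
  aut : ∀ (G : Type) [Group G], K G → K (MulAut G)

/-- An admissible class: it is closed under subgroups, epimorphic images and automorphism groups and
there is a countable group outside it. -/
def Admissible (K : (G : Type) → [Group G] → Prop) : Prop :=
  SHAClosed K ∧ ∃ (G : Type) (_ : Group G), Countable G ∧ ¬ K G

/-- A group is almost cyclic if it has a cyclic subgroup of finite index. -/
def AlmostCyclic (G : Type) [Group G] : Prop :=
  ∃ C : Subgroup G, IsCyclic C ∧ C.FiniteIndex

/-- A group is locally soluble if every finitely generated subgroup is soluble. -/
def LocallySoluble (G : Type) [Group G] : Prop :=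
  ∀ H : Subgroup G, H.FG → Group.IsSolvable H

/-- A group is hyper-(locally soluble or finite) if every nontrivial epimorphic image of it has a
nontrivial normal subgroup that is finite or locally soluble. -/
def HyperLSF (G : Type) [Group G] : Prop :=
  ∀ (Q : Type) [Group Q] (f : G →* Q), Function.Surjective f → Nontrivial Q →
    ∃ M : Subgroup Q, M.Normal ∧ M ≠ ⊥ ∧ (Finite M ∨ LocallySoluble M)

end Pool.Agent.SHA
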