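import Pool.Agent.SHA.Radical

set_option autoImplicit false

/-!
The main theorems.
-/

namespace Pool.Agent.SHA

variable {K : (G : Type) → [Group G] → Prop}

theorem hyper_of_comm (A : Type) [CommGroup A] : HyperLSF A := by
  intro Q _ f hf hQ
  refine ⟨⊤, inferInstance, top_ne_bot, Or.inr ?_⟩
  intro H _
  apply Group.isSolvable_of_comm
  intro a b
  apply Subtype.ext
  apply Subtype.ext
  obtain ⟨x, hx⟩ := hf a.1.1
  obtain ⟨y, hy⟩ := hf b.1.1
  show a.1.1 * b.1.1 = b.1.1 * a.1.1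
  rw [← hx, ← hy, ← map_mul, ← map_mul, mul_comm]

theorem admissible_iff_free (hK : SHAClosed K) : Admissible K ↔ ¬ K (FreeGroup (Fin 2)) := by
  constructor
  · rintro ⟨-, C, hC, hcount, hnot⟩ hF
    exact hnot (countable_of_free hK hF C)
  · intro h
    exact ⟨hK, FreeGroup (Fin 2), inferInstance, inferInstance, h⟩

theorem admissible_iff_hyper (hK : SHAClosed K) :
    Admissible K ↔ ∀ (G : Type) [Group G], K G → HyperLSF G → AlmostCyclic G := by
  constructor
  · rintro ⟨-, hc⟩ G _ hKG hG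
    exact (hK.shab hc).almostCyclic_hyper hKG hG
  · intro h
    refine ⟨hK, Z2, inferInstance, inferInstanceAs (Countable (ℤ × ℤ)), ?_⟩
    intro hZ
    exact not_almostCyclic_Z2 (h Z2 hZ (hyper_of_comm Z2))

theorem admissible_iff_abelian (hK : SHAClosed K) :
    Admissible K ↔ ∀ (A : Type) [CommGroup A], K A → AlmostCyclic A := by
  constructor
  · rintro ⟨-, hc⟩ A _ hKA
    exact abelian_almostCyclic hK hc A hKA
  · intro h
    refine ⟨hK, Z2, inferInstance, inferInstanceAs (Countable (ℤ × ℤ)), ?_⟩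
    intro hZ
    exact not_almostCyclic_Z2 (h Z2 hZ)

theorem contains_finite_or_cyclic (hK : Admissible K)
    (hinf : ∃ (G : Type) (_ : Group G), K G ∧ HyperLSF G ∧ Infinite G) (G : Type) [Group G]
    (hG : Finite G ∨ IsCyclic G) : K G := by
  obtain ⟨hS, hc⟩ := hK
  obtain ⟨H, _, hKH, hH, hHinf⟩ := hinf
  obtain ⟨P, hP, hPc, hPi⟩ := ((hS.shab hc).almostCyclic_hyper hKH hH).exists_char hHinf
  have hKP : K P := hS.sub _ _ P.subtype P.subtype_injective hKH
  obtain ⟨g, hg⟩ := hPc.exists_generator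
  have hZ : K (Multiplicative ℤ) := by
    refine hS.sub P _ (zpowersHom P g) ?_ hKP
    rw [injective_iff_map_eq_one]
    intro n hn
    by_contra hne
    have hfo : IsOfFinOrder g := by
      rw [isOfFinOrder_iff_zpow_eq_one]
      exact ⟨n.toAdd, hne, hn⟩
    have h2 : (Subgroup.zpowers g : Set P).Finite := hfo.finite_zpowers
    have h3 : (Subgroup.zpowers g : Set P) = Set.univ := by
      ext x; simpa using hg x
    rw [h3] at h2
    exact Set.infinite_univ h2
  rcases hG with hG | hG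
  · exact finite_of_int hS hZ G
  · obtain ⟨c, hc⟩ := hG.exists_generator
    refine hS.quo _ G (zpowersHom G c) ?_ hZ
    intro x
    obtain ⟨k, hk⟩ := Subgroup.mem_zpowers_iff.mp (hc x)
    exact ⟨Multiplicative.ofAdd k, hk⟩

theorem structure_thm (hK : Admissible K) (G : Type) [Group G] (hG : K G) :
    ∃ R : Subgroup G, ∃ _ : R.Normal, AlmostCyclic R ∧
      (∀ N : Subgroup G, N.Normal → HyperLSF N → N ≤ R) ∧
      (∀ M : Subgroup (G ⧸ R), M.Normal → HyperLSF M → M = ⊥) ∧
      (Infinite R → ∃ A : Subgroup G, A.Normal ∧ IsCyclic A ∧ Infinite A ∧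
        ∀ g : G, ∃ n : ℕ, n ≠ 0 ∧ g ^ n ∈ A) := by
  obtain ⟨hS, hc⟩ := hK
  obtain ⟨R, hR, h1, h2, h3⟩ := (hS.shab hc).exists_radical hG
  exact ⟨R, hR, h1, h2, h3, fun hinf => (hS.shab hc).cyclic_by_torsion hG R hR h1 hinf⟩

end Pool.Agent.SHA
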