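import Pool.Agent.SHA.Abelian

set_option autoImplicit false

/-!
Almost cyclic groups and classes of groups closed under subgroups and images whose abelian members
are almost cyclic.
-/

namespace Pool.Agent.SHA

/-- a class closed under subgroups and images whose abelian members are almost cyclic -/
structure SHAb (K : (G : Type) → [Group G] → Prop) : Prop where
  sub : ∀ (G H : Type) [Group G] [Group H] (f : H →* G), Function.Injective f → K G → K H
  quo : ∀ (G Q : Type) [Group G] [Group Q] (f : G →* Q), Function.Surjective f → K G → K Q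
  ab : ∀ (A : Type) [Group A], (∀ a b : A, a * b = b * a) → K A → AlmostCyclic A

lemma SHAClosed.shab {K : (G : Type) → [Group G] → Prop} (hK : SHAClosed K)
    (hc : ∃ (C : Type) (_ : Group C), Countable C ∧ ¬ K C) : SHAb K where
  sub := hK.sub
  quo := hK.quo
  ab A _ hab hKA := by
    let _ : CommGroup A := { (inferInstance : Group A) with mul_comm := hab }
    exact abelian_almostCyclic hK hc A hKA

section AC

variable {G : Type} [Group G]

/-- every element of finite order -/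
def Tors (G : Type) [Group G] : Prop := ∀ g : G, ∃ n : ℕ, n ≠ 0 ∧ g ^ n = 1

lemma Tors.sub {G : Type} [Group G] (h : Tors G) (H : Subgroup G) : Tors H := fun t => by
  obtain ⟨n, hn, ht⟩ := h t.1
  exact ⟨n, hn, Subtype.ext (by simpa using ht)⟩

lemma Tors.quo {G Q : Type} [Group G] [Group Q] (h : Tors G) (f : G →* Q)
    (hf : Function.Surjective f) : Tors Q := fun t => by
  obtain ⟨g, rfl⟩ := hf t
  obtain ⟨n, hn, ht⟩ := h g
  exact ⟨n, hn, by rw [← map_pow, ht, map_one]⟩

lemma finite_of_index {G : Type} [Group G] (H : Subgroup G) (hH : Finite H) (h : H.FiniteIndex) :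
    Finite G :=
  Finite.of_equiv _ (Subgroup.groupEquivQuotientProdSubgroup (s := H)).symm

lemma finite_cyclic_of_tors {G : Type} [Group G] (hc : IsCyclic G) (h : Tors G) : Finite G := by
  obtain ⟨g, hg⟩ := hc.exists_generator
  obtain ⟨n, hn, hgn⟩ := h g
  have hfo : IsOfFinOrder g := isOfFinOrder_iff_pow_eq_one.mpr ⟨n, Nat.pos_of_ne_zero hn, hgn⟩
  have h1 : (Subgroup.zpowers g : Set G).Finite := by
    have := hfo.finite_zpowers
    exact this
  have h2 : (Subgroup.zpowers g : Set G) = Set.univ := by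
    ext x; simpa using hg x
  rw [h2] at h1
  exact Set.finite_univ_iff.mp h1

lemma AlmostCyclic.finite_of_tors {G : Type} [Group G] (h : AlmostCyclic G) (ht : Tors G) :
    Finite G := by
  obtain ⟨C, hC, hfi⟩ := h
  exact finite_of_index C (finite_cyclic_of_tors hC (ht.sub C)) hfi

lemma AlmostCyclic.of_finite (G : Type) [Group G] [Finite G] : AlmostCyclic G :=
  ⟨⊥, inferInstance, inferInstance⟩

lemma AlmostCyclic.of_finiteIndex (H : Subgroup G) (hH : AlmostCyclic H) (h : H.FiniteIndex) :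
    AlmostCyclic G := by
  obtain ⟨C, hC, hfi⟩ := hH
  refine ⟨C.map H.subtype, ?_, ?_⟩
  · obtain ⟨g, hg⟩ := hC.exists_generator
    refine ⟨⟨⟨g.1.1, Subgroup.mem_map_of_mem _ g.2⟩, ?_⟩⟩
    rintro ⟨_, x, hx, rfl⟩
    obtain ⟨n, hn⟩ := Subgroup.mem_zpowers_iff.mp (hg ⟨x, hx⟩)
    refine Subgroup.mem_zpowers_iff.mpr ⟨n, ?_⟩
    apply Subtype.ext
    have := congrArg (fun y : C => ((y : H) : G)) hn
    simpa using this
  · constructor
    rw [Subgroup.index_map_subtype]
    exact mul_ne_zero hfi.index_ne_zero h.index_ne_zero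

lemma AlmostCyclic.sub (H : Subgroup G) (h : AlmostCyclic G) : AlmostCyclic H := by
  obtain ⟨C, hC, hfi⟩ := h
  refine ⟨C.subgroupOf H, ?_, inferInstance⟩
  let f : C.subgroupOf H →* C :=
    { toFun := fun x => ⟨x.1.1, x.2⟩
      map_one' := rfl
      map_mul' := fun _ _ => rfl }
  exact isCyclic_of_injective f (fun x y hxy =>
    Subtype.ext (Subtype.ext (congrArg (fun z : C => (z : G)) hxy)))

/-- a subgroup is of finite index if finitely many cosets cover a subgroup of finite index -/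
lemma fi_of_cover (P C : Subgroup G) (hP : P.FiniteIndex) (S : Set G) (hS : S.Finite)
    (h : ∀ p ∈ P, ∃ s ∈ S, s⁻¹ * p ∈ C) : C.FiniteIndex := by
  have hfS : Finite S := hS
  have hfP : Finite (G ⧸ P) := Subgroup.finite_quotient_of_finiteIndex
  let φ : (G ⧸ P) × S → G ⧸ C := fun x => ((x.1.out * x.2.1 : G) : G ⧸ C)
  have hφ : Function.Surjective φ := by
    intro y
    obtain ⟨g, rfl⟩ := QuotientGroup.mk_surjective y
    have h1 : ((g : G ⧸ P)).out⁻¹ * g ∈ P := by
      rw [← QuotientGroup.eq]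
      exact QuotientGroup.out_eq' _
    obtain ⟨s, hs, hsp⟩ := h _ h1
    refine ⟨((g : G ⧸ P), ⟨s, hs⟩), ?_⟩
    show (((g : G ⧸ P).out * s : G) : G ⧸ C) = (g : G ⧸ C)
    rw [QuotientGroup.eq]
    rw [mul_inv_rev, mul_assoc]
    exact hsp
  have : Finite (G ⧸ C) := Finite.of_surjective φ hφ
  exact Subgroup.finiteIndex_of_finite_quotient

lemma AlmostCyclic.of_quotient (F : Subgroup G) [F.Normal] (hF : Finite F)
    (h : AlmostCyclic (G ⧸ F)) : AlmostCyclic G := by
  obtain ⟨C, hC, hfi⟩ := h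
  obtain ⟨⟨c, hcC⟩, hc⟩ := hC.exists_generator
  obtain ⟨g, rfl⟩ := QuotientGroup.mk_surjective c
  refine ⟨Subgroup.zpowers g, inferInstance, ?_⟩
  have hfi' : (C.comap (QuotientGroup.mk' F)).FiniteIndex :=
    ⟨by rw [Subgroup.index_comap_of_surjective _ (QuotientGroup.mk'_surjective F)]
        exact hfi.index_ne_zero⟩
  refine fi_of_cover (C.comap (QuotientGroup.mk' F)) _ hfi' (F : Set G) hF ?_
  intro p hp
  obtain ⟨n, hn⟩ := Subgroup.mem_zpowers_iff.mp (hc ⟨(p : G ⧸ F), hp⟩)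
  have h1 : ((g ^ n : G) : G ⧸ F) = (p : G ⧸ F) := congrArg Subtype.val hn
  have h2 : (g ^ n)⁻¹ * p ∈ F := QuotientGroup.eq.mp h1
  have h3 : p * (g ^ n)⁻¹ ∈ F := by
    have := (inferInstance : F.Normal).conj_mem _ h2 (g ^ n)
    simpa [mul_assoc] using this
  refine ⟨p * (g ^ n)⁻¹, h3, ?_⟩
  rw [mul_inv_rev, inv_inv, mul_assoc, inv_mul_cancel, mul_one]
  exact Subgroup.zpow_mem_zpowers g n

/-- in an almost cyclic group every infinite cyclic subgroup has finite index -/
lemma AlmostCyclic.zpowers_fi (h : AlmostCyclic G) (g : G) (hg : ∀ n : ℕ, n ≠ 0 → g ^ n ≠ 1) :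
    (Subgroup.zpowers g).FiniteIndex := by
  obtain ⟨C, hC, hfi⟩ := h
  obtain ⟨⟨c, hcC⟩, hc⟩ := hC.exists_generator
  obtain ⟨n, hn0, -, hn⟩ := Subgroup.exists_pow_mem_of_index_ne_zero hfi.index_ne_zero g
  obtain ⟨k, hk⟩ := Subgroup.mem_zpowers_iff.mp (hc ⟨g ^ n, hn⟩)
  have hk' : c ^ k = g ^ n := congrArg Subtype.val hk
  have hk0 : k ≠ 0 := by
    rintro rfl
    rw [zpow_zero] at hk'
    exact hg n (by omega) hk'.symm
  refine fi_of_cover C _ hfi ((fun i : ℤ => c ^ i) '' Set.Ico 0 |k|) ((Set.finite_Ico _ _).image _) ?_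
  intro p hp
  obtain ⟨m, hm⟩ := Subgroup.mem_zpowers_iff.mp (hc ⟨p, hp⟩)
  have hm' : c ^ m = p := congrArg Subtype.val hm
  refine ⟨c ^ (m % k), ⟨m % k, ⟨Int.emod_nonneg _ hk0, Int.emod_lt_abs _ hk0⟩, rfl⟩, ?_⟩
  have h1 : (c ^ (m % k))⁻¹ * p = (g ^ n) ^ (m / k) := by
    rw [← hm', ← hk', ← zpow_mul, ← zpow_neg, ← zpow_add]
    congr 1
    have := Int.emod_add_mul_ediv m k
    linarith
  rw [h1]
  exact Subgroup.zpow_mem _ (Subgroup.pow_mem _ (Subgroup.mem_zpowers g) n) _

end AC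

lemma not_almostCyclic_Z2 : ¬ AlmostCyclic Z2 := by
  rintro ⟨C, hC, hfi⟩
  obtain ⟨⟨c, hcC⟩, hc⟩ := hC.exists_generator
  obtain ⟨n, hn0, -, hn⟩ := Subgroup.exists_pow_mem_of_index_ne_zero hfi.index_ne_zero
    (Multiplicative.ofAdd ((1 : ℤ), (0 : ℤ)))
  obtain ⟨m, hm0, -, hm⟩ := Subgroup.exists_pow_mem_of_index_ne_zero hfi.index_ne_zero
    (Multiplicative.ofAdd ((0 : ℤ), (1 : ℤ)))
  obtain ⟨i, hi⟩ := Subgroup.mem_zpowers_iff.mp (hc ⟨_, hn⟩)
  obtain ⟨j, hj⟩ := Subgroup.mem_zpowers_iff.mp (hc ⟨_, hm⟩)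
  have hi' : c ^ i = (Multiplicative.ofAdd ((1 : ℤ), (0 : ℤ))) ^ n := congrArg Subtype.val hi
  have hj' : c ^ j = (Multiplicative.ofAdd ((0 : ℤ), (1 : ℤ))) ^ m := congrArg Subtype.val hj
  have h1 : i • c.toAdd = n • ((1 : ℤ), (0 : ℤ)) := congrArg Multiplicative.toAdd hi'
  have h2 : j • c.toAdd = m • ((0 : ℤ), (1 : ℤ)) := congrArg Multiplicative.toAdd hj'
  have a1 := congrArg Prod.fst h1
  have a2 := congrArg Prod.snd h1
  have a3 := congrArg Prod.fst h2
  have a4 := congrArg Prod.snd h2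
  simp at a1 a2 a3 a4
  rcases a2 with h | h
  · rw [h] at a1; simp at a1; omega
  · rw [h] at a4; simp at a4; omega

section

variable {K : (G : Type) → [Group G] → Prop} (hK : SHAb K)
include hK

lemma SHAb.not_Z2 : ¬ K Z2 := fun h => not_almostCyclic_Z2 (hK.ab _ (fun a b => mul_comm a b) h)

lemma SHAb.sub' {G : Type} [Group G] (h : K G) (H : Subgroup G) : K H :=
  hK.sub _ _ H.subtype H.subtype_injective h

lemma SHAb.quo' {G : Type} [Group G] (h : K G) (N : Subgroup G) [N.Normal] : K (G ⧸ N) :=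
  hK.quo _ _ (QuotientGroup.mk' N) (QuotientGroup.mk'_surjective N) h

/-- commuting elements of a group in the class are not independent -/
lemma SHAb.no_commuting {G : Type} [Group G] (hKG : K G) (a b : G) (hab : Commute a b)
    (h : ∀ i j : ℤ, a ^ i * b ^ j = 1 → i = 0 ∧ j = 0) : False := by
  obtain ⟨f, hf⟩ := Z2_embeds a b hab h
  exact hK.not_Z2 (hK.sub _ _ f hf hKG)

end

/-- there is a maximal abelian subgroup; it contains every element commuting with it -/
lemma exists_maxAb (G : Type) [Group G] : ∃ A : Subgroup G, (∀ a ∈ A, ∀ b ∈ A, a * b = b * a) ∧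
    ∀ x, (∀ a ∈ A, a * x = x * a) → x ∈ A := by
  obtain ⟨S, -, hS⟩ := zorn_subset_nonempty {S : Set G | ∀ x ∈ S, ∀ y ∈ S, x * y = y * x}
    (by
      intro c hc hchain hne
      refine ⟨⋃₀ c, ?_, fun s hs => Set.subset_sUnion_of_mem hs⟩
      rintro x ⟨s, hs, hxs⟩ y ⟨t, ht, hyt⟩
      rcases hchain.total hs ht with h | h
      · exact hc ht x (h hxs) y hyt
      · exact hc hs x hxs y (h hyt)) ∅ (by intro x hx; exact absurd hx (Set.notMem_empty x))
  have hmax : ∀ x, (∀ a ∈ S, a * x = x * a) → x ∈ S := by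
    intro x hx
    have h1 : insert x S ∈ {S : Set G | ∀ x ∈ S, ∀ y ∈ S, x * y = y * x} := by
      rintro a (rfl | ha) b (rfl | hb)
      · rfl
      · exact (hx b hb).symm
      · exact hx a ha
      · exact hS.prop a ha b hb
    exact hS.le_of_ge h1 (Set.subset_insert x S) (Set.mem_insert x S)
  have hcarrier : (Subgroup.centralizer S : Set G) = S := by
    ext x
    constructor
    · intro hx
      apply hmax
      intro a ha
      exact Subgroup.mem_centralizer_iff.mp hx a ha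
    · intro hx
      exact Subgroup.mem_centralizer_iff.mpr fun a ha => hS.prop a ha x hx
  have hmem : ∀ x, x ∈ Subgroup.centralizer S ↔ x ∈ S := fun x => by
    rw [← SetLike.mem_coe, hcarrier]
  refine ⟨Subgroup.centralizer S, ?_, ?_⟩
  · intro a ha b hb
    exact hS.prop a ((hmem a).mp ha) b ((hmem b).mp hb)
  · intro x hx
    rw [hmem]
    exact hmax x fun a ha => hx a ((hmem a).mpr ha)

end Pool.Agent.SHA
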