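import Pool.Agent.SHA.Free

set_option autoImplicit false

/-!
In an admissible class all abelian groups are almost cyclic.
-/

namespace Pool.Agent.SHA

/-! ### elementary abelian groups -/

section Elem

variable (C : Type) [Group C] (p : ℕ) [Fact p.Prime]

/-- the group acts on the elementary abelian group by translations of the coordinates -/
noncomputable def transl : C →* MulAut (Multiplicative (C →₀ ZMod p)) where
  toFun c := AddEquiv.toMultiplicative (Finsupp.domCongr (Equiv.mulLeft c))
  map_one' := by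
    refine MulEquiv.ext fun f => ?_
    apply Multiplicative.toAdd.injective
    ext x
    simp [Finsupp.domCongr, Finsupp.equivMapDomain]
    rfl
  map_mul' a b := by
    refine MulEquiv.ext fun f => ?_
    apply Multiplicative.toAdd.injective
    ext x
    simp [Finsupp.domCongr, Finsupp.equivMapDomain]
    rfl

lemma transl_injective : Function.Injective (transl C p) := by
  intro a b hab
  have h1 := DFunLike.congr_fun hab (Multiplicative.ofAdd (Finsupp.single 1 1))
  have h2 : (Finsupp.domCongr (Equiv.mulLeft a) (Finsupp.single (1 : C) (1 : ZMod p))) =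
      Finsupp.domCongr (Equiv.mulLeft b) (Finsupp.single (1 : C) (1 : ZMod p)) :=
    congrArg Multiplicative.toAdd h1
  rw [Finsupp.domCongr_apply, Finsupp.domCongr_apply, Finsupp.equivMapDomain_single,
    Finsupp.equivMapDomain_single] at h2
  simp only [Equiv.coe_mulLeft, mul_one] at h2
  exact Finsupp.single_left_injective one_ne_zero h2

end Elem

section

variable {K : (G : Type) → [Group G] → Prop} (hK : SHAClosed K)
include hK

/-- infinite elementary abelian groups generate all countable groups -/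
theorem countable_of_elem (p : ℕ) (hp : p.Prime) (A : Type) [CommGroup A] [Infinite A]
    (hA : ∀ x : A, x ^ p = 1) (hKA : K A) (C : Type) [Group C] [Countable C] : K C := by
  have : Fact p.Prime := ⟨hp⟩
  let _ : Module (ZMod p) (Additive A) := AddCommGroup.zmodModule (n := p) (fun x => hA x.toMul)
  let b := Module.Basis.ofVectorSpace (ZMod p) (Additive A)
  have hinf : Infinite (Module.Basis.ofVectorSpaceIndex (ZMod p) (Additive A)) := by
    by_contra hfin
    rw [not_infinite_iff_finite] at hfin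
    have h0 : NeZero p := ⟨hp.ne_zero⟩
    have h00 : Finite (Module.Basis.ofVectorSpaceIndex (ZMod p) (Additive A) →₀ ZMod p) :=
      Finite.of_injective (fun f => (f : Module.Basis.ofVectorSpaceIndex (ZMod p) (Additive A) →
        ZMod p)) DFunLike.coe_injective
    have h1 : Finite (Additive A) := Finite.of_equiv _ b.repr.toEquiv.symm
    have h2 : Infinite (Additive A) := inferInstanceAs (Infinite A)
    exact not_finite (Additive A)
  obtain ⟨f, hf⟩ := exists_injective_nat C
  let g : C → Module.Basis.ofVectorSpaceIndex (ZMod p) (Additive A) :=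
    fun c => Infinite.natEmbedding _ (f c)
  have hg : Function.Injective g := (Infinite.natEmbedding _).injective.comp hf
  have hli : LinearIndependent (ZMod p) (b ∘ g) := b.linearIndependent.comp g hg
  let φ : (C →₀ ZMod p) →+ Additive A :=
    (Finsupp.linearCombination (ZMod p) (b ∘ g)).toAddMonoidHom
  have hφ : Function.Injective φ := hli
  have h3 : K (Multiplicative (C →₀ ZMod p)) :=
    hK.sub _ _ (AddMonoidHom.toMultiplicativeLeft φ) hφ hKA
  exact hK.sub _ _ (transl C p) (transl_injective C p) (hK.aut _ h3)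

/-- in an admissible class the number of solutions of `x ^ n = 1` in an abelian group is finite -/
theorem finite_torsion (hc : ∃ (C : Type) (_ : Group C), Countable C ∧ ¬ K C)
    (A : Type) [CommGroup A] (hKA : K A) : ∀ n : ℕ, n ≠ 0 → {x : A | x ^ n = 1}.Finite := by
  have hprime : ∀ p : ℕ, p.Prime → {x : A | x ^ p = 1}.Finite := by
    intro p hp
    by_contra hinf
    let P : Subgroup A := (powMonoidHom p).ker
    have hP : (P : Set A) = {x : A | x ^ p = 1} := rfl
    have hPinf : Infinite P := by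
      rw [← hP] at hinf
      exact Set.infinite_coe_iff.mpr hinf
    obtain ⟨C, hC, hcount, hnot⟩ := hc
    apply hnot
    refine countable_of_elem hK p hp P (fun x => ?_) (hK.sub _ _ P.subtype P.subtype_injective hKA) C
    apply Subtype.ext
    exact x.2
  intro n
  induction n using Nat.recOnMul with
  | zero => intro h; exact absurd rfl h
  | one =>
    intro _
    have : {x : A | x ^ 1 = 1} = {1} := by ext x; simp
    rw [this]; exact Set.finite_singleton _
  | prime p hp => intro _; exact hprime p hp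
  | mul a b iha ihb =>
    intro hab
    have ha : a ≠ 0 := left_ne_zero_of_mul hab
    have hb : b ≠ 0 := right_ne_zero_of_mul hab
    have h1 : {x : A | x ^ (a * b) = 1} = (fun x : A => x ^ a) ⁻¹' {x : A | x ^ b = 1} := by
      ext x
      simp [pow_mul]
    rw [h1]
    apply Set.Finite.preimage' (ihb hb)
    intro y _
    by_cases hy : ∃ x0 : A, x0 ^ a = y
    · obtain ⟨x0, rfl⟩ := hy
      apply ((iha ha).image fun x => x0 * x).subset
      intro x hx
      have hx' : x ^ a = x0 ^ a := hx
      refine ⟨x0⁻¹ * x, ?_, by simp⟩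
      show (x0⁻¹ * x) ^ a = 1
      rw [mul_pow, hx', inv_pow, inv_mul_cancel]
    · convert Set.finite_empty (α := A)
      ext x
      simp only [Set.mem_preimage, Set.mem_singleton_iff, Set.mem_empty_iff_false, iff_false]
      exact fun h => hy ⟨x, h⟩

/-- an infinite torsion abelian group without elements of order `l1`, `l2` -/
theorem false_of_two_primes (hc : ∃ (C : Type) (_ : Group C), Countable C ∧ ¬ K C)
    (T : Type) [CommGroup T] [Infinite T] (hKT : K T)
    (htor : ∀ t : T, ∃ n : ℕ, n ≠ 0 ∧ t ^ n = 1) (l1 l2 : ℕ) (h1 : l1.Prime) (h2 : l2.Prime)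
    (h12 : l1 ≠ l2) (ht1 : ∀ t : T, t ^ l1 = 1 → t = 1) (ht2 : ∀ t : T, t ^ l2 = 1 → t = 1) :
    False := by
  have hfin := finite_torsion hK hc T hKT
  -- multiplication by a prime is bijective
  have key : ∀ l : ℕ, l.Prime → (∀ t : T, t ^ l = 1 → t = 1) →
      Function.Bijective (powMonoidHom l : T →* T) := by
    intro l hl ht
    constructor
    · rw [injective_iff_map_eq_one]
      exact fun t h => ht t h
    · intro t
      -- the order of t is coprime to l
      obtain ⟨n, hn, htn⟩ := htor t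
      have hpos : 0 < orderOf t := orderOf_pos_iff.mpr (isOfFinOrder_iff_pow_eq_one.mpr
        ⟨n, Nat.pos_of_ne_zero hn, htn⟩)
      have hco : (orderOf t).Coprime l := by
        rw [Nat.coprime_comm, hl.coprime_iff_not_dvd]
        rintro ⟨m, hm⟩
        have h3 : (t ^ m) ^ l = 1 := by
          rw [← pow_mul, mul_comm m l, ← hm, pow_orderOf_eq_one]
        have h4 := ht _ h3
        have h5 := orderOf_dvd_of_pow_eq_one h4
        have hmpos : 0 < m := by
          rcases Nat.eq_zero_or_pos m with h | h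
          · rw [h, mul_zero] at hm; omega
          · exact h
        have h6 := Nat.le_of_dvd hmpos h5
        rw [hm] at h6
        have := hl.two_le
        nlinarith
      obtain ⟨m, hm⟩ := exists_pow_eq_self_of_coprime hco.symm
      exact ⟨t ^ m, by
        show (t ^ m) ^ l = t
        rw [← pow_mul, mul_comm, pow_mul]; exact hm⟩
  let E1 : MulAut T := MulEquiv.ofBijective (powMonoidHom l1) (key l1 h1 ht1)
  let E2 : MulAut T := MulEquiv.ofBijective (powMonoidHom l2) (key l2 h2 ht2)
  have hE1 : ∀ t, E1 t = t ^ l1 := fun t => rfl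
  have hE2 : ∀ t, E2 t = t ^ l2 := fun t => rfl
  have hcomm : Commute E1 E2 := by
    refine MulEquiv.ext fun t => ?_
    simp only [MulAut.mul_apply, hE1, hE2]
    rw [← pow_mul, ← pow_mul, mul_comm]
  have hpow1 : ∀ (a : ℕ) (t : T), (E1 ^ a) t = t ^ (l1 ^ a) := by
    intro a
    induction a with
    | zero => intro t; simp
    | succ a ih => intro t; rw [pow_succ, MulAut.mul_apply, hE1, ih, ← pow_mul, pow_succ, mul_comm]
  have hpow2 : ∀ (a : ℕ) (t : T), (E2 ^ a) t = t ^ (l2 ^ a) := by
    intro a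
    induction a with
    | zero => intro t; simp
    | succ a ih => intro t; rw [pow_succ, MulAut.mul_apply, hE2, ih, ← pow_mul, pow_succ, mul_comm]
  let φ : Z2 →* MulAut T :=
    { toFun := fun p => E1 ^ p.toAdd.1 * E2 ^ p.toAdd.2
      map_one' := by simp
      map_mul' := fun p q => by
        have e1 : (p * q).toAdd.1 = p.toAdd.1 + q.toAdd.1 := rfl
        have e2 : (p * q).toAdd.2 = p.toAdd.2 + q.toAdd.2 := rfl
        rw [e1, e2, zpow_add, zpow_add]
        have h3 : Commute (E1 ^ q.toAdd.1) (E2 ^ p.toAdd.2) := (hcomm.zpow_zpow _ _)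
        calc E1 ^ p.toAdd.1 * E1 ^ q.toAdd.1 * (E2 ^ p.toAdd.2 * E2 ^ q.toAdd.2)
            = E1 ^ p.toAdd.1 * (E1 ^ q.toAdd.1 * E2 ^ p.toAdd.2) * E2 ^ q.toAdd.2 := by group
          _ = E1 ^ p.toAdd.1 * (E2 ^ p.toAdd.2 * E1 ^ q.toAdd.1) * E2 ^ q.toAdd.2 := by rw [h3.eq]
          _ = _ := by group }
  have hφ : Function.Injective φ := by
    rw [injective_iff_map_eq_one]
    intro p hp
    have hp' : E1 ^ p.toAdd.1 * E2 ^ p.toAdd.2 = 1 := hp
    obtain ⟨i, hi⟩ : ∃ i, i = p.toAdd.1 := ⟨_, rfl⟩
    obtain ⟨j, hj⟩ : ∃ j, j = p.toAdd.2 := ⟨_, rfl⟩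
    rw [← hi, ← hj] at hp'
    have hi' : i = (i.toNat : ℤ) - ((-i).toNat : ℤ) := by omega
    have hj' : j = (j.toNat : ℤ) - ((-j).toNat : ℤ) := by omega
    have hmin1 : i.toNat = 0 ∨ (-i).toNat = 0 := by omega
    have hmin2 : j.toNat = 0 ∨ (-j).toNat = 0 := by omega
    generalize i.toNat = a at *
    generalize (-i).toNat = b at *
    generalize j.toNat = c at *
    generalize (-j).toNat = d at *
    have h3 : E1 ^ a * E2 ^ c = E1 ^ b * E2 ^ d := by
      rw [hi', hj', zpow_sub, zpow_sub, zpow_natCast, zpow_natCast, zpow_natCast,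
        zpow_natCast] at hp'
      have h4 : Commute ((E1 ^ b)⁻¹) (E2 ^ c) := (hcomm.pow_pow _ _).inv_left
      have h5 : Commute ((E1 ^ b)⁻¹) ((E2 ^ d)⁻¹) := ((hcomm.pow_pow _ _).inv_left).inv_right
      have h6 : E1 ^ a * E2 ^ c * ((E1 ^ b)⁻¹ * (E2 ^ d)⁻¹) = 1 := by
        calc E1 ^ a * E2 ^ c * ((E1 ^ b)⁻¹ * (E2 ^ d)⁻¹)
            = E1 ^ a * (E2 ^ c * (E1 ^ b)⁻¹) * (E2 ^ d)⁻¹ := by group
          _ = E1 ^ a * ((E1 ^ b)⁻¹ * E2 ^ c) * (E2 ^ d)⁻¹ := by rw [h4.eq]
          _ = E1 ^ a * (E1 ^ b)⁻¹ * (E2 ^ c * (E2 ^ d)⁻¹) := by group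
          _ = 1 := hp'
      rw [h5.eq, ← mul_inv_rev] at h6
      exact mul_inv_eq_one.mp h6
    have h7 : ∀ t : T, t ^ (l1 ^ a * l2 ^ c) = t ^ (l1 ^ b * l2 ^ d) := by
      intro t
      have h8 := DFunLike.congr_fun h3 t
      simp only [MulAut.mul_apply, hpow1, hpow2] at h8
      rw [← pow_mul, ← pow_mul] at h8
      rw [mul_comm (l1 ^ a), mul_comm (l1 ^ b)]
      exact h8
    have h9 : l1 ^ a * l2 ^ c = l1 ^ b * l2 ^ d := by
      by_contra hne
      have h10 : ∃ n : ℕ, n ≠ 0 ∧ ∀ t : T, t ^ n = 1 := by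
        rcases Nat.lt_or_gt_of_ne hne with h | h
        · refine ⟨l1 ^ b * l2 ^ d - l1 ^ a * l2 ^ c, by omega, fun t => ?_⟩
          have h11 : t ^ (l1 ^ b * l2 ^ d - l1 ^ a * l2 ^ c) * t ^ (l1 ^ a * l2 ^ c) =
              t ^ (l1 ^ b * l2 ^ d) := by
            rw [← pow_add, Nat.sub_add_cancel h.le]
          rw [h7] at h11
          exact mul_eq_right.mp h11
        · refine ⟨l1 ^ a * l2 ^ c - l1 ^ b * l2 ^ d, by omega, fun t => ?_⟩
          have h11 : t ^ (l1 ^ a * l2 ^ c - l1 ^ b * l2 ^ d) * t ^ (l1 ^ b * l2 ^ d) =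
              t ^ (l1 ^ a * l2 ^ c) := by
            rw [← pow_add, Nat.sub_add_cancel h.le]
          rw [h7] at h11
          exact mul_eq_right.mp h11
      obtain ⟨n, hn, hT⟩ := h10
      have h12 : {x : T | x ^ n = 1} = Set.univ := by
        ext x; simp [hT x]
      have h13 := hfin n hn
      rw [h12] at h13
      exact Set.infinite_univ h13
    have hl1 : Nat.Coprime l1 l2 := (Nat.coprime_primes h1 h2).mpr h12
    have hab : a = b := by
      have h14 := congrArg (Nat.factorization · l1) h9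
      rw [Nat.factorization_mul (pow_ne_zero _ h1.ne_zero) (pow_ne_zero _ h2.ne_zero),
        Nat.factorization_mul (pow_ne_zero _ h1.ne_zero) (pow_ne_zero _ h2.ne_zero)] at h14
      simpa [Nat.factorization_pow, h1.factorization, h2.factorization, h12, h12.symm] using h14
    have hcd : c = d := by
      have h14 := congrArg (Nat.factorization · l2) h9
      rw [Nat.factorization_mul (pow_ne_zero _ h1.ne_zero) (pow_ne_zero _ h2.ne_zero),
        Nat.factorization_mul (pow_ne_zero _ h1.ne_zero) (pow_ne_zero _ h2.ne_zero)] at h14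
      simpa [Nat.factorization_pow, h1.factorization, h2.factorization, h12, h12.symm] using h14
    have hi0 : i = 0 := by omega
    have hj0 : j = 0 := by omega
    apply Multiplicative.toAdd.injective
    ext
    · rw [← hi, hi0]; rfl
    · rw [← hj, hj0]; rfl
  have hZ2 : K Z2 := hK.sub _ _ φ hφ (hK.aut _ hKT)
  obtain ⟨C, hC, hcount, hnot⟩ := hc
  exact hnot (countable_of_Z2 hK hZ2 C)

end

/-- the primary component -/
def prim (T : Type) [CommGroup T] (p : ℕ) : Subgroup T where
  carrier := {t | ∃ k : ℕ, t ^ (p ^ k) = 1}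
  one_mem' := ⟨0, one_pow _⟩
  mul_mem' := by
    rintro a b ⟨k, hk⟩ ⟨l, hl⟩
    refine ⟨k + l, ?_⟩
    rw [mul_pow, pow_add, pow_mul, hk, one_pow, one_mul, mul_comm (p ^ k), pow_mul, hl, one_pow]
  inv_mem' := by
    rintro a ⟨k, hk⟩
    exact ⟨k, by rw [inv_pow, hk, inv_one]⟩

lemma prim_no_torsion (T : Type) [CommGroup T] (p q : ℕ) (hp : p.Prime) (hq : q.Prime)
    (hpq : p ≠ q) (t : prim T p) (ht : t ^ q = 1) : t = 1 := by
  obtain ⟨k, hk⟩ := t.2
  have h1 : orderOf t.1 ∣ p ^ k := orderOf_dvd_of_pow_eq_one hk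
  have h2 : orderOf t.1 ∣ q := orderOf_dvd_of_pow_eq_one (by
    have := congrArg Subtype.val ht
    simpa using this)
  have h3 : Nat.Coprime (p ^ k) q := Nat.Coprime.pow_left _ ((Nat.coprime_primes hp hq).mpr hpq)
  have h4 : orderOf t.1 = 1 := Nat.eq_one_of_dvd_coprimes h3 h1 h2
  exact Subtype.ext (orderOf_eq_one_iff.mp h4)

lemma quo_prim_no_torsion (T : Type) [CommGroup T] (p : ℕ)
    (t : T ⧸ prim T p) (ht : t ^ p = 1) : t = 1 := by
  obtain ⟨t, rfl⟩ := QuotientGroup.mk_surjective t
  rw [← QuotientGroup.mk_pow, QuotientGroup.eq_one_iff] at ht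
  obtain ⟨k, hk⟩ := ht
  rw [QuotientGroup.eq_one_iff]
  exact ⟨k + 1, by rw [pow_succ', pow_mul]; exact hk⟩

lemma quo_prim_no_torsion' (T : Type) [CommGroup T] (p q : ℕ)
    (hT : ∀ t : T, t ^ q = 1 → t = 1)
    (t : T ⧸ prim T p) (ht : t ^ q = 1) : t = 1 := by
  obtain ⟨t, rfl⟩ := QuotientGroup.mk_surjective t
  rw [← QuotientGroup.mk_pow, QuotientGroup.eq_one_iff] at ht
  obtain ⟨k, hk⟩ := ht
  rw [QuotientGroup.eq_one_iff]
  exact ⟨k, hT _ (by rw [← pow_mul, mul_comm, pow_mul]; exact hk)⟩

lemma infinite_quotient (T : Type) [Group T] [Infinite T] (D : Subgroup T) (hD : Finite D) :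
    Infinite (T ⧸ D) := by
  by_contra h
  rw [not_infinite_iff_finite] at h
  have h1 : Finite ((T ⧸ D) × D) := inferInstance
  have h2 : Finite T := Finite.of_equiv _ (Subgroup.groupEquivQuotientProdSubgroup (s := D)).symm
  exact not_finite T

section

variable {K : (G : Type) → [Group G] → Prop} (hK : SHAClosed K)
include hK

/-- in an admissible class there is no infinite torsion abelian group -/
theorem finite_of_torsion (hc : ∃ (C : Type) (_ : Group C), Countable C ∧ ¬ K C)
    (T : Type) [CommGroup T] (hKT : K T)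
    (htor : ∀ t : T, ∃ n : ℕ, n ≠ 0 ∧ t ^ n = 1) : Finite T := by
  by_contra hT
  rw [not_finite_iff_infinite] at hT
  have hsub : ∀ (T : Type) [CommGroup T] (D : Subgroup T),
      (∀ t : T, ∃ n : ℕ, n ≠ 0 ∧ t ^ n = 1) → ∀ t : D, ∃ n : ℕ, n ≠ 0 ∧ t ^ n = 1 := by
    intro T _ D h t
    obtain ⟨n, hn, ht⟩ := h t.1
    exact ⟨n, hn, Subtype.ext (by simpa using ht)⟩
  have hquo : ∀ (T : Type) [CommGroup T] (D : Subgroup T),
      (∀ t : T, ∃ n : ℕ, n ≠ 0 ∧ t ^ n = 1) → ∀ t : T ⧸ D, ∃ n : ℕ, n ≠ 0 ∧ t ^ n = 1 := by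
    intro T _ D h t
    obtain ⟨t, rfl⟩ := QuotientGroup.mk_surjective t
    obtain ⟨n, hn, ht⟩ := h t
    exact ⟨n, hn, by rw [← QuotientGroup.mk_pow, ht]; rfl⟩
  have hKsub : ∀ (T : Type) [CommGroup T] (D : Subgroup T), K T → K D := fun T _ D h =>
    hK.sub _ _ D.subtype D.subtype_injective h
  have hKquo : ∀ (T : Type) [CommGroup T] (D : Subgroup T), K T → K (T ⧸ D) := fun T _ D h =>
    hK.quo _ _ (QuotientGroup.mk' D) (QuotientGroup.mk'_surjective D) h
  rcases finite_or_infinite (prim T 2) with h2 | h2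
  · have := infinite_quotient T (prim T 2) h2
    rcases finite_or_infinite (prim (T ⧸ prim T 2) 3) with h3 | h3
    · have := infinite_quotient (T ⧸ prim T 2) (prim (T ⧸ prim T 2) 3) h3
      exact false_of_two_primes hK hc ((T ⧸ prim T 2) ⧸ prim (T ⧸ prim T 2) 3)
        (hKquo _ _ (hKquo _ _ hKT)) (hquo _ _ (hquo _ _ htor)) 2 3 Nat.prime_two Nat.prime_three
        (by norm_num) (quo_prim_no_torsion' _ 3 2 (quo_prim_no_torsion T 2))
        (quo_prim_no_torsion _ 3)
    · exact false_of_two_primes hK hc (prim (T ⧸ prim T 2) 3)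
        (hKsub _ _ (hKquo _ _ hKT)) (hsub _ _ (hquo _ _ htor)) 2 5 Nat.prime_two Nat.prime_five
        (by norm_num) (prim_no_torsion _ 3 2 Nat.prime_three Nat.prime_two (by norm_num))
        (prim_no_torsion _ 3 5 Nat.prime_three Nat.prime_five (by norm_num))
  · exact false_of_two_primes hK hc (prim T 2)
        (hKsub _ _ hKT) (hsub _ _ htor) 3 5 Nat.prime_three Nat.prime_five
        (by norm_num) (prim_no_torsion _ 2 3 Nat.prime_two Nat.prime_three (by norm_num))
        (prim_no_torsion _ 2 5 Nat.prime_two Nat.prime_five (by norm_num))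

/-- the free abelian group of rank two is not in an admissible class -/
theorem not_Z2 (hc : ∃ (C : Type) (_ : Group C), Countable C ∧ ¬ K C) : ¬ K Z2 := by
  intro h
  obtain ⟨C, hC, hcount, hnot⟩ := hc
  exact hnot (countable_of_Z2 hK h C)

end

/-- two commuting elements that generate a free abelian group of rank two -/
theorem Z2_embeds {G : Type} [Group G] (a b : G) (hab : Commute a b)
    (h : ∀ i j : ℤ, a ^ i * b ^ j = 1 → i = 0 ∧ j = 0) :
    ∃ f : Z2 →* G, Function.Injective f := by
  refine ⟨{ toFun := fun p => a ^ p.toAdd.1 * b ^ p.toAdd.2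
            map_one' := by simp
            map_mul' := fun p q => ?_ }, ?_⟩
  · have e1 : (p * q).toAdd.1 = p.toAdd.1 + q.toAdd.1 := rfl
    have e2 : (p * q).toAdd.2 = p.toAdd.2 + q.toAdd.2 := rfl
    rw [e1, e2, zpow_add, zpow_add]
    have h3 : Commute (a ^ q.toAdd.1) (b ^ p.toAdd.2) := (hab.zpow_zpow _ _)
    calc a ^ p.toAdd.1 * a ^ q.toAdd.1 * (b ^ p.toAdd.2 * b ^ q.toAdd.2)
        = a ^ p.toAdd.1 * (a ^ q.toAdd.1 * b ^ p.toAdd.2) * b ^ q.toAdd.2 := by group
      _ = a ^ p.toAdd.1 * (b ^ p.toAdd.2 * a ^ q.toAdd.1) * b ^ q.toAdd.2 := by rw [h3.eq]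
      _ = _ := by group
  · rw [injective_iff_map_eq_one]
    intro p hp
    obtain ⟨h1, h2⟩ := h _ _ hp
    apply Multiplicative.toAdd.injective
    ext
    · exact h1
    · exact h2

section

variable {K : (G : Type) → [Group G] → Prop} (hK : SHAClosed K)
include hK

/-- in an admissible class all abelian groups are almost cyclic -/
theorem abelian_almostCyclic (hc : ∃ (C : Type) (_ : Group C), Countable C ∧ ¬ K C)
    (A : Type) [CommGroup A] (hKA : K A) : AlmostCyclic A := by
  by_cases htor : ∀ t : A, ∃ n : ℕ, n ≠ 0 ∧ t ^ n = 1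
  · have := finite_of_torsion hK hc A hKA htor
    exact ⟨⊥, inferInstance, inferInstance⟩
  · push Not at htor
    obtain ⟨z, hz⟩ := htor
    have hz' : ∀ i : ℤ, z ^ i = 1 → i = 0 := by
      intro i hi
      by_contra h
      apply hz i.natAbs (by omega)
      rcases Int.natAbs_eq i with h1 | h1
      · rw [h1, zpow_natCast] at hi; exact hi
      · rw [h1, zpow_neg, zpow_natCast, inv_eq_one] at hi; exact hi
    refine ⟨Subgroup.zpowers z, inferInstance, ?_⟩
    have hKQ : K (A ⧸ Subgroup.zpowers z) :=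
      hK.quo _ _ (QuotientGroup.mk' _) (QuotientGroup.mk'_surjective _) hKA
    have : Finite (A ⧸ Subgroup.zpowers z) := by
      apply finite_of_torsion hK hc _ hKQ
      intro t
      obtain ⟨a, rfl⟩ := QuotientGroup.mk_surjective t
      by_contra hcon
      push Not at hcon
      apply not_Z2 hK hc
      obtain ⟨f, hf⟩ := Z2_embeds a z (Commute.all a z) (fun i j hij => by
        have hi : i = 0 := by
          by_contra h
          apply hcon i.natAbs (by omega)
          have h1 : a ^ i ∈ Subgroup.zpowers z := by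
            have : a ^ i = (z ^ j)⁻¹ := eq_inv_of_mul_eq_one_left hij
            rw [this, ← zpow_neg]
            exact Subgroup.zpow_mem_zpowers z _
          rw [← QuotientGroup.mk_pow, QuotientGroup.eq_one_iff]
          rcases Int.natAbs_eq i with h2 | h2
          · rw [h2, zpow_natCast] at h1; exact h1
          · rw [h2, zpow_neg, zpow_natCast] at h1; exact (Subgroup.inv_mem_iff _).mp h1
        rw [hi, zpow_zero, one_mul] at hij
        exact ⟨hi, hz' j hij⟩)
      exact hK.sub _ _ f hf hKA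
    exact Subgroup.finiteIndex_of_finite_quotient

end

end Pool.Agent.SHA
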