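import Mathlib

set_option autoImplicit false

/-!
A finite soluble group with a fixed-point-free automorphism of prime order is nilpotent.
-/

namespace Pool.Agent.SHA

open scoped commutatorElement

/-- a fixed-point-free automorphism -/
def FPF {G : Type} [Group G] (α : MulAut G) : Prop := ∀ g, α g = g → g = 1

lemma fpf_quotient {M E : Type} [Group M] [Group E] [Finite M] (f : M →* E)
    (hf : Function.Surjective f) (α : MulAut M) (a : MulAut E) (h : ∀ m, f (α m) = a (f m))
    (hα : FPF α) : FPF a := by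
  intro e he
  obtain ⟨m, rfl⟩ := hf e
  have hN : ∀ n ∈ f.ker, n⁻¹ * α n ∈ f.ker := by
    intro n hn
    rw [MonoidHom.mem_ker] at hn ⊢
    rw [map_mul, map_inv, h, hn, map_one]; simp
  let φ : f.ker → f.ker := fun n => ⟨n.1⁻¹ * α n.1, hN n.1 n.2⟩
  have hφ : Function.Injective φ := by
    intro n n' hnn
    have h1 : n.1⁻¹ * α n.1 = n'.1⁻¹ * α n'.1 := congrArg Subtype.val hnn
    have h2 : α (n.1 * n'.1⁻¹) = n.1 * n'.1⁻¹ := by
      rw [map_mul, map_inv]
      calc α n.1 * (α n'.1)⁻¹ = n.1 * (n.1⁻¹ * α n.1) * (α n'.1)⁻¹ := by group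
        _ = n.1 * (n'.1⁻¹ * α n'.1) * (α n'.1)⁻¹ := by rw [h1]
        _ = n.1 * n'.1⁻¹ := by group
    exact Subtype.ext (mul_inv_eq_one.mp (hα _ h2))
  have hsurj : Function.Surjective φ := Finite.surjective_of_injective hφ
  have hm : m⁻¹ * α m ∈ f.ker := by
    rw [MonoidHom.mem_ker, map_mul, map_inv, h, he, inv_mul_cancel]
  obtain ⟨n, hn⟩ := hsurj ⟨_, hm⟩
  have h1 : n.1⁻¹ * α n.1 = m⁻¹ * α m := congrArg Subtype.val hn
  have h2 : α (m * n.1⁻¹) = m * n.1⁻¹ := by
    rw [map_mul, map_inv]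
    calc α m * (α n.1)⁻¹ = m * (m⁻¹ * α m) * (α n.1)⁻¹ := by group
      _ = m * (n.1⁻¹ * α n.1) * (α n.1)⁻¹ := by rw [h1]
      _ = m * n.1⁻¹ := by group
  have h3 : m = n.1 := mul_inv_eq_one.mp (hα _ h2)
  rw [h3]
  exact n.2

lemma pow_apply_eq_iterate {G : Type} [Group G] (α : MulAut G) (n : ℕ) (g : G) :
    (α ^ n) g = α^[n] g := by
  induction n generalizing g with
  | zero => rfl
  | succ n ih => rw [pow_succ, MulAut.mul_apply, ih, Function.iterate_succ_apply]

lemma fpf_pow {G : Type} [Group G] (α : MulAut G) (hα : FPF α) (p : ℕ) (hp : p.Prime)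
    (hαp : α ^ p = 1) (i : ℕ) (hi : 0 < i) (hip : i < p) (g : G) (hg : (α ^ i) g = g) : g = 1 := by
  apply hα
  have h1 : Function.IsPeriodicPt α i g := by
    show α^[i] g = g
    rw [← pow_apply_eq_iterate]; exact hg
  have h2 : Function.IsPeriodicPt α p g := by
    show α^[p] g = g
    rw [← pow_apply_eq_iterate, hαp]; rfl
  have h3 := h1.gcd h2
  have h4 : Nat.gcd i p = 1 := by
    exact (Nat.coprime_of_lt_prime hi.ne' hip hp).symm ▸ rfl
  rw [h4] at h3
  exact h3

/-- a Frobenius group argument -/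
lemma frob {V Q : Type} [CommGroup V] [Group Q] [Finite Q] (act : Q →* MulAut V) (a : MulAut Q)
    (α : MulAut V) (hc : ∀ k v, α (act k v) = act (a k) (α v)) (p : ℕ) (hp : p.Prime)
    (ha : a ^ p = 1) (hα : α ^ p = 1) (hfa : FPF a) (hfα : FPF α)
    (hfix : ∀ v, (∀ k, act k v = v) → v = 1) (v : V) : v ^ Nat.card Q = 1 := by
  classical
  have : Fintype Q := Fintype.ofFinite Q
  -- the norm of every element is trivial
  have hnorm : ∀ w : V, ∏ i ∈ Finset.range p, (α ^ i) w = 1 := by
    intro w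
    apply hfα
    rw [map_prod]
    have h1 : ∀ i, α ((α ^ i) w) = (α ^ (i + 1)) w := by
      intro i; rw [pow_succ', MulAut.mul_apply]
    simp_rw [h1]
    have h2 := Finset.prod_range_succ (fun i => (α ^ i) w) p
    have h3 := Finset.prod_range_succ' (fun i => (α ^ i) w) p
    rw [h2] at h3
    simp only [hα, pow_zero, MulAut.one_apply] at h3
    exact (mul_right_cancel h3).symm
  have hci : ∀ (i : ℕ) k v, (α ^ i) (act k v) = act ((a ^ i) k) ((α ^ i) v) := by
    intro i
    induction i with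
    | zero => intro k v; rfl
    | succ i ih =>
      intro k v
      rw [pow_succ', pow_succ', MulAut.mul_apply, MulAut.mul_apply, MulAut.mul_apply, ih, hc]
  have h1 : ∀ k : Q, ∏ i ∈ Finset.range p, act (k * ((a ^ i) k)⁻¹) ((α ^ i) v) = 1 := by
    intro k
    have h2 := congrArg (act k) (hnorm (act k⁻¹ v))
    rw [map_prod, map_one] at h2
    rw [← h2]
    apply Finset.prod_congr rfl
    intro i _
    rw [hci, map_inv, map_mul, MulAut.mul_apply]
  have h2 : ∏ i ∈ Finset.range p, ∏ k : Q, act (k * ((a ^ i) k)⁻¹) ((α ^ i) v) = 1 := by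
    rw [Finset.prod_comm]
    exact Finset.prod_eq_one fun k _ => h1 k
  have hpos : 0 < p := hp.pos
  obtain ⟨q, rfl⟩ : ∃ q, p = q + 1 := ⟨p - 1, by omega⟩
  rw [Finset.prod_range_succ'] at h2
  have h3 : ∀ i ∈ Finset.range q, ∏ k : Q, act (k * ((a ^ (i + 1)) k)⁻¹) ((α ^ (i + 1)) v) = 1 := by
    intro i hi
    rw [Finset.mem_range] at hi
    have hinj : Function.Injective fun k : Q => k * ((a ^ (i + 1)) k)⁻¹ := by
      intro k l hkl
      have h4 : k * ((a ^ (i + 1)) k)⁻¹ = l * ((a ^ (i + 1)) l)⁻¹ := hkl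
      have h5 : (a ^ (i + 1)) (l⁻¹ * k) = l⁻¹ * k := by
        rw [map_mul, map_inv]
        calc ((a ^ (i + 1)) l)⁻¹ * (a ^ (i + 1)) k
            = l⁻¹ * (l * ((a ^ (i + 1)) l)⁻¹) * (a ^ (i + 1)) k := by group
          _ = l⁻¹ * (k * ((a ^ (i + 1)) k)⁻¹) * (a ^ (i + 1)) k := by rw [h4]
          _ = l⁻¹ * k := by group
      have h6 := fpf_pow a hfa (q + 1) hp ha (i + 1) (by omega) (by omega) _ h5
      exact (inv_mul_eq_one.mp h6).symm
    have hbij : Function.Bijective fun k : Q => k * ((a ^ (i + 1)) k)⁻¹ :=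
      Finite.injective_iff_bijective.mp hinj
    rw [hbij.prod_comp (fun u => act u ((α ^ (i + 1)) v))]
    apply hfix
    intro k
    rw [map_prod]
    have h7 : ∀ u : Q, act k (act u ((α ^ (i + 1)) v)) = act (k * u) ((α ^ (i + 1)) v) := by
      intro u; rw [map_mul, MulAut.mul_apply]
    simp_rw [h7]
    exact Equiv.prod_comp (Equiv.mulLeft k) (fun u => act u ((α ^ (i + 1)) v))
  rw [Finset.prod_eq_one h3, one_mul] at h2
  simpa [Nat.card_eq_fintype_card] using h2

/-- a nontrivial soluble group has a nontrivial abelian characteristic subgroup -/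
lemma exists_char_abelian (G : Type) [Group G] [Nontrivial G] (h : Group.IsSolvable G) :
    ∃ D : Subgroup G, D.Characteristic ∧ D ≠ ⊥ ∧ ∀ a ∈ D, ∀ b ∈ D, a * b = b * a := by
  classical
  obtain ⟨hn⟩ := h
  have h0 : Nat.find hn ≠ 0 := by
    intro h0
    have h1 := Nat.find_spec hn
    rw [h0, derivedSeries_zero] at h1
    exact top_ne_bot h1
  obtain ⟨m, hm⟩ : ∃ m, Nat.find hn = m + 1 := ⟨Nat.find hn - 1, by omega⟩
  refine ⟨derivedSeries G m, inferInstance, Nat.find_min hn (by omega), ?_⟩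
  intro a ha b hb
  have h1 := Nat.find_spec hn
  rw [hm, derivedSeries_succ] at h1
  have h2 : ⁅a, b⁆ ∈ (⊥ : Subgroup G) := by
    rw [← h1]; exact Subgroup.commutator_mem_commutator ha hb
  rw [Subgroup.mem_bot] at h2
  exact commutatorElement_eq_one_iff_mul_comm.mp h2

/-- the restriction of an automorphism of a finite group to an invariant subgroup -/
noncomputable def restr {M : Type} [Group M] [Finite M] (α : MulAut M) (V : Subgroup M)
    (hV : ∀ v ∈ V, α v ∈ V) : MulAut V :=
  MulEquiv.ofBijective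
    ({ toFun := fun v => ⟨α v.1, hV v.1 v.2⟩
       map_one' := Subtype.ext (map_one α)
       map_mul' := fun a b => Subtype.ext (map_mul α a.1 b.1) } : V →* V)
    (Finite.injective_iff_bijective.mp fun a b hab =>
      Subtype.ext (α.injective (congrArg Subtype.val hab)))

lemma restr_apply {M : Type} [Group M] [Finite M] (α : MulAut M) (V : Subgroup M)
    (hV : ∀ v ∈ V, α v ∈ V) (v : V) : ((restr α V hV v : V) : M) = α v.1 := rfl

lemma restr_pow_apply {M : Type} [Group M] [Finite M] (α : MulAut M) (V : Subgroup M)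
    (hV : ∀ v ∈ V, α v ∈ V) (n : ℕ) (v : V) :
    (((restr α V hV) ^ n) v : M) = (α ^ n) v.1 := by
  induction n generalizing v with
  | zero => rfl
  | succ n ih => rw [pow_succ, pow_succ, MulAut.mul_apply, MulAut.mul_apply, ih, restr_apply]

lemma restr_pow {M : Type} [Group M] [Finite M] (α : MulAut M) (V : Subgroup M)
    (hV : ∀ v ∈ V, α v ∈ V) (p : ℕ) (hp : α ^ p = 1) : (restr α V hV) ^ p = 1 := by
  refine MulEquiv.ext fun v => Subtype.ext ?_
  rw [restr_pow_apply, hp]; rfl

lemma restr_fpf {M : Type} [Group M] [Finite M] (α : MulAut M) (V : Subgroup M)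
    (hV : ∀ v ∈ V, α v ∈ V) (hα : FPF α) : FPF (restr α V hV) := fun v hv =>
  Subtype.ext (hα v.1 (congrArg Subtype.val hv))

lemma mem_of_char {M : Type} [Group M] (D : Subgroup M) (hD : D.Characteristic) (α : MulAut M)
    (v : M) (hv : v ∈ D) : α v ∈ D :=
  (Subgroup.characteristic_iff_le_comap.mp hD α) hv

/-- an invariant subgroup is also invariant under the inverse -/
lemma inv_mem_of_invariant {M : Type} [Group M] [Finite M] (α : MulAut M) (V : Subgroup M)
    (hV : ∀ v ∈ V, α v ∈ V) (v : M) (hv : v ∈ V) : α⁻¹ v ∈ V := by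
  obtain ⟨w, hw⟩ := (restr α V hV).surjective ⟨v, hv⟩
  have h1 : α w.1 = v := congrArg Subtype.val hw
  rw [← h1]
  have h2 : α⁻¹ (α w.1) = w.1 := α.symm_apply_apply w.1
  rw [h2]
  exact w.2

/-- the elements of exponent dividing n of an abelian subgroup -/
def expSub {M : Type} [Group M] (D : Subgroup M) (hD : ∀ a ∈ D, ∀ b ∈ D, a * b = b * a) (n : ℕ) :
    Subgroup M where
  carrier := {x | x ∈ D ∧ x ^ n = 1}
  one_mem' := ⟨D.one_mem, one_pow n⟩
  mul_mem' := by
    rintro a b ⟨ha, han⟩ ⟨hb, hbn⟩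
    exact ⟨D.mul_mem ha hb, by
      have hc : Commute a b := hD a ha b hb
      rw [hc.mul_pow, han, hbn, one_mul]⟩
  inv_mem' := by
    rintro a ⟨ha, han⟩
    exact ⟨D.inv_mem ha, by rw [inv_pow, han, inv_one]⟩

lemma exists_prime_expSub {M : Type} [Group M] [Finite M] (D : Subgroup M)
    (hD : ∀ a ∈ D, ∀ b ∈ D, a * b = b * a) (hne : D ≠ ⊥) :
    ∃ q : ℕ, q.Prime ∧ expSub D hD q ≠ ⊥ := by
  have hnt : Nontrivial D := (Subgroup.nontrivial_iff_ne_bot D).mpr hne
  have h1 : Nat.card D ≠ 1 := Finite.one_lt_card.ne'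
  have hq := Nat.minFac_prime h1
  have : Fact (Nat.card D).minFac.Prime := ⟨hq⟩
  obtain ⟨x, hx⟩ := exists_prime_orderOf_dvd_card' (Nat.card D).minFac (Nat.minFac_dvd _)
  refine ⟨_, hq, ?_⟩
  intro hbot
  have h2 : (x : M) ∈ expSub D hD (Nat.card D).minFac := by
    refine ⟨x.2, ?_⟩
    have := pow_orderOf_eq_one x
    rw [hx] at this
    simpa using congrArg Subtype.val this
  rw [hbot, Subgroup.mem_bot] at h2
  have h3 : x = 1 := Subtype.ext h2
  rw [h3, orderOf_one] at hx
  exact hq.one_lt.ne hx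

/-- a finite soluble group with a fixed-point-free automorphism of prime order is nilpotent -/
theorem nilpotent_of_fpf (n : ℕ) : ∀ (M : Type) [Group M] [Finite M], Nat.card M = n →
    Group.IsSolvable M → ∀ (p : ℕ), p.Prime → ∀ α : MulAut M, α ^ p = 1 → FPF α →
    Group.IsNilpotent M := by
  induction n using Nat.strong_induction_on with
  | _ n ih =>
  intro M _ _ hcard hsol p hp α hαp hα
  rcases subsingleton_or_nontrivial M with hsub | hnt
  · exact Group.isNilpotent_of_subsingleton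
  obtain ⟨D, hDchar, hDne, hDab⟩ := exists_char_abelian M hsol
  let 𝒮 : Set (Subgroup M) := {V | V.Normal ∧ V ≠ ⊥ ∧ V ≤ D ∧ ∀ v ∈ V, α v ∈ V}
  have h𝒮 : 𝒮.Nonempty := ⟨D, inferInstance, hDne, le_refl _, mem_of_char D hDchar α⟩
  obtain ⟨V, ⟨hVn, hVne, hVD, hVα⟩, hVmin⟩ :=
    (wellFounded_lt : WellFounded ((· < ·) : Subgroup M → Subgroup M → Prop)).has_min 𝒮 h𝒮
  have hVmin' : ∀ W ∈ 𝒮, W ≤ V → W = V := fun W hW hWV =>
    by_contra fun h => hVmin W hW (lt_of_le_of_ne hWV h)
  have hVab : ∀ a ∈ V, ∀ b ∈ V, a * b = b * a := fun a ha b hb => hDab a (hVD ha) b (hVD hb)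
  let αV : MulAut V := restr α V hVα
  let conj : M →* MulAut V := MulAut.conjNormal
  have hconj : ∀ (m : M) (v : V), ((conj m v : V) : M) = m * v * m⁻¹ := fun m v =>
    MulAut.conjNormal_apply m v
  have hcompat : ∀ m, αV * conj m * αV⁻¹ = conj (α m) := by
    intro m
    rw [mul_inv_eq_iff_eq_mul]
    refine MulEquiv.ext fun v => Subtype.ext ?_
    show ((αV (conj m v) : V) : M) = (conj (α m) (αV v) : V)
    rw [hconj, restr_apply, restr_apply, hconj, map_mul, map_mul, map_inv]
  by_cases hcen : ∀ m, conj m = 1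
  · -- V is central
    have hVcen : V ≤ Subgroup.center M := by
      intro v hv
      rw [Subgroup.mem_center_iff]
      intro g
      have h1 := hconj g ⟨v, hv⟩
      rw [hcen g] at h1
      have h2 : v = g * v * g⁻¹ := h1
      exact (eq_mul_inv_iff_mul_eq.mp h2).symm
    have hmap : V.map (α : M ≃* M).toMonoidHom = V := by
      apply le_antisymm
      · rintro _ ⟨v, hv, rfl⟩
        exact hVα v hv
      · intro v hv
        exact ⟨α⁻¹ v, inv_mem_of_invariant α V hVα v hv, α.apply_symm_apply v⟩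
    let αQ : MulAut (M ⧸ V) := QuotientGroup.congr V V α hmap
    have hαQ : ∀ m : M, αQ (m : M ⧸ V) = ((α m : M) : M ⧸ V) := fun m => rfl
    have hαQp : αQ ^ p = 1 := by
      refine MulEquiv.ext fun x => ?_
      obtain ⟨m, rfl⟩ := QuotientGroup.mk_surjective x
      have h1 : ∀ k : ℕ, ∀ m : M, (αQ ^ k) (m : M ⧸ V) = (((α ^ k) m : M) : M ⧸ V) := by
        intro k
        induction k with
        | zero => intro m; rfl
        | succ k ihk =>
          intro m
          rw [pow_succ, pow_succ, MulAut.mul_apply, MulAut.mul_apply, hαQ, ihk]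
      rw [h1, hαp]; rfl
    have hfpf : FPF αQ := fpf_quotient (QuotientGroup.mk' V) (QuotientGroup.mk'_surjective V) α αQ
      (fun m => rfl) hα
    have hlt : Nat.card (M ⧸ V) < n := by
      rw [← hcard, Subgroup.card_eq_card_quotient_mul_card_subgroup V]
      have h1 : 1 < Nat.card V := by
        have : Nontrivial V := (Subgroup.nontrivial_iff_ne_bot V).mpr hVne
        exact Finite.one_lt_card
      have h2 : 0 < Nat.card (M ⧸ V) := Nat.card_pos
      nlinarith
    have hnil : Group.IsNilpotent (M ⧸ V) := ih _ hlt (M ⧸ V) rfl inferInstance p hp αQ hαQp hfpf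
    exact Subgroup.isNilpotent_of_ker_le_center (QuotientGroup.mk' V) (by
      rw [QuotientGroup.ker_mk']; exact hVcen)
  · exfalso
    push Not at hcen
    obtain ⟨m0, hm0⟩ := hcen
    let E : Subgroup (MulAut V) := conj.range
    have hE : ∀ x ∈ E, αV * x * αV⁻¹ ∈ E := by
      rintro _ ⟨m, rfl⟩
      exact ⟨α m, (hcompat m).symm⟩
    have : Finite (MulAut V) := by
      have : Function.Injective (fun f : MulAut V => (f : V → V)) := DFunLike.coe_injective
      exact Finite.of_injective _ this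
    let a : MulAut E := restr (MulAut.conj αV) E hE
    have ha : ∀ m : M, conj.rangeRestrict (α m) = a (conj.rangeRestrict m) := by
      intro m
      exact Subtype.ext (hcompat m).symm
    have hap : a ^ p = 1 := by
      apply restr_pow
      rw [← map_pow, restr_pow α V hVα p hαp, map_one]
    have hafpf : FPF a := fpf_quotient conj.rangeRestrict conj.rangeRestrict_surjective α a ha hα
    have hEnt : Nontrivial E := by
      refine ⟨⟨conj.rangeRestrict m0, 1, fun h => hm0 ?_⟩⟩
      exact congrArg Subtype.val h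
    have hEsol : Group.IsSolvable E :=
      Group.isSolvable_of_surjective conj.rangeRestrict_surjective
    obtain ⟨DE, hDEchar, hDEne, hDEab⟩ := exists_char_abelian E hEsol
    obtain ⟨q, hq, hQne⟩ := exists_prime_expSub DE hDEab hDEne
    let Q : Subgroup E := expSub DE hDEab q
    have hQchar : ∀ (φ : MulAut E), ∀ x ∈ Q, φ x ∈ Q := by
      rintro φ x ⟨hx, hxq⟩
      exact ⟨mem_of_char DE hDEchar φ x hx, by rw [← map_pow, hxq, map_one]⟩
    let act : Q →* MulAut V := E.subtype.comp Q.subtype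
    let aQ : MulAut Q := restr a Q (hQchar a)
    have haQp : aQ ^ p = 1 := restr_pow a Q (hQchar a) p hap
    have haQfpf : FPF aQ := restr_fpf a Q (hQchar a) hafpf
    have hαVp : αV ^ p = 1 := restr_pow α V hVα p hαp
    have hαVfpf : FPF αV := restr_fpf α V hVα hα
    let _ : CommGroup V := { (inferInstance : Group V) with
      mul_comm := fun a b => Subtype.ext (hVab a.1 a.2 b.1 b.2) }
    have hc : ∀ k v, αV (act k v) = act (aQ k) (αV v) := by
      intro k v
      have h1 : act (aQ k) = αV * act k * αV⁻¹ := rfl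
      rw [h1]
      show αV (act k v) = αV (act k (αV⁻¹ (αV v)))
      have h2 : αV⁻¹ (αV v) = v := αV.symm_apply_apply v
      rw [h2]
    -- the fixed points of Q
    let W : Subgroup M :=
      { carrier := {m | ∃ h : m ∈ V, ∀ k : Q, act k ⟨m, h⟩ = ⟨m, h⟩}
        one_mem' := ⟨V.one_mem, fun k => map_one (act k)⟩
        mul_mem' := by
          rintro x y ⟨hx, hx'⟩ ⟨hy, hy'⟩
          refine ⟨V.mul_mem hx hy, fun k => ?_⟩
          have : (⟨x * y, V.mul_mem hx hy⟩ : V) = ⟨x, hx⟩ * ⟨y, hy⟩ := rfl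
          rw [this, map_mul, hx', hy']
        inv_mem' := by
          rintro x ⟨hx, hx'⟩
          refine ⟨V.inv_mem hx, fun k => ?_⟩
          have : (⟨x⁻¹, V.inv_mem hx⟩ : V) = ⟨x, hx⟩⁻¹ := rfl
          rw [this, map_inv, hx'] }
    have hWV : W ≤ V := fun x hx => hx.1
    have hWn : W.Normal := by
      constructor
      rintro x ⟨hx, hx'⟩ m
      refine ⟨hVn.conj_mem x hx m, fun k => ?_⟩
      have h1 : (⟨m * x * m⁻¹, hVn.conj_mem x hx m⟩ : V) = conj m ⟨x, hx⟩ :=
        Subtype.ext (hconj m ⟨x, hx⟩).symm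
      rw [h1]
      -- the conjugate of k
      let e : E := conj.rangeRestrict m
      have h2 : MulAut.conj e⁻¹ k.1 ∈ Q := hQchar (MulAut.conj e⁻¹) k.1 k.2
      have h3 := hx' ⟨_, h2⟩
      have h4 : act ⟨_, h2⟩ = (conj m)⁻¹ * act k * conj m := by
        show (((e⁻¹ * k.1 * e⁻¹⁻¹ : E)) : MulAut V) = _
        rw [inv_inv]; rfl
      rw [h4] at h3
      have h5 : (conj m)⁻¹ (act k (conj m ⟨x, hx⟩)) = ⟨x, hx⟩ := h3
      have h6 := congrArg (conj m) h5
      have h7 : conj m ((conj m)⁻¹ (act k (conj m ⟨x, hx⟩))) = act k (conj m ⟨x, hx⟩) :=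
        (conj m).apply_symm_apply _
      rw [h7] at h6
      exact h6
    have hWα : ∀ v ∈ W, α v ∈ W := by
      rintro x ⟨hx, hx'⟩
      refine ⟨hVα x hx, fun k => ?_⟩
      obtain ⟨k', rfl⟩ := aQ.surjective k
      have h1 : (⟨α x, hVα x hx⟩ : V) = αV ⟨x, hx⟩ := rfl
      rw [h1, ← hc, hx']
    have hW : W = ⊥ := by
      by_contra hWne
      have h1 := hVmin' W ⟨hWn, hWne, hWV.trans hVD, hWα⟩ hWV
      apply hQne
      rw [eq_bot_iff]
      intro k hk
      rw [Subgroup.mem_bot]
      apply Subtype.ext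
      refine MulEquiv.ext fun v => ?_
      have h2 : (v : M) ∈ W := by rw [h1]; exact v.2
      obtain ⟨h3, h4⟩ := h2
      exact h4 ⟨k, hk⟩
    have hfix : ∀ v : V, (∀ k, act k v = v) → v = 1 := by
      intro v hv
      have h1 : (v : M) ∈ W := ⟨v.2, hv⟩
      rw [hW] at h1
      exact Subtype.ext h1
    have hfrob := frob act aQ αV hc p hp haQp hαVp haQfpf hαVfpf hfix
    -- V is elementary abelian
    obtain ⟨r, hr, hVr⟩ := exists_prime_expSub V hVab hVne
    have hVr' : expSub V hVab r = V := by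
      refine hVmin' _ ⟨?_, hVr, ?_, ?_⟩ ?_
      · constructor
        rintro x ⟨hx, hxr⟩ m
        exact ⟨hVn.conj_mem x hx m, by rw [conj_pow, hxr]; simp⟩
      · exact fun x hx => hVD hx.1
      · rintro x ⟨hx, hxr⟩
        exact ⟨hVα x hx, by rw [← map_pow, hxr, map_one]⟩
      · exact fun x hx => hx.1
    have hVexp : ∀ v : V, v ^ r = 1 := by
      intro v
      have h1 : (v : M) ∈ expSub V hVab r := by rw [hVr']; exact v.2
      exact Subtype.ext (by simpa using h1.2)
    have hQp : IsPGroup q Q := by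
      intro k
      refine ⟨1, ?_⟩
      rw [pow_one]
      exact Subtype.ext (by simpa using k.2.2)
    have : Fact q.Prime := ⟨hq⟩
    have hVnt : Nontrivial V := (Subgroup.nontrivial_iff_ne_bot V).mpr hVne
    obtain ⟨v, hv⟩ := exists_ne (1 : V)
    by_cases hqr : q = r
    · subst hqr
      let _ : MulAction Q V := MulAction.compHom V act
      have h1 : q ∣ Nat.card V := by
        have hVp : IsPGroup q V := fun v => ⟨1, by rw [pow_one]; exact hVexp v⟩
        obtain ⟨k, hk⟩ := IsPGroup.iff_card.mp hVp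
        rw [hk]
        apply dvd_pow_self
        rintro rfl
        rw [pow_zero] at hk
        exact Finite.one_lt_card.ne' hk
      have h2 : (1 : V) ∈ MulAction.fixedPoints Q V := fun k => map_one (act k)
      obtain ⟨b, hb, hb1⟩ := hQp.exists_fixed_point_of_prime_dvd_card_of_fixed_point V h1 h2
      exact hb1 (hfix b hb).symm
    · obtain ⟨k, hk⟩ := IsPGroup.iff_card.mp hQp
      have h1 := hfrob v
      rw [hk] at h1
      have h2 := hVexp v
      have h3 : orderOf v ∣ q ^ k := orderOf_dvd_of_pow_eq_one h1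
      have h4 : orderOf v ∣ r := orderOf_dvd_of_pow_eq_one h2
      have h5 : Nat.Coprime (q ^ k) r := Nat.Coprime.pow_left _ ((Nat.coprime_primes hq hr).mpr hqr)
      exact hv (orderOf_eq_one_iff.mp (Nat.eq_one_of_dvd_coprimes h5 h3 h4))

end Pool.Agent.SHA
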