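import Pool.Agent.SHA.Main

set_option autoImplicit false

/-!
Hyper-(locally soluble or finite) groups; the smallest admissible class that contains an infinite
group of this kind.
-/

namespace Pool.Agent.SHA

lemma AlmostCyclic.solvable {M : Type} [Group M] (h : AlmostCyclic M) (hM : LocallySoluble M) :
    Group.IsSolvable M := by
  obtain ⟨C, hC, hfi⟩ := h
  let N := C.normalCore
  have hNC : N ≤ C := Subgroup.normalCore_le C
  have hNcyc : IsCyclic N :=
    isCyclic_of_injective (Subgroup.inclusion hNC) (Subgroup.inclusion_injective hNC)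
  have hNsol : Group.IsSolvable N := Group.isSolvable_of_comm hNcyc.commGroup.mul_comm
  have hNfi : N.FiniteIndex := inferInstance
  have hfin : Finite (M ⧸ N) := Subgroup.finite_quotient_of_finiteIndex
  have hQ : LocallySoluble (M ⧸ N) :=
    hM.of_surjective (QuotientGroup.mk' N) (QuotientGroup.mk'_surjective N)
  have hQsol : Group.IsSolvable (M ⧸ N) := by
    have h1 : (⊤ : Subgroup (M ⧸ N)).FG := by
      have : Group.FG (M ⧸ N) := inferInstance
      exact this.out
    have h2 := hQ ⊤ h1
    exact Group.isSolvable_of_surjective (f := (⊤ : Subgroup (M ⧸ N)).subtype)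
      (fun x => ⟨⟨x, Subgroup.mem_top x⟩, rfl⟩)
  exact (Group.isSolvable_iff_subgroup_quotient N).mpr ⟨hNsol, hQsol⟩

section

variable {K : (G : Type) → [Group G] → Prop}

/-- hyper-(locally soluble or finite) groups in the class are almost cyclic -/
theorem SHAb.almostCyclic_hyper (hK : SHAb K) {G : Type} [Group G] (hKG : K G) (h : HyperLSF G) :
    AlmostCyclic G := by
  apply hK.almostCyclic_of_HAF hKG
  intro Q _ f hf hQ
  obtain ⟨M, hM, hne, hfin | hls⟩ := h Q f hf hQ
  · exact ⟨M, hM, hne, Or.inl hfin⟩
  · have hKM : K M := hK.sub' (hK.quo _ _ f hf hKG) M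
    have hsol := (hK.almostCyclic_locSol hKM hls).solvable hls
    obtain ⟨D, hD, hDne, hDab⟩ := exists_normal_abelian M hM hne hsol
    exact ⟨D, hD, hDne, Or.inr hDab⟩

/-! ### finite groups from the integers -/

/-- signs act on a product of cyclic groups -/
def signAut (C : Type) (p : C → ℕ) : (C → ℤˣ) →* MulAut (Multiplicative (∀ c, ZMod (p c))) where
  toFun ε :=
    { toFun := fun x => Multiplicative.ofAdd fun c => ((ε c : ℤ) : ZMod (p c)) * x.toAdd c
      invFun := fun x => Multiplicative.ofAdd fun c => ((ε c : ℤ) : ZMod (p c)) * x.toAdd c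
      left_inv := fun x => by
        apply Multiplicative.toAdd.injective
        funext c
        rcases Int.units_eq_one_or (ε c) with h | h <;> simp [h]
      right_inv := fun x => by
        apply Multiplicative.toAdd.injective
        funext c
        rcases Int.units_eq_one_or (ε c) with h | h <;> simp [h]
      map_mul' := fun x y => by
        apply Multiplicative.toAdd.injective
        funext c
        simp [mul_add] }
  map_one' := by
    refine MulEquiv.ext fun x => ?_
    apply Multiplicative.toAdd.injective
    funext c
    simp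
  map_mul' ε δ := by
    refine MulEquiv.ext fun x => ?_
    apply Multiplicative.toAdd.injective
    funext c
    simp [mul_assoc]

lemma signAut_injective (C : Type) (p : C → ℕ) (hp : ∀ c, 3 ≤ p c) :
    Function.Injective (signAut C p) := by
  intro ε δ h
  funext c
  have h1 := DFunLike.congr_fun h (Multiplicative.ofAdd fun _ => 1)
  have h2 : ((ε c : ℤ) : ZMod (p c)) * 1 = ((δ c : ℤ) : ZMod (p c)) * 1 :=
    congrFun (congrArg Multiplicative.toAdd h1) c
  rw [mul_one, mul_one] at h2
  have hne : (1 : ZMod (p c)) ≠ -1 := by
    have : Fact (2 < p c) := ⟨hp c⟩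
    exact (ZMod.neg_one_ne_one).symm
  rcases Int.units_eq_one_or (ε c) with h3 | h3 <;> rcases Int.units_eq_one_or (δ c) with h4 | h4
  · rw [h3, h4]
  · rw [h3, h4] at h2; simp at h2; exact absurd h2 hne
  · rw [h3, h4] at h2; simp at h2; exact absurd h2.symm hne
  · rw [h3, h4]

/-- a group acts on the functions on it with values in the signs -/
def translAut (C : Type) [Group C] : C →* MulAut (C → ℤˣ) where
  toFun c :=
    { toFun := fun f x => f (c⁻¹ * x)
      invFun := fun f x => f (c * x)
      left_inv := fun f => by funext x; simp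
      right_inv := fun f => by funext x; simp
      map_mul' := fun f g => rfl }
  map_one' := by
    refine MulEquiv.ext fun f => ?_
    funext x
    simp
  map_mul' a b := by
    refine MulEquiv.ext fun f => ?_
    funext x
    simp [mul_assoc]

lemma translAut_injective (C : Type) [Group C] : Function.Injective (translAut C) := by
  classical
  intro a b h
  have h1 := DFunLike.congr_fun h (fun x => if x = 1 then (-1 : ℤˣ) else 1)
  have h2 := congrFun h1 a
  have h3 : (if a⁻¹ * a = 1 then (-1 : ℤˣ) else 1) = if b⁻¹ * a = 1 then (-1 : ℤˣ) else 1 := h2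
  rw [inv_mul_cancel, if_pos rfl] at h3
  by_contra hne
  rw [if_neg (fun h => hne (inv_mul_eq_one.mp h).symm)] at h3
  exact absurd h3 (by decide)

/-- a class closed under subgroups, images and automorphism groups that contains the integers
contains all finite groups -/
theorem finite_of_int (hK : SHAClosed K) (hZ : K (Multiplicative ℤ)) (C : Type) [Group C]
    [Finite C] : K C := by
  classical
  have : Fintype C := Fintype.ofFinite C
  -- distinct odd primes indexed by C
  let e := Fintype.equivFin C
  let p : C → ℕ := fun c => Nat.nth Nat.Prime ((e c : ℕ) + 1)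
  have hprime : ∀ c, (p c).Prime := fun c => Nat.prime_nth_prime _
  have hinj : Function.Injective p := by
    intro a b hab
    have h1 := Nat.nth_injective Nat.infinite_setOfPred_prime hab
    exact e.injective (Fin.ext (by omega))
  have hodd : ∀ c, 3 ≤ p c := by
    intro c
    have h1 : Nat.nth Nat.Prime 0 < p c := Nat.nth_strictMono Nat.infinite_setOfPred_prime (by omega)
    have h2 : 2 ≤ Nat.nth Nat.Prime 0 := (Nat.prime_nth_prime 0).two_le
    omega
  have hco : Pairwise (Function.onFun Nat.Coprime p) := by
    intro a b hab
    exact (Nat.coprime_primes (hprime a) (hprime b)).mpr fun h => hab (hinj h)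
  let crt := ZMod.prodEquivPi p hco
  let φ : ℤ →+ (∀ c, ZMod (p c)) :=
    crt.toRingHom.toAddMonoidHom.comp (Int.castRingHom (ZMod (∏ c, p c))).toAddMonoidHom
  have hφ : Function.Surjective φ := crt.surjective.comp (ZMod.intCast_surjective)
  have h1 : K (Multiplicative (∀ c, ZMod (p c))) :=
    hK.quo _ _ (AddMonoidHom.toMultiplicative φ) hφ hZ
  have h2 : K (C → ℤˣ) := hK.sub _ _ (signAut C p) (signAut_injective C p hodd) (hK.aut _ h1)
  exact hK.sub _ _ (translAut C) (translAut_injective C) (hK.aut _ h2)

end

/-! ### the class of the groups that are finite or cyclic -/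

lemma finite_mulAut_of_infinite_cyclic (G : Type) [Group G] [Infinite G] (h : IsCyclic G) :
    Finite (MulAut G) := by
  obtain ⟨g, hg⟩ := h.exists_generator
  have hinj0 : Function.Injective fun i : ℤ => g ^ i := by
    intro i j hij
    by_contra hne
    have hfo : IsOfFinOrder g := by
      rw [isOfFinOrder_iff_zpow_eq_one]
      refine ⟨i - j, sub_ne_zero.mpr hne, ?_⟩
      have : g ^ i = g ^ j := hij
      rw [zpow_sub, this, mul_inv_cancel]
    have h1 : (Subgroup.zpowers g : Set G).Finite := hfo.finite_zpowers
    have h2 : (Subgroup.zpowers g : Set G) = Set.univ := by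
      ext x; simpa using hg x
    rw [h2] at h1
    exact Set.infinite_univ h1
  have hval : ∀ α : MulAut G, α g = g ∨ α g = g⁻¹ := by
    intro α
    obtain ⟨i, hi⟩ := Subgroup.mem_zpowers_iff.mp (hg (α g))
    obtain ⟨j, hj⟩ := Subgroup.mem_zpowers_iff.mp (hg (α⁻¹ g))
    have h1 : α (α⁻¹ g) = g := α.apply_symm_apply g
    rw [← hj, map_zpow, ← hi, ← zpow_mul] at h1
    have h2 : i * j = 1 := hinj0 (by simpa using h1)
    rcases Int.eq_one_or_neg_one_of_mul_eq_one h2 with h | h
    · left; rw [← hi, h, zpow_one]
    · right; rw [← hi, h, zpow_neg, zpow_one]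
  have hinj : Function.Injective fun α : MulAut G => (⟨α g, hval α⟩ : {x : G // x = g ∨ x = g⁻¹}) := by
    intro α β h
    have h1 : α g = β g := congrArg Subtype.val h
    refine MulEquiv.ext fun x => ?_
    obtain ⟨k, rfl⟩ := Subgroup.mem_zpowers_iff.mp (hg x)
    rw [map_zpow, map_zpow, h1]
  have : Finite {x : G // x = g ∨ x = g⁻¹} := by
    have h1 : {x : G | x = g ∨ x = g⁻¹}.Finite := by
      have : {x : G | x = g ∨ x = g⁻¹} = {g, g⁻¹} := by ext x; simp
      rw [this]; exact Set.toFinite _
    exact h1
  exact Finite.of_injective _ hinj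

theorem admissible_finite_or_cyclic :
    Admissible (fun (G : Type) [Group G] => Finite G ∨ IsCyclic G) := by
  refine ⟨⟨?_, ?_, ?_⟩, ?_⟩
  · rintro G H _ _ f hf (h | h)
    · left; exact Finite.of_injective f hf
    · right; exact isCyclic_of_injective f hf
  · rintro G Q _ _ f hf (h | h)
    · left; exact Finite.of_surjective f hf
    · right; exact isCyclic_of_surjective f hf
  · intro G _ h
    rcases finite_or_infinite G with hfin | hinf
    · left
      have : Function.Injective (fun f : MulAut G => (f : G → G)) := DFunLike.coe_injective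
      exact Finite.of_injective _ this
    · rcases h with h | h
      · exact absurd h (not_finite_iff_infinite.mpr hinf)
      · left; exact finite_mulAut_of_infinite_cyclic G h
  · refine ⟨Z2, inferInstance, inferInstanceAs (Countable (ℤ × ℤ)), ?_⟩
    rintro (h | h)
    · have : Finite (ℤ × ℤ) := h
      exact not_finite (ℤ × ℤ)
    · apply not_almostCyclic_Z2
      refine ⟨⊤, ?_, inferInstance⟩
      exact isCyclic_of_injective (⊤ : Subgroup Z2).subtype (Subgroup.subtype_injective _)

end Pool.Agent.SHA
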