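import Pool.Agent.SHA.Defs

set_option autoImplicit false

/-!
Every countable group is a section of the free group of rank two, and the free group of rank two
embeds in the automorphism group of the free abelian group of rank two.
-/

namespace Pool.Agent.SHA

section Countable

variable (C : Type) [Group C]

/-- the shift action of the integers on sequences -/
def shiftAut : Multiplicative ℤ →* MulAut (ℤ → C) where
  toFun m :=
    { toFun := fun f n => f (n + m.toAdd)
      invFun := fun f n => f (n - m.toAdd)
      left_inv := fun f => by funext n; simp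
      right_inv := fun f => by funext n; simp
      map_mul' := fun f g => rfl }
  map_one' := by ext f n; simp
  map_mul' a b := by
    ext f n
    simp only [toAdd_mul, MulEquiv.coe_mk, Equiv.coe_fn_mk, MulAut.mul_apply]
    congr 1; ring

/-- the wreath product -/
abbrev WW : Type := (ℤ → C) ⋊[shiftAut C] Multiplicative ℤ

variable {C}

/-- the representation of the free group on the wreath product -/
def rep (e : ℤ → C) : FreeGroup (Fin 2) →* WW C :=
  FreeGroup.lift ![SemidirectProduct.inr (Multiplicative.ofAdd 1), SemidirectProduct.inl e]

/-- the kernel of the projection to the integers -/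
def kerRep (e : ℤ → C) : Subgroup (FreeGroup (Fin 2)) :=
  (SemidirectProduct.rightHom.comp (rep e)).ker

/-- evaluation at the origin -/
def evRep (e : ℤ → C) : kerRep e →* C where
  toFun w := (rep e w).left 0
  map_one' := by simp
  map_mul' a b := by
    have ha : (rep e a.1).right = 1 := a.2
    simp [ha]

lemma evRep_surjective (e : ℤ → C) (he : Function.Surjective e) :
    Function.Surjective (evRep e) := by
  intro c
  obtain ⟨n, rfl⟩ := he c
  let x : FreeGroup (Fin 2) := FreeGroup.of 0
  let y : FreeGroup (Fin 2) := FreeGroup.of 1
  have hx : rep e x = SemidirectProduct.inr (Multiplicative.ofAdd 1) := by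
    simp [rep, x]
  have hy : rep e y = SemidirectProduct.inl e := by
    simp [rep, y]
  have hw : rep e (x ^ n * y * (x ^ n)⁻¹) =
      SemidirectProduct.inl (shiftAut C (Multiplicative.ofAdd n) e) := by
    rw [SemidirectProduct.inl_aut]
    simp only [map_mul, map_inv, map_zpow, hx, hy]
    have : (Multiplicative.ofAdd (1 : ℤ)) ^ n = Multiplicative.ofAdd n := by
      rw [← ofAdd_zsmul]; simp
    rw [← map_zpow, this]
  refine ⟨⟨x ^ n * y * (x ^ n)⁻¹, ?_⟩, ?_⟩
  · show (rep e _).right = 1
    rw [hw]; simp
  · show (rep e _).left 0 = e n
    rw [hw, SemidirectProduct.left_inl]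
    simp [shiftAut]

end Countable

/-- a class closed under subgroups and images that contains the free group of rank two contains all
countable groups -/
theorem countable_of_free {K : (G : Type) → [Group G] → Prop} (hK : SHAClosed K)
    (hF : K (FreeGroup (Fin 2))) (C : Type) [Group C] [Countable C] : K C := by
  obtain ⟨e, he⟩ := exists_surjective_nat C
  have he' : Function.Surjective (fun n : ℤ => e n.toNat) := by
    intro c
    obtain ⟨n, rfl⟩ := he c
    exact ⟨n, by simp⟩
  refine hK.quo _ _ (evRep fun n : ℤ => e n.toNat) (evRep_surjective _ he') ?_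
  exact hK.sub _ _ (kerRep fun n : ℤ => e n.toNat).subtype (Subgroup.subtype_injective _) hF

/-! ### the free group in the automorphisms of the free abelian group of rank two -/

/-- the free abelian group of rank two -/
abbrev Z2 : Type := Multiplicative (ℤ × ℤ)

/-- upper unitriangular matrices -/
def upp : Multiplicative ℤ →* MulAut Z2 where
  toFun n :=
    { toFun := fun p => Multiplicative.ofAdd
        (p.toAdd.1 + 2 * n.toAdd * p.toAdd.2, p.toAdd.2)
      invFun := fun p => Multiplicative.ofAdd
        (p.toAdd.1 - 2 * n.toAdd * p.toAdd.2, p.toAdd.2)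
      left_inv := fun p => by
        apply Multiplicative.toAdd.injective; ext <;> simp
      right_inv := fun p => by
        apply Multiplicative.toAdd.injective; ext <;> simp
      map_mul' := fun p q => by
        apply Multiplicative.toAdd.injective
        ext
        · simp; ring
        · simp }
  map_one' := by
    refine MulEquiv.ext fun p => ?_
    apply Multiplicative.toAdd.injective
    ext <;> simp
  map_mul' a b := by
    refine MulEquiv.ext fun p => ?_
    apply Multiplicative.toAdd.injective
    ext
    · simp; ring
    · simp

/-- lower unitriangular matrices -/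
def low : Multiplicative ℤ →* MulAut Z2 where
  toFun n :=
    { toFun := fun p => Multiplicative.ofAdd
        (p.toAdd.1, p.toAdd.2 + 2 * n.toAdd * p.toAdd.1)
      invFun := fun p => Multiplicative.ofAdd
        (p.toAdd.1, p.toAdd.2 - 2 * n.toAdd * p.toAdd.1)
      left_inv := fun p => by
        apply Multiplicative.toAdd.injective; ext <;> simp
      right_inv := fun p => by
        apply Multiplicative.toAdd.injective; ext <;> simp
      map_mul' := fun p q => by
        apply Multiplicative.toAdd.injective
        ext
        · simp
        · simp; ring }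
  map_one' := by
    refine MulEquiv.ext fun p => ?_
    apply Multiplicative.toAdd.injective
    ext <;> simp
  map_mul' a b := by
    refine MulEquiv.ext fun p => ?_
    apply Multiplicative.toAdd.injective
    ext
    · simp
    · simp; ring

/-- the free group of rank one maps injectively to the integers -/
def unitHom : FreeGroup Unit →* Multiplicative ℤ :=
  FreeGroup.lift fun _ => Multiplicative.ofAdd 1

lemma unitHom_ne (h : FreeGroup Unit) (hh : h ≠ 1) : (unitHom h).toAdd ≠ 0 := by
  have h1 : (FreeGroup.of () : FreeGroup Unit) ^ (FreeGroup.freeGroupUnitEquivInt h) = h :=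
    FreeGroup.freeGroupUnitEquivInt.symm_apply_apply h
  intro h0
  apply hh
  rw [← h1] at h0 ⊢
  simp only [unitHom, map_zpow, FreeGroup.lift_apply_of, toAdd_zpow, toAdd_ofAdd, smul_eq_mul,
    mul_one] at h0
  rw [h0, zpow_zero]

/-- the two unipotent subgroups -/
def fam : Fin 2 → (FreeGroup Unit →* MulAut Z2) :=
  ![upp.comp unitHom, low.comp unitHom]

/-- the ping-pong sets -/
def pset : Fin 2 → Set Z2 :=
  ![{p | |p.toAdd.2| < |p.toAdd.1|}, {p | |p.toAdd.1| < |p.toAdd.2|}]

lemma abs_aux (x y n : ℤ) (hn : n ≠ 0) (h : |x| < |y|) : |y| < |x + 2 * n * y| := by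
  have h1 : 1 ≤ |n| := Int.one_le_abs hn
  have h2 : |2 * n * y| = 2 * |n| * |y| := by
    rw [abs_mul, abs_mul]; simp
  have h3 : 2 * |y| ≤ 2 * |n| * |y| := by
    have : 0 ≤ |y| := abs_nonneg y
    nlinarith
  have h4 : |2 * n * y| - |x| ≤ |x + 2 * n * y| := by
    have := abs_sub_abs_le_abs_sub (2 * n * y) (-x)
    rw [abs_neg] at this
    calc |2 * n * y| - |x| ≤ |2 * n * y - -x| := this
      _ = |x + 2 * n * y| := by congr 1; ring
  linarith

lemma fam_injective : Function.Injective (Monoid.CoprodI.lift fam) := by
  apply Monoid.CoprodI.lift_injective_of_ping_pong fam ?_ pset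
  · intro i
    fin_cases i
    · exact ⟨Multiplicative.ofAdd (1, 0), by simp [pset]⟩
    · exact ⟨Multiplicative.ofAdd (0, 1), by simp [pset]⟩
  · intro i j hij
    rw [Function.onFun, Set.disjoint_left]
    intro p hp hq
    fin_cases i <;> fin_cases j
    · exact hij rfl
    · have hp' : |p.toAdd.2| < |p.toAdd.1| := hp
      have hq' : |p.toAdd.1| < |p.toAdd.2| := hq
      exact absurd (lt_trans hp' hq') (lt_irrefl _)
    · have hp' : |p.toAdd.1| < |p.toAdd.2| := hp
      have hq' : |p.toAdd.2| < |p.toAdd.1| := hq
      exact absurd (lt_trans hp' hq') (lt_irrefl _)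
    · exact hij rfl
  · intro i j hij h hh
    have hn := unitHom_ne h hh
    rintro _ ⟨p, hp, rfl⟩
    fin_cases i <;> fin_cases j
    · exact absurd rfl hij
    · exact abs_aux p.toAdd.1 p.toAdd.2 _ hn hp
    · exact abs_aux p.toAdd.2 p.toAdd.1 _ hn hp
    · exact absurd rfl hij
  · right
    refine ⟨0, ?_⟩
    have : Infinite (FreeGroup Unit) := FreeGroup.freeGroupUnitEquivInt.infinite_iff.mpr inferInstance
    exact (Cardinal.natCast_lt_aleph0 (n := 3)).le.trans (Cardinal.aleph0_le_mk _)

/-- the free group of rank two embeds in the automorphism group -/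
theorem exists_free_in_aut : ∃ f : FreeGroup (Fin 2) →* MulAut Z2, Function.Injective f :=
  ⟨(Monoid.CoprodI.lift fam).comp (@freeGroupEquivCoprodI (Fin 2)).toMonoidHom,
    fam_injective.comp (MulEquiv.injective _)⟩

/-- a class closed under subgroups, images and automorphism groups that contains the free abelian
group of rank two contains all countable groups -/
theorem countable_of_Z2 {K : (G : Type) → [Group G] → Prop} (hK : SHAClosed K)
    (hZ : K Z2) (C : Type) [Group C] [Countable C] : K C := by
  obtain ⟨f, hf⟩ := exists_free_in_aut
  exact countable_of_free hK (hK.sub _ _ f hf (hK.aut _ hZ)) C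

end Pool.Agent.SHA
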