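import Pool.Agent.SHA.AC

set_option autoImplicit false

/-!
Groups in the class that have an ascending normal series with finite or abelian factors are almost
cyclic.
-/

namespace Pool.Agent.SHA

open scoped Pointwise

/-- every nontrivial image has a nontrivial normal subgroup that is finite or abelian -/
def HAF (G : Type) [Group G] : Prop :=
  ∀ (Q : Type) [Group Q] (f : G →* Q), Function.Surjective f → Nontrivial Q →
    ∃ M : Subgroup Q, M.Normal ∧ M ≠ ⊥ ∧ (Finite M ∨ ∀ a ∈ M, ∀ b ∈ M, a * b = b * a)

lemma HAF.quo {G Q : Type} [Group G] [Group Q] (h : HAF G) (f : G →* Q)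
    (hf : Function.Surjective f) : HAF Q := fun R _ g hg hR =>
  h R (g.comp f) (hg.comp hf) hR

/-- the subgroup of the elements with finite normal closure -/
def FR (G : Type) [Group G] : Subgroup G where
  carrier := {x | (Subgroup.normalClosure {x} : Set G).Finite}
  one_mem' := by
    have : Subgroup.normalClosure {(1 : G)} = ⊥ := by
      rw [eq_bot_iff]
      exact Subgroup.normalClosure_le_normal (by simp)
    show (Subgroup.normalClosure {(1 : G)} : Set G).Finite
    rw [this]
    simp
  mul_mem' := by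
    intro x y hx hy
    have h1 : Subgroup.normalClosure {x * y} ≤
        Subgroup.normalClosure {x} ⊔ Subgroup.normalClosure {y} := by
      apply Subgroup.normalClosure_le_normal
      rintro _ rfl
      exact Subgroup.mul_mem_sup (Subgroup.subset_normalClosure rfl)
        (Subgroup.subset_normalClosure rfl)
    have h2 : ((Subgroup.normalClosure {x} ⊔ Subgroup.normalClosure {y} : Subgroup G) :
        Set G).Finite := by
      rw [Subgroup.mul_normal]
      exact Set.Finite.mul hx hy
    exact h2.subset h1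
  inv_mem' := by
    intro x hx
    have h1 : Subgroup.normalClosure {x⁻¹} ≤ Subgroup.normalClosure {x} := by
      apply Subgroup.normalClosure_le_normal
      rintro _ rfl
      exact Subgroup.inv_mem _ (Subgroup.subset_normalClosure rfl)
    exact Set.Finite.subset hx h1

instance FR_normal (G : Type) [Group G] : (FR G).Normal where
  conj_mem := by
    intro x hx g
    have h1 : Subgroup.normalClosure {g * x * g⁻¹} ≤ Subgroup.normalClosure {x} := by
      apply Subgroup.normalClosure_le_normal
      rintro _ rfl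
      exact (Subgroup.normalClosure_normal (s := {x})).conj_mem x
        (Subgroup.subset_normalClosure (Set.mem_singleton x)) g
    exact Set.Finite.subset hx h1

lemma le_FR {G : Type} [Group G] (N : Subgroup G) [N.Normal] (hN : Finite N) : N ≤ FR G := by
  intro x hx
  have h1 : Subgroup.normalClosure {x} ≤ N :=
    Subgroup.normalClosure_le_normal (by rintro _ rfl; exact hx)
  exact Set.Finite.subset (s := (N : Set G)) hN h1

lemma centralizer_fi {G : Type} [Group G] (x : G) (hx : x ∈ FR G) :
    (Subgroup.centralizer {x}).FiniteIndex := by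
  classical
  have hx' : (Subgroup.normalClosure {x} : Set G).Finite := hx
  let T : Set G := {t | ∃ g : G, g * x * g⁻¹ = t}
  have hT : T.Finite := by
    apply hx'.subset
    rintro _ ⟨g, rfl⟩
    exact (Subgroup.normalClosure_normal (s := {x})).conj_mem x
        (Subgroup.subset_normalClosure (Set.mem_singleton x)) g
  let s : G → G := fun t => if h : ∃ g : G, g * x * g⁻¹ = t then h.choose else 1
  have hs : ∀ g : G, s (g * x * g⁻¹) * x * (s (g * x * g⁻¹))⁻¹ = g * x * g⁻¹ := by
    intro g
    have h : ∃ g' : G, g' * x * g'⁻¹ = g * x * g⁻¹ := ⟨g, rfl⟩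
    have : s (g * x * g⁻¹) = h.choose := dif_pos h
    rw [this]
    exact h.choose_spec
  refine fi_of_cover ⊤ _ inferInstance (s '' T) (hT.image s) ?_
  intro p _
  refine ⟨_, ⟨p * x * p⁻¹, ⟨p, rfl⟩, rfl⟩, ?_⟩
  rw [Subgroup.mem_centralizer_iff]
  intro y hy
  have hy' : y = x := hy
  rw [hy']
  have h1 := hs p
  generalize s (p * x * p⁻¹) = g at *
  have h2 : x = g⁻¹ * (p * x * p⁻¹) * g := by
    rw [← h1]; group
  calc x * (g⁻¹ * p) = g⁻¹ * (p * x * p⁻¹) * g * (g⁻¹ * p) := by rw [← h2]
    _ = g⁻¹ * p * x := by group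

section

variable {K : (G : Type) → [Group G] → Prop} (hK : SHAb K)
include hK

/-- torsion abelian groups in the class are finite -/
lemma SHAb.finite_ab {A : Type} [Group A] (hKA : K A) (hab : ∀ a b : A, a * b = b * a)
    (ht : Tors A) : Finite A :=
  (hK.ab A hab hKA).finite_of_tors ht

lemma SHAb.finite_FR {G : Type} [Group G] (hKG : K G) : Finite (FR G) := by
  by_contra hinf
  rw [not_finite_iff_infinite] at hinf
  obtain ⟨A, hA, hmax⟩ := exists_maxAb (FR G)
  have htors : Tors (FR G) := by
    intro x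
    have hx : (Subgroup.normalClosure {x.1} : Set G).Finite := x.2
    have h1 : Finite (Subgroup.normalClosure {x.1}) := hx
    have h2 := isOfFinOrder_of_finite (⟨x.1, Subgroup.subset_normalClosure rfl⟩ :
      Subgroup.normalClosure {x.1})
    obtain ⟨n, hn, hxn⟩ := isOfFinOrder_iff_pow_eq_one.mp h2
    refine ⟨n, by omega, Subtype.ext ?_⟩
    have := congrArg Subtype.val hxn
    simpa using this
  have hAfin : Finite A := by
    refine hK.finite_ab (hK.sub' (hK.sub' hKG _) A) (fun a b => Subtype.ext ?_) (htors.sub A)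
    exact hA _ a.2 _ b.2
  have hC : (⨅ a : A, ((Subgroup.centralizer {(a.1 : G)}).subgroupOf (FR G))).FiniteIndex := by
    apply Subgroup.finiteIndex_iInf
    intro a
    have := centralizer_fi (a.1 : G) a.1.2
    infer_instance
  have hle : (⨅ a : A, ((Subgroup.centralizer {(a.1 : G)}).subgroupOf (FR G))) ≤ A := by
    intro y hy
    apply hmax
    intro a ha
    rw [Subgroup.mem_iInf] at hy
    have h1 := hy ⟨a, ha⟩
    rw [Subgroup.mem_subgroupOf, Subgroup.mem_centralizer_iff] at h1
    exact Subtype.ext (h1 _ rfl)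
  have hAfi : A.FiniteIndex := Subgroup.finiteIndex_of_le hle
  have := finite_of_index A hAfin hAfi
  exact not_finite (FR G)

/-- torsion-free abelian groups in the class are cyclic -/
lemma SHAb.cyclic_ab {A : Type} [Group A] (hKA : K A) (hab : ∀ a b : A, a * b = b * a)
    (ht : ∀ a : A, ∀ n : ℕ, n ≠ 0 → a ^ n = 1 → a = 1) : IsCyclic A := by
  obtain ⟨C, hC, hfi⟩ := hK.ab A hab hKA
  let _ : CommGroup A := { (inferInstance : Group A) with mul_comm := hab }
  let f : A →* C :=
    { toFun := fun a => ⟨a ^ C.index, Subgroup.pow_index_mem C a⟩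
      map_one' := Subtype.ext (one_pow _)
      map_mul' := fun a b => Subtype.ext (mul_pow a b _) }
  refine isCyclic_of_injective f ?_
  rw [injective_iff_map_eq_one]
  intro a ha
  exact ht a C.index hfi.index_ne_zero (congrArg Subtype.val ha)

/-- the first two steps in an infinite group -/
lemma SHAb.exists_step {G : Type} [Group G] (hKG : K G) (hG : HAF G) (hinf : Infinite G) :
    ∃ (M : Subgroup (G ⧸ FR G)) (g : G ⧸ FR G), M.Normal ∧ M = Subgroup.zpowers g ∧
      ∀ n : ℕ, n ≠ 0 → g ^ n ≠ 1 := by
  have hF := hK.finite_FR hKG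
  have hQinf : Infinite (G ⧸ FR G) := infinite_quotient G (FR G) hF
  have hKQ : K (G ⧸ FR G) := hK.quo' hKG _
  -- finite normal subgroups of the quotient are trivial
  have hfin : ∀ M : Subgroup (G ⧸ FR G), M.Normal → Finite M → M = ⊥ := by
    intro M hM hMfin
    have h1 : Finite (M.comap (QuotientGroup.mk' (FR G))) := by
      have h2 : (M.comap (QuotientGroup.mk' (FR G)) : Set G).Finite := by
        have h3 : (M.comap (QuotientGroup.mk' (FR G)) : Set G) =
            (QuotientGroup.mk' (FR G)) ⁻¹' (M : Set (G ⧸ FR G)) := rfl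
        rw [h3]
        apply Set.Finite.preimage' (Set.toFinite _)
        intro y _
        obtain ⟨x0, rfl⟩ := QuotientGroup.mk'_surjective (FR G) y
        have hFf : (FR G : Set G).Finite := hF
        apply (hFf.image fun f => x0 * f).subset
        intro x hx
        have hx' : QuotientGroup.mk' (FR G) x = QuotientGroup.mk' (FR G) x0 := hx
        refine ⟨x0⁻¹ * x, ?_, by simp⟩
        exact QuotientGroup.eq.mp hx'.symm
      exact h2
    have h4 := le_FR _ h1
    rw [eq_bot_iff]
    intro y hy
    obtain ⟨x, rfl⟩ := QuotientGroup.mk'_surjective (FR G) y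
    exact (QuotientGroup.eq_one_iff x).mpr (h4 hy)
  obtain ⟨M, hM, hne, hMM⟩ := hG (G ⧸ FR G) (QuotientGroup.mk' _)
    (QuotientGroup.mk'_surjective _) inferInstance
  have hMab : ∀ a ∈ M, ∀ b ∈ M, a * b = b * a := by
    rcases hMM with h | h
    · exact absurd (hfin M hM h) hne
    · exact h
  -- the torsion elements of M
  have htf : ∀ a ∈ M, ∀ n : ℕ, n ≠ 0 → a ^ n = 1 → a = 1 := by
    let T : Subgroup (G ⧸ FR G) :=
      { carrier := {a | a ∈ M ∧ ∃ n : ℕ, n ≠ 0 ∧ a ^ n = 1}
        one_mem' := ⟨M.one_mem, 1, one_ne_zero, one_pow _⟩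
        mul_mem' := by
          rintro a b ⟨ha, n, hn, han⟩ ⟨hb, m, hm, hbm⟩
          refine ⟨M.mul_mem ha hb, n * m, mul_ne_zero hn hm, ?_⟩
          have hc : Commute a b := hMab a ha b hb
          rw [hc.mul_pow, pow_mul, han, one_pow, one_mul, mul_comm n, pow_mul, hbm, one_pow]
        inv_mem' := by
          rintro a ⟨ha, n, hn, han⟩
          exact ⟨M.inv_mem ha, n, hn, by rw [inv_pow, han, inv_one]⟩ }
    have hT : T.Normal := by
      constructor
      rintro a ⟨ha, n, hn, han⟩ g
      exact ⟨hM.conj_mem a ha g, n, hn, by rw [conj_pow, han]; simp⟩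
    have hTfin : Finite T := by
      refine hK.finite_ab (hK.sub' hKQ T) ?_ ?_
      · intro a b
        exact Subtype.ext (hMab _ a.2.1 _ b.2.1)
      · intro a
        obtain ⟨-, n, hn, han⟩ := a.2
        exact ⟨n, hn, Subtype.ext (by simpa using han)⟩
    have hTbot := hfin T hT hTfin
    intro a ha n hn han
    have : a ∈ T := ⟨ha, n, hn, han⟩
    rw [hTbot] at this
    exact this
  have hcyc : IsCyclic M := by
    refine hK.cyclic_ab (hK.sub' hKQ M) (fun a b => Subtype.ext (hMab _ a.2 _ b.2)) ?_
    intro a n hn han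
    apply Subtype.ext
    exact htf a.1 a.2 n hn (by simpa using congrArg Subtype.val han)
  obtain ⟨g, hg⟩ := hcyc.exists_generator
  have hMg : M = Subgroup.zpowers (g : G ⧸ FR G) := by
    apply le_antisymm
    · intro x hx
      obtain ⟨n, hn⟩ := Subgroup.mem_zpowers_iff.mp (hg ⟨x, hx⟩)
      exact Subgroup.mem_zpowers_iff.mpr ⟨n, by simpa using congrArg Subtype.val hn⟩
    · rw [Subgroup.zpowers_le]; exact g.2
  refine ⟨M, g, hM, hMg, ?_⟩
  intro n hn hgn
  have h1 := htf g g.2 n hn hgn
  apply hne
  rw [hMg, h1, Subgroup.zpowers_one_eq_bot]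

/-- the main step: groups with an ascending normal series with finite or abelian factors are almost
cyclic -/
theorem SHAb.almostCyclic_of_HAF {G : Type} [Group G] (hKG : K G) (hG : HAF G) :
    AlmostCyclic G := by
  rcases finite_or_infinite G with hfin | hinf
  · exact AlmostCyclic.of_finite G
  have hF := hK.finite_FR hKG
  obtain ⟨M, a, hM, hMa, ha⟩ := hK.exists_step hKG hG hinf
  have hKQ : K (G ⧸ FR G) := hK.quo' hKG _
  have haz : ∀ i : ℤ, a ^ i = 1 → i = 0 := by
    intro i hi
    by_contra h
    apply ha i.natAbs (by omega)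
    rcases Int.natAbs_eq i with h1 | h1
    · rw [h1, zpow_natCast] at hi; exact hi
    · rw [h1, zpow_neg, zpow_natCast, inv_eq_one] at hi; exact hi
  have hfin : Finite ((G ⧸ FR G) ⧸ M) := by
    by_contra hinf2
    rw [not_finite_iff_infinite] at hinf2
    have hKR : K ((G ⧸ FR G) ⧸ M) := hK.quo' hKQ M
    have hHR : HAF ((G ⧸ FR G) ⧸ M) := by
      refine HAF.quo hG ((QuotientGroup.mk' M).comp (QuotientGroup.mk' (FR G))) ?_
      exact (QuotientGroup.mk'_surjective M).comp (QuotientGroup.mk'_surjective (FR G))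
    obtain ⟨M', b', -, -, hb'⟩ := hK.exists_step hKR hHR hinf2
    obtain ⟨b1, hb1⟩ := QuotientGroup.mk_surjective b'
    obtain ⟨b, hb⟩ := QuotientGroup.mk_surjective b1
    -- no positive power of b lies in M
    have hbM : ∀ n : ℕ, n ≠ 0 → b ^ n ∉ M := by
      intro n hn h
      apply hb' n hn
      rw [← hb1, ← hb, ← QuotientGroup.mk_pow, ← QuotientGroup.mk_pow]
      rw [(QuotientGroup.eq_one_iff _).mpr h]
      rfl
    have hbM' : ∀ i : ℤ, b ^ i ∈ M → i = 0 := by
      intro i hi
      by_contra h
      apply hbM i.natAbs (by omega)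
      rcases Int.natAbs_eq i with h1 | h1
      · rw [h1, zpow_natCast] at hi; exact hi
      · rw [h1, zpow_neg, zpow_natCast] at hi; exact (Subgroup.inv_mem_iff _).mp hi
    have haM : a ∈ M := by rw [hMa]; exact Subgroup.mem_zpowers a
    -- b * b commutes with a
    obtain ⟨s, hs⟩ : ∃ s : ℤ, b * a * b⁻¹ = a ^ s := by
      have h1 := hM.conj_mem a haM b
      rw [hMa] at h1
      obtain ⟨s, hs⟩ := Subgroup.mem_zpowers_iff.mp h1
      exact ⟨s, hs.symm⟩
    obtain ⟨t, ht⟩ : ∃ t : ℤ, b⁻¹ * a * b = a ^ t := by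
      have h1 := hM.conj_mem a haM b⁻¹
      rw [hMa] at h1
      obtain ⟨s, hs⟩ := Subgroup.mem_zpowers_iff.mp h1
      exact ⟨s, by rw [hs]; simp⟩
    have hst : s * t = 1 := by
      have h1 : a ^ (s * t) = a := by
        rw [zpow_mul, ← hs]
        have h2 : (b * a * b⁻¹) ^ t = b * a ^ t * b⁻¹ := conj_zpow
        rw [h2, ← ht]; group
      have h2 : a ^ (s * t - 1) = 1 := by
        rw [zpow_sub, h1]; simp
      have := haz _ h2
      omega
    have hs2 : s * s = 1 := by
      rcases Int.eq_one_or_neg_one_of_mul_eq_one hst with h | h <;> rw [h] <;> norm_num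
    have hcomm : Commute a (b * b) := by
      have h1 : b * b * a * (b * b)⁻¹ = a := by
        calc b * b * a * (b * b)⁻¹ = b * (b * a * b⁻¹) * b⁻¹ := by group
          _ = b * a ^ s * b⁻¹ := by rw [hs]
          _ = (b * a * b⁻¹) ^ s := conj_zpow.symm
          _ = a ^ (s * s) := by rw [hs, ← zpow_mul]
          _ = a := by rw [hs2, zpow_one]
      have h2 : b * b * a = a * (b * b) := by
        calc b * b * a = (b * b * a * (b * b)⁻¹) * (b * b) := by group
          _ = a * (b * b) := by rw [h1]
      exact h2.symm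
    refine hK.no_commuting hKQ a (b * b) hcomm ?_
    intro i j hij
    have h1 : b ^ (2 * j) ∈ M := by
      have h2 : (b * b) ^ j = b ^ (2 * j) := by
        rw [zpow_mul]; congr 1
        rw [zpow_ofNat, pow_two]
      rw [← h2, ← inv_eq_of_mul_eq_one_right hij]
      exact M.inv_mem (M.zpow_mem haM i)
    have hj := hbM' _ h1
    have hj0 : j = 0 := by omega
    rw [hj0, zpow_zero, mul_one] at hij
    exact ⟨haz i hij, hj0⟩
  apply AlmostCyclic.of_quotient (FR G) hF
  have hMfi : M.FiniteIndex := Subgroup.finiteIndex_of_finite_quotient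
  refine ⟨Subgroup.zpowers a, inferInstance, ?_⟩
  rw [← hMa]
  exact hMfi

end

end Pool.Agent.SHA
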