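import Pool.Agent.SHA.Hyper
import Pool.Agent.SHA.FPF

set_option autoImplicit false

/-!
Locally soluble torsion groups in the class are finite, first steps: soluble groups, locally
nilpotent torsion groups, chief factors of locally soluble groups.
-/

namespace Pool.Agent.SHA

open scoped commutatorElement

/-- every finitely generated subgroup is nilpotent -/
def LocallyNilpotent (G : Type) [Group G] : Prop :=
  ∀ H : Subgroup G, H.FG → Group.IsNilpotent H

section closure

variable {G H : Type} [Group G] [Group H]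

lemma fg_map_injective (f : H →* G) (hf : Function.Injective f) (L : Subgroup H) (hL : L.FG) :
    (L.map f).FG ∧ ∃ φ : L →* L.map f, Function.Injective φ := by
  classical
  refine ⟨?_, (L.equivMapOfInjective f hf).toMonoidHom, (L.equivMapOfInjective f hf).injective⟩
  obtain ⟨S, hS⟩ := hL
  exact ⟨S.image f, by rw [← hS, MonoidHom.map_closure]; simp⟩

lemma fg_lift (f : G →* H) (hf : Function.Surjective f) (L : Subgroup H) (hL : L.FG) :
    ∃ L' : Subgroup G, L'.FG ∧ L'.map f = L := by
  classical
  obtain ⟨S, hS⟩ := hL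
  choose g hg using hf
  refine ⟨Subgroup.closure (S.image g : Finset G), ⟨S.image g, rfl⟩, ?_⟩
  rw [MonoidHom.map_closure, ← hS]
  congr 1
  ext x
  simp only [Finset.coe_image, Set.mem_image, exists_exists_and_eq_and, Finset.mem_coe]
  constructor
  · rintro ⟨a, ha, rfl⟩; rw [hg]; exact ha
  · intro hx; exact ⟨x, hx, hg x⟩

lemma map_surj (f : G →* H) (L' : Subgroup G) (L : Subgroup H) (h : L'.map f = L) :
    ∃ φ : L' →* L, Function.Surjective φ := by
  subst h
  exact ⟨f.subgroupMap L', f.subgroupMap_surjective L'⟩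

lemma LocallySoluble.of_injective (h : LocallySoluble G) (f : H →* G)
    (hf : Function.Injective f) : LocallySoluble H := by
  intro L hL
  obtain ⟨h1, φ, hφ⟩ := fg_map_injective f hf L hL
  have := h _ h1
  exact Group.isSolvable_of_isSolvable_injective hφ

lemma LocallySoluble.of_surjective (h : LocallySoluble G) (f : G →* H)
    (hf : Function.Surjective f) : LocallySoluble H := by
  intro L hL
  obtain ⟨L', h1, h2⟩ := fg_lift f hf L hL
  obtain ⟨φ, hφ⟩ := map_surj f L' L h2
  have := h _ h1
  exact Group.isSolvable_of_surjective hφ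

lemma LocallyNilpotent.of_surjective (h : LocallyNilpotent G) (f : G →* H)
    (hf : Function.Surjective f) : LocallyNilpotent H := by
  intro L hL
  obtain ⟨L', h1, h2⟩ := fg_lift f hf L hL
  obtain ⟨φ, hφ⟩ := map_surj f L' L h2
  have := h _ h1
  exact Group.nilpotent_of_surjective φ hφ

end closure

/-- a nontrivial normal soluble subgroup contains a nontrivial normal abelian subgroup -/
lemma exists_normal_abelian {Q : Type} [Group Q] (N : Subgroup Q) (hN : N.Normal) (hne : N ≠ ⊥)
    (h : Group.IsSolvable N) :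
    ∃ M : Subgroup Q, M.Normal ∧ M ≠ ⊥ ∧ ∀ a ∈ M, ∀ b ∈ M, a * b = b * a := by
  have : Nontrivial N := (Subgroup.nontrivial_iff_ne_bot N).mpr hne
  obtain ⟨D, hD, hDne, hDab⟩ := exists_char_abelian N h
  refine ⟨D.map N.subtype, inferInstance, ?_, ?_⟩
  · intro h1
    apply hDne
    rw [eq_bot_iff]
    intro x hx
    have h2 : (x : Q) ∈ D.map N.subtype := Subgroup.mem_map_of_mem _ hx
    rw [h1, Subgroup.mem_bot] at h2
    exact Subtype.ext h2
  · rintro _ ⟨a, ha, rfl⟩ _ ⟨b, hb, rfl⟩
    exact congrArg Subtype.val (hDab a ha b hb)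

lemma HAF_of_solvable {G : Type} [Group G] (h : Group.IsSolvable G) : HAF G := by
  intro Q _ f hf hQ
  have hQs : Group.IsSolvable Q := Group.isSolvable_of_surjective hf
  obtain ⟨D, hD, hDne, hDab⟩ := exists_char_abelian Q hQs
  exact ⟨D, inferInstance, hDne, Or.inr hDab⟩

section

variable {K : (G : Type) → [Group G] → Prop} (hK : SHAb K)
include hK

lemma SHAb.finite_solvable {G : Type} [Group G] (hKG : K G) (h : Group.IsSolvable G)
    (ht : Tors G) : Finite G :=
  (hK.almostCyclic_of_HAF hKG (HAF_of_solvable h)).finite_of_tors ht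

/-- a nontrivial locally nilpotent torsion group in the class has nontrivial centre -/
lemma SHAb.center_ne_bot {G : Type} [Group G] (hKG : K G) (h : LocallyNilpotent G)
    (ht : Tors G) (hnt : Nontrivial G) : Subgroup.center G ≠ ⊥ := by
  classical
  intro hbot
  obtain ⟨A, hA, hmax⟩ := exists_maxAb G
  have hAfin : Finite A :=
    hK.finite_ab (hK.sub' hKG A) (fun a b => Subtype.ext (hA _ a.2 _ b.2)) (ht.sub A)
  have hnc : ∀ x : G, ∃ y : G, x ≠ 1 → y * x ≠ x * y := by
    intro x
    by_cases hx : x = 1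
    · exact ⟨1, fun h => absurd hx h⟩
    · by_contra hcon
      push Not at hcon
      apply hx
      have h1 : x ∈ Subgroup.center G := by
        rw [Subgroup.mem_center_iff]
        exact fun g => (hcon g).2
      rw [hbot] at h1
      exact h1
  choose y hy using hnc
  have hAf : (A : Set G).Finite := hAfin
  let S : Set G := (A : Set G) ∪ y '' (A : Set G)
  have hS : S.Finite := hAf.union (hAf.image y)
  let F : Subgroup G := Subgroup.closure S
  have hF : F.FG := ⟨hS.toFinset, by simp [F]⟩
  have hAF : A ≤ F := fun a ha => Subgroup.subset_closure (Or.inl ha)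
  have hAne : ∃ a ∈ A, a ≠ 1 := by
    by_contra hcon
    push Not at hcon
    obtain ⟨x, hx⟩ := exists_ne (1 : G)
    apply hx
    apply hcon
    apply hmax
    intro a ha
    rw [hcon a ha]; simp
  obtain ⟨a0, ha0, ha0'⟩ := hAne
  have hFnt : Nontrivial F := ⟨⟨⟨a0, hAF ha0⟩, 1, fun h => ha0' (congrArg Subtype.val h)⟩⟩
  have hFnil := h F hF
  have hcen := Group.IsNilpotent.center_ne_bot (G := F)
  obtain ⟨z, hz1⟩ := (Subgroup.ne_bot_iff_exists_ne_one).mp hcen
  have hzc := Subgroup.mem_center_iff.mp z.2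
  have hz1' : ((z : F) : G) ≠ 1 := fun h => hz1 (Subtype.ext (Subtype.ext h))
  have hzA : ((z : F) : G) ∈ A := by
    apply hmax
    intro a ha
    exact congrArg Subtype.val (hzc ⟨a, hAF ha⟩)
  apply hy ((z : F) : G) hz1'
  have hyF : y ((z : F) : G) ∈ F := Subgroup.subset_closure (Or.inr ⟨_, hzA, rfl⟩)
  exact congrArg Subtype.val (hzc ⟨_, hyF⟩)

/-- locally nilpotent torsion groups in the class are finite -/
theorem SHAb.finite_locNilp {G : Type} [Group G] (hKG : K G) (h : LocallyNilpotent G)
    (ht : Tors G) : Finite G := by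
  apply AlmostCyclic.finite_of_tors _ ht
  apply hK.almostCyclic_of_HAF hKG
  intro Q _ f hf hQ
  refine ⟨Subgroup.center Q, inferInstance,
    hK.center_ne_bot (hK.quo _ _ f hf hKG) (h.of_surjective f hf) (ht.quo f hf) hQ, Or.inr ?_⟩
  intro a ha b hb
  exact (Subgroup.mem_center_iff.mp hb a)

end

/-! ### chief factors of locally soluble groups -/

section chief

variable {Q : Type} [Group Q]

/-- the subgroup generated by the conjugates of c under H -/
def conjSub (c : Q) (H : Subgroup Q) : Subgroup Q :=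
  Subgroup.closure {x | ∃ h ∈ H, x = h * c * h⁻¹}

lemma conjSub_mono (c : Q) {H H' : Subgroup Q} (h : H ≤ H') : conjSub c H ≤ conjSub c H' :=
  Subgroup.closure_mono (by rintro x ⟨k, hk, rfl⟩; exact ⟨k, h hk, rfl⟩)

lemma exists_fg_conjSub (c x : Q) (hx : x ∈ Subgroup.normalClosure {c}) :
    ∃ H : Subgroup Q, H.FG ∧ c ∈ H ∧ x ∈ conjSub c H := by
  classical
  have hfg : ∀ S : Finset Q, (Subgroup.closure (S : Set Q)).FG := fun S => ⟨S, rfl⟩
  unfold Subgroup.normalClosure at hx
  induction hx using Subgroup.closure_induction with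
  | mem x hx =>
    rw [Group.conjugatesOfSet, Set.mem_iUnion₂] at hx
    obtain ⟨a, ha, hax⟩ := hx
    have ha' : a = c := ha
    subst ha'
    obtain ⟨g, hg⟩ := isConj_iff.mp hax
    refine ⟨Subgroup.closure (({g, a} : Finset Q) : Set Q), hfg _,
      Subgroup.subset_closure (by simp), Subgroup.subset_closure ⟨g, ?_, hg.symm⟩⟩
    exact Subgroup.subset_closure (by simp)
  | one =>
    exact ⟨Subgroup.closure (({c} : Finset Q) : Set Q), hfg _,
      Subgroup.subset_closure (by simp), Subgroup.one_mem _⟩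
  | mul x y _ _ ihx ihy =>
    obtain ⟨H, hH, hcH, hxH⟩ := ihx
    obtain ⟨L, hL, hcL, hyL⟩ := ihy
    refine ⟨H ⊔ L, hH.sup hL, (le_sup_left : H ≤ H ⊔ L) hcH, ?_⟩
    exact Subgroup.mul_mem _ (conjSub_mono c le_sup_left hxH) (conjSub_mono c le_sup_right hyL)
  | inv x _ ih =>
    obtain ⟨H, hH, hcH, hxH⟩ := ih
    exact ⟨H, hH, hcH, Subgroup.inv_mem _ hxH⟩

/-- a minimal normal subgroup of a locally soluble group is abelian -/
theorem minimal_normal_abelian (hQ : LocallySoluble Q) (N : Subgroup Q) (hN : N.Normal)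
    (hmin : ∀ L : Subgroup Q, L.Normal → L ≤ N → L ≠ ⊥ → L = N) :
    ∀ a ∈ N, ∀ b ∈ N, a * b = b * a := by
  intro a ha b hb
  by_contra hab
  obtain ⟨c, hc⟩ : ∃ c, c = ⁅a, b⁆ := ⟨_, rfl⟩
  have hc1 : c ≠ 1 := by
    rw [hc]
    exact fun h => hab (commutatorElement_eq_one_iff_mul_comm.mp h)
  have hcN : c ∈ N := by
    rw [hc, commutatorElement_def]
    exact N.mul_mem (N.mul_mem (N.mul_mem ha hb) (N.inv_mem ha)) (N.inv_mem hb)
  have hNc : Subgroup.normalClosure {c} = N := by
    apply hmin _ Subgroup.normalClosure_normal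
    · apply Subgroup.normalClosure_le_normal
      intro x hx
      have : x = c := hx
      rw [this]; exact hcN
    · intro h
      apply hc1
      have : c ∈ Subgroup.normalClosure {c} := Subgroup.subset_normalClosure (Set.mem_singleton c)
      rw [h] at this
      exact this
  obtain ⟨H, hH, hcH, haH⟩ := exists_fg_conjSub c a (by rw [hNc]; exact ha)
  obtain ⟨L, hL, hcL, hbL⟩ := exists_fg_conjSub c b (by rw [hNc]; exact hb)
  obtain ⟨P, hP⟩ : ∃ P, P = H ⊔ L := ⟨_, rfl⟩
  have hPfg : P.FG := by rw [hP]; exact hH.sup hL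
  have hcP : c ∈ P := by rw [hP]; exact (le_sup_left : H ≤ H ⊔ L) hcH
  have haP : a ∈ conjSub c P := by rw [hP]; exact conjSub_mono c le_sup_left haH
  have hbP : b ∈ conjSub c P := by rw [hP]; exact conjSub_mono c le_sup_right hbL
  have hle : conjSub c P ≤ P := by
    rw [conjSub, Subgroup.closure_le]
    rintro _ ⟨h, hh, rfl⟩
    exact P.mul_mem (P.mul_mem hh hcP) (P.inv_mem hh)
  have hsol : Group.IsSolvable (conjSub c P) := by
    have := hQ P hPfg
    exact Group.isSolvable_of_isSolvable_injective (Subgroup.inclusion_injective hle)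
  have hperf : conjSub c P ≤ ⁅conjSub c P, conjSub c P⁆ := by
    conv_lhs => rw [conjSub]
    rw [Subgroup.closure_le]
    rintro _ ⟨h, hh, rfl⟩
    have h1 : h * c * h⁻¹ = ⁅h * a * h⁻¹, h * b * h⁻¹⁆ := by
      rw [hc, commutatorElement_def, commutatorElement_def]; group
    rw [h1]
    have hconj : ∀ x ∈ conjSub c P, h * x * h⁻¹ ∈ conjSub c P := by
      intro x hx
      have h2 : (conjSub c P).map (MulAut.conj h).toMonoidHom ≤ conjSub c P := by
        rw [conjSub, MonoidHom.map_closure, Subgroup.closure_le]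
        rintro _ ⟨_, ⟨k, hk, rfl⟩, rfl⟩
        apply Subgroup.subset_closure
        refine ⟨h * k, P.mul_mem hh hk, ?_⟩
        show h * (k * c * k⁻¹) * h⁻¹ = _
        group
      exact h2 ⟨x, hx, rfl⟩
    exact Subgroup.commutator_mem_commutator (hconj a haP) (hconj b hbP)
  have hnt : Nontrivial (conjSub c P) := by
    refine ⟨⟨⟨c, Subgroup.subset_closure ⟨1, P.one_mem, by simp⟩⟩, 1, fun h => ?_⟩⟩
    exact hc1 (congrArg Subtype.val h)
  have hlt := Group.IsSolvable.commutator_lt_top_of_nontrivial (conjSub c P)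
  apply hlt.ne
  rw [eq_top_iff]
  intro x _
  have h1 := hperf x.2
  have h2 : ⁅conjSub c P, conjSub c P⁆ =
      (commutator (conjSub c P)).map (conjSub c P).subtype := by
    rw [commutator, Subgroup.map_commutator, ← MonoidHom.range_eq_map, Subgroup.range_subtype]
  rw [h2] at h1
  obtain ⟨y, hy, hyx⟩ := h1
  have : y = x := Subtype.ext hyx
  rw [← this]; exact hy

end chief

end Pool.Agent.SHA
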