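import Pool.Agent.SHA.LocNil

set_option autoImplicit false

/-!
Locally soluble torsion groups in the class are finite.
-/

namespace Pool.Agent.SHA

open scoped commutatorElement

/-- a finite group that is not nilpotent has a nontrivial normal subgroup N with N = [N, F] -/
lemma exists_perfect_step (F : Type) [Group F] [Finite F] (h : ¬ Group.IsNilpotent F) :
    ∃ N : Subgroup F, N ≠ ⊥ ∧ ⁅N, (⊤ : Subgroup F)⁆ = N := by
  obtain ⟨_, ⟨n, rfl⟩, hmin⟩ :=
    (wellFounded_lt : WellFounded ((· < ·) : Subgroup F → Subgroup F → Prop)).has_min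
      (Set.range fun n => (⊤ : Subgroup F).lowerCentralSeries n) ⟨_, ⟨0, rfl⟩⟩
  refine ⟨(⊤ : Subgroup F).lowerCentralSeries n, ?_, ?_⟩
  · intro hbot
    apply h
    exact Subgroup.nilpotent_iff_lowerCentralSeries.mpr ⟨n, hbot⟩
  · have h1 : (⊤ : Subgroup F).lowerCentralSeries (n + 1) ≤ (⊤ : Subgroup F).lowerCentralSeries n :=
      (⊤ : Subgroup F).lowerCentralSeries_antitone (Nat.le_succ n)
    have h2 := hmin _ ⟨n + 1, rfl⟩
    have h3 : (⊤ : Subgroup F).lowerCentralSeries (n + 1) = (⊤ : Subgroup F).lowerCentralSeries n :=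
      by_contra fun hne => h2 (lt_of_le_of_ne h1 hne)
    rw [Subgroup.lowerCentralSeries_succ] at h3
    exact h3

/-- a maximal normal subgroup that does not contain a given finite subgroup -/
lemma exists_maximal_avoiding {G : Type} [Group G] (N : Subgroup G) (hN : (N : Set G).Finite)
    (hne : N ≠ ⊥) : ∃ L : Subgroup G, L.Normal ∧ ¬ N ≤ L ∧
      ∀ L' : Subgroup G, L'.Normal → L ≤ L' → ¬ N ≤ L' → L' = L := by
  obtain ⟨L, -, hL⟩ := zorn_le_nonempty₀ {L : Subgroup G | L.Normal ∧ ¬ N ≤ L}
    (by
      intro c hc hchain L0 hL0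
      refine ⟨sSup c, ⟨?_, ?_⟩, fun L hL => le_sSup hL⟩
      · constructor
        intro x hx g
        rw [Subgroup.mem_sSup_of_directedOn ⟨L0, hL0⟩ hchain.directedOn] at hx ⊢
        obtain ⟨L, hL, hxL⟩ := hx
        exact ⟨L, hL, (hc hL).1.conj_mem x hxL g⟩
      · intro hle
        -- every element of N is in some member; the finite set N is in one member
        have key : ∀ s : Finset G, (∀ x ∈ s, x ∈ N) → ∃ L ∈ c, ∀ x ∈ s, x ∈ L := by
          classical
          intro s
          induction s using Finset.induction_on with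
          | empty => intro _; exact ⟨L0, hL0, by simp⟩
          | insert a s ha ih =>
            intro h
            obtain ⟨L, hL, hLs⟩ := ih fun x hx => h x (Finset.mem_insert_of_mem hx)
            have h1 := hle (h a (Finset.mem_insert_self a s))
            rw [Subgroup.mem_sSup_of_directedOn ⟨L0, hL0⟩ hchain.directedOn] at h1
            obtain ⟨L', hL', haL'⟩ := h1
            rcases hchain.total hL hL' with hh | hh
            · refine ⟨L', hL', fun x hx => ?_⟩
              rcases Finset.mem_insert.mp hx with rfl | hx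
              · exact haL'
              · exact hh (hLs x hx)
            · refine ⟨L, hL, fun x hx => ?_⟩
              rcases Finset.mem_insert.mp hx with rfl | hx
              · exact hh haL'
              · exact hLs x hx
        obtain ⟨L, hL, hLN⟩ := key hN.toFinset (fun x hx => by simpa using hx)
        exact (hc hL).2 fun x hx => hLN x (by simpa using hx))
    ⊥ ⟨inferInstance, fun h => hne (le_bot_iff.mp h)⟩
  refine ⟨L, hL.prop.1, hL.prop.2, ?_⟩
  intro L' hL'n hLL' hNL'
  exact (hL.eq_of_le ⟨hL'n, hNL'⟩ hLL').symm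

section

variable {K : (G : Type) → [Group G] → Prop} (hK : SHAb K)
include hK

/-- a locally soluble torsion group in the class without proper normal subgroups of finite index is
locally nilpotent -/
theorem SHAb.locNilp_of_no_fi {G : Type} [Group G] (hKG : K G) (h : LocallySoluble G)
    (ht : Tors G) (hfi : ∀ N : Subgroup G, N.Normal → N.FiniteIndex → N = ⊤) :
    LocallyNilpotent G := by
  intro F hF
  have hFfin : Finite F := hK.finite_solvable (hK.sub' hKG F) (h F hF) (ht.sub F)
  by_contra hnil
  obtain ⟨N0, hN0, hN0c⟩ := exists_perfect_step F hnil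
  let N : Subgroup G := N0.map F.subtype
  have hNfin : (N : Set G).Finite := (Set.toFinite (N0 : Set F)).image _
  have hNne : N ≠ ⊥ := by
    intro h1
    apply hN0
    rw [eq_bot_iff]
    intro x hx
    have h2 : (x : G) ∈ N := Subgroup.mem_map_of_mem _ hx
    rw [h1, Subgroup.mem_bot] at h2
    exact Subtype.ext h2
  have hNF : ⁅N, F⁆ = N := by
    have h1 := congrArg (Subgroup.map F.subtype) hN0c
    rw [Subgroup.map_commutator, ← MonoidHom.range_eq_map, Subgroup.range_subtype] at h1
    exact h1
  obtain ⟨L, hLn, hNL, hLmax⟩ := exists_maximal_avoiding N hNfin hNne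
  let π : G →* G ⧸ L := QuotientGroup.mk' L
  have hπ : Function.Surjective π := QuotientGroup.mk'_surjective L
  let M : Subgroup (G ⧸ L) := Subgroup.normalClosure (π '' (N : Set G))
  have hMn : M.Normal := Subgroup.normalClosure_normal
  have hMmin : ∀ L' : Subgroup (G ⧸ L), L'.Normal → L' ≤ M → L' ≠ ⊥ → L' = M := by
    intro L' hL'n hL'M hL'ne
    apply le_antisymm hL'M
    have h1 : N ≤ L'.comap π := by
      by_contra hcon
      have h2 := hLmax (L'.comap π) inferInstance (by
        intro x hx
        show π x ∈ L'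
        have : π x = 1 := (QuotientGroup.eq_one_iff x).mpr hx
        rw [this]; exact L'.one_mem) hcon
      apply hL'ne
      rw [eq_bot_iff]
      intro y hy
      obtain ⟨x, rfl⟩ := hπ y
      have h3 : x ∈ L'.comap π := hy
      rw [h2] at h3
      exact (QuotientGroup.eq_one_iff x).mpr h3
    apply Subgroup.normalClosure_le_normal
    rintro _ ⟨x, hx, rfl⟩
    exact h1 hx
  have hMab := minimal_normal_abelian (h.of_surjective π hπ) M hMn hMmin
  have hMfin : Finite M :=
    hK.finite_ab (hK.sub' (hK.quo' hKG L) M) (fun a b => Subtype.ext (hMab _ a.2 _ b.2))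
      ((ht.quo π hπ).sub M)
  have hAfin : Finite (MulAut M) := by
    have : Function.Injective (fun f : MulAut M => (f : M → M)) := DFunLike.coe_injective
    exact Finite.of_injective _ this
  let ψ : G →* MulAut M := (MulAut.conjNormal : (G ⧸ L) →* MulAut M).comp π
  have hker : ψ.ker = ⊤ := hfi ψ.ker inferInstance inferInstance
  apply hNL
  rw [← hNF, Subgroup.commutator_le]
  intro x hx f hf
  have h1 : ψ f = 1 := by
    have : f ∈ ψ.ker := by rw [hker]; exact Subgroup.mem_top f
    exact this
  have hxM : π x ∈ M := Subgroup.subset_normalClosure ⟨x, hx, rfl⟩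
  have h2 := MulAut.conjNormal_apply (π f) (⟨π x, hxM⟩ : M)
  have h3 : (MulAut.conjNormal (π f) : MulAut M) = 1 := h1
  rw [h3] at h2
  have h4 : π x = π f * π x * (π f)⁻¹ := h2
  have h5 : π x * π f = π f * π x := (eq_mul_inv_iff_mul_eq.mp h4)
  have h6 : π ⁅x, f⁆ = 1 := by
    rw [map_commutatorElement]
    exact commutatorElement_eq_one_iff_mul_comm.mpr h5
  exact (QuotientGroup.eq_one_iff _).mp h6

end

/-- a chain of subgroups with finite union contains its union -/
lemma sSup_mem_of_finite {G : Type} [Group G] (c : Set (Subgroup G)) (hc : c.Nonempty)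
    (hchain : IsChain (· ≤ ·) c) (hfin : ((sSup c : Subgroup G) : Set G).Finite) : sSup c ∈ c := by
  classical
  obtain ⟨L0, hL0⟩ := hc
  have key : ∀ s : Finset G, (∀ x ∈ s, x ∈ (sSup c : Subgroup G)) → ∃ L ∈ c, ∀ x ∈ s, x ∈ L := by
    intro s
    induction s using Finset.induction_on with
    | empty => intro _; exact ⟨L0, hL0, by simp⟩
    | insert a s ha ih =>
      intro h
      obtain ⟨L, hL, hLs⟩ := ih fun x hx => h x (Finset.mem_insert_of_mem hx)
      have h1 := h a (Finset.mem_insert_self a s)
      rw [Subgroup.mem_sSup_of_directedOn ⟨L0, hL0⟩ hchain.directedOn] at h1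
      obtain ⟨L', hL', haL'⟩ := h1
      rcases hchain.total hL hL' with hh | hh
      · refine ⟨L', hL', fun x hx => ?_⟩
        rcases Finset.mem_insert.mp hx with rfl | hx
        · exact haL'
        · exact hh (hLs x hx)
      · refine ⟨L, hL, fun x hx => ?_⟩
        rcases Finset.mem_insert.mp hx with rfl | hx
        · exact hh haL'
        · exact hLs x hx
  obtain ⟨L, hL, hLN⟩ := key hfin.toFinset (fun x hx => by simpa using hx)
  have : sSup c = L := le_antisymm (fun x hx => hLN x (by simpa using hx)) (le_sSup hL)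
  rw [this]; exact hL

/-- residually finite -/
def RF (G : Type) [Group G] : Prop :=
  ∀ x : G, x ≠ 1 → ∃ N : Subgroup G, N.Normal ∧ N.FiniteIndex ∧ x ∉ N

lemma RF.avoid {G : Type} [Group G] (h : RF G) (s : Set G) (hs : s.Finite) (h1 : (1 : G) ∉ s) :
    ∃ N : Subgroup G, N.Normal ∧ N.FiniteIndex ∧ ∀ x ∈ s, x ∉ N := by
  induction s, hs using Set.Finite.induction_on with
  | empty => exact ⟨⊤, inferInstance, inferInstance, by simp⟩
  | @insert a s _ _ ih =>
    rw [Set.mem_insert_iff, not_or] at h1
    obtain ⟨N, hN, hNfi, hNs⟩ := ih h1.2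
    obtain ⟨N', hN', hN'fi, ha⟩ := h a (Ne.symm h1.1)
    refine ⟨N ⊓ N', inferInstance, inferInstance, ?_⟩
    intro x hx hxN
    rcases Set.mem_insert_iff.mp hx with rfl | hx
    · exact ha hxN.2
    · exact hNs x hx hxN.1

lemma RF.sub {G : Type} [Group G] (h : RF G) (H : Subgroup G) : RF H := by
  intro x hx
  obtain ⟨N, hN, hNfi, hxN⟩ := h x.1 (fun hh => hx (Subtype.ext hh))
  exact ⟨N.subgroupOf H, inferInstance, inferInstance, fun hh => hxN hh⟩

lemma RF.quo_finite {G : Type} [Group G] (h : RF G) (A : Subgroup G) [A.Normal] (hA : Finite A) :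
    RF (G ⧸ A) := by
  intro x hx
  obtain ⟨x, rfl⟩ := QuotientGroup.mk_surjective x
  have hAf : (A : Set G).Finite := hA
  obtain ⟨N, hN, hNfi, hNs⟩ := h.avoid ((fun a => x * a) '' (A : Set G)) (hAf.image _) (by
    rintro ⟨a, ha, hxa⟩
    apply hx
    rw [QuotientGroup.eq_one_iff]
    have : x = a⁻¹ := eq_inv_of_mul_eq_one_left hxa
    rw [this]; exact A.inv_mem ha)
  refine ⟨N.map (QuotientGroup.mk' A), hN.map _ (QuotientGroup.mk'_surjective A), ?_, ?_⟩
  · exact ⟨by
      have h1 := Subgroup.index_map_dvd N (QuotientGroup.mk'_surjective A)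
      exact fun h0 => hNfi.index_ne_zero (Nat.eq_zero_of_zero_dvd (h0 ▸ h1))⟩
  · rintro ⟨n, hn, hnx⟩
    have h1 : n⁻¹ * x ∈ A := QuotientGroup.eq.mp hnx
    have h2 : x⁻¹ * n ∈ A := by
      have := A.inv_mem h1
      rwa [mul_inv_rev, inv_inv] at this
    apply hNs (x * (x⁻¹ * n)) ⟨_, h2, rfl⟩
    rw [mul_inv_cancel_left]
    exact hn

section

variable {K : (G : Type) → [Group G] → Prop} (hK : SHAb K)
include hK

/-- a section in which all nontrivial elements have finite centralisers -/
lemma SHAb.exists_section {G : Type} [Group G] (hKG : K G) (h : LocallySoluble G)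
    (ht : Tors G) (hrf : RF G) (hinf : Infinite G) :
    ∃ (Q : Type) (_ : Group Q), K Q ∧ LocallySoluble Q ∧ Tors Q ∧ RF Q ∧ Infinite Q ∧
      ∀ q : Q, q ≠ 1 → ((Subgroup.centralizer {q} : Subgroup Q) : Set Q).Finite := by
  have hcomm : ∀ A : Subgroup G, (∀ a ∈ A, ∀ b ∈ A, a * b = b * a) → (A : Set G).Finite := by
    intro A hA
    exact hK.finite_ab (hK.sub' hKG A) (fun a b => Subtype.ext (hA _ a.2 _ b.2)) (ht.sub A)
  obtain ⟨A, -, hA⟩ := zorn_le_nonempty₀ {A : Subgroup G | (∀ a ∈ A, ∀ b ∈ A, a * b = b * a) ∧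
      ((Subgroup.centralizer (A : Set G) : Subgroup G) : Set G).Infinite}
    (by
      intro c hc hchain L0 hL0
      refine ⟨sSup c, ?_, fun L hL => le_sSup hL⟩
      apply hc
      apply sSup_mem_of_finite c ⟨L0, hL0⟩ hchain
      apply hcomm
      intro a ha b hb
      rw [Subgroup.mem_sSup_of_directedOn ⟨L0, hL0⟩ hchain.directedOn] at ha hb
      obtain ⟨L, hL, haL⟩ := ha
      obtain ⟨L', hL', hbL'⟩ := hb
      rcases hchain.total hL hL' with hh | hh
      · exact (hc hL').1 a (hh haL) b hbL'
      · exact (hc hL).1 a haL b (hh hbL'))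
    ⊥ ⟨by
        intro a ha b hb
        rw [Subgroup.mem_bot] at ha hb
        rw [ha, hb], by
        have : (Subgroup.centralizer ((⊥ : Subgroup G) : Set G) : Subgroup G) = ⊤ := by
          rw [eq_top_iff]
          intro x _
          rw [Subgroup.mem_centralizer_iff]
          intro a ha
          have : a = 1 := ha
          rw [this]; simp
        rw [this]
        exact Set.infinite_univ⟩
  obtain ⟨⟨hAab, hAinf⟩, -⟩ := id hA
  have hAfin := hcomm A hAab
  let H : Subgroup G := Subgroup.centralizer (A : Set G)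
  have hHA : ∀ y ∈ H, ∀ a ∈ A, a * y = y * a := fun y hy a ha =>
    Subgroup.mem_centralizer_iff.mp hy a ha
  let A' : Subgroup H := A.subgroupOf H
  have hA'n : A'.Normal := by
    constructor
    intro a ha y
    have h1 : y * a * y⁻¹ = a := by
      apply Subtype.ext
      show (y : G) * (a : G) * (y : G)⁻¹ = a
      rw [← hHA y.1 y.2 a.1 ha]; group
    rw [h1]; exact ha
  have hA'fin : Finite A' := by
    have h1 : ((A' : Subgroup H) : Set H) = (Subtype.val : H → G) ⁻¹' (A : Set G) := rfl
    have h2 : ((A' : Subgroup H) : Set H).Finite := by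
      rw [h1]
      exact hAfin.preimage Subtype.val_injective.injOn
    exact h2
  have hHinf : Infinite H := hAinf.to_subtype
  refine ⟨H ⧸ A', inferInstance, hK.quo' (hK.sub' hKG H) A', ?_, ?_, ?_, ?_, ?_⟩
  · exact (h.of_injective H.subtype H.subtype_injective).of_surjective (QuotientGroup.mk' A')
      (QuotientGroup.mk'_surjective A')
  · exact (ht.sub H).quo (QuotientGroup.mk' A') (QuotientGroup.mk'_surjective A')
  · exact (hrf.sub H).quo_finite A' hA'fin
  · exact infinite_quotient H A' hA'fin
  · intro q hq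
    obtain ⟨y, rfl⟩ := QuotientGroup.mk_surjective q
    have hyA : (y : G) ∉ A := fun hh => hq ((QuotientGroup.eq_one_iff y).mpr hh)
    -- the centraliser of A and y is finite
    have hfin : {z : G | z ∈ H ∧ z * y = y * z}.Finite := by
      by_contra hinf'
      have hBab : ∀ a ∈ A ⊔ Subgroup.zpowers (y : G), ∀ b ∈ A ⊔ Subgroup.zpowers (y : G),
          a * b = b * a := by
        have hle1 : A ⊔ Subgroup.zpowers (y : G) ≤
            Subgroup.centralizer ((A : Set G) ∪ {(y : G)}) := by
          rw [sup_le_iff]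
          constructor
          · intro a ha
            rw [Subgroup.mem_centralizer_iff]
            rintro b (hb | hb)
            · exact hAab b hb a ha
            · have hb' : b = y := hb
              rw [hb']
              exact (hHA y.1 y.2 a ha).symm
          · rw [Subgroup.zpowers_le, Subgroup.mem_centralizer_iff]
            rintro b (hb | hb)
            · exact hHA y.1 y.2 b hb
            · have hb' : b = y := hb
              rw [hb']
        intro a ha b hb
        have hb' : b ∈ Subgroup.centralizer ((Subgroup.centralizer ((A : Set G) ∪ {(y : G)}) :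
            Subgroup G) : Set G) := by
          have hle2 : A ⊔ Subgroup.zpowers (y : G) ≤ Subgroup.centralizer
              ((Subgroup.centralizer ((A : Set G) ∪ {(y : G)}) : Subgroup G) : Set G) := by
            rw [sup_le_iff]
            constructor
            · intro a ha
              rw [Subgroup.mem_centralizer_iff]
              intro c hc
              exact (Subgroup.mem_centralizer_iff.mp hc a (Or.inl ha)).symm
            · rw [Subgroup.zpowers_le, Subgroup.mem_centralizer_iff]
              intro c hc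
              exact (Subgroup.mem_centralizer_iff.mp hc y (Or.inr rfl)).symm
          exact hle2 hb
        exact Subgroup.mem_centralizer_iff.mp hb' a (hle1 ha)
      have hBinf : ((Subgroup.centralizer ((A ⊔ Subgroup.zpowers (y : G) : Subgroup G) : Set G) :
          Subgroup G) : Set G).Infinite := by
        apply Set.Infinite.mono _ hinf'
        rintro z ⟨hzH, hzy⟩
        have hle3 : A ⊔ Subgroup.zpowers (y : G) ≤ Subgroup.centralizer {z} := by
          rw [sup_le_iff]
          constructor
          · intro a ha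
            rw [Subgroup.mem_centralizer_iff]
            intro c hc
            have hc' : c = z := hc
            rw [hc']; exact (hHA z hzH a ha).symm
          · rw [Subgroup.zpowers_le, Subgroup.mem_centralizer_iff]
            intro c hc
            have hc' : c = z := hc
            rw [hc']; exact hzy
        show z ∈ Subgroup.centralizer _
        rw [Subgroup.mem_centralizer_iff]
        intro b hb
        exact (Subgroup.mem_centralizer_iff.mp (hle3 hb) z rfl).symm
      have h2 := hA.eq_of_le ⟨hBab, hBinf⟩ le_sup_left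
      apply hyA
      rw [h2]
      exact (le_sup_right : Subgroup.zpowers (y : G) ≤ A ⊔ Subgroup.zpowers (y : G))
        (Subgroup.mem_zpowers _)
    -- the preimage of the centraliser
    let f : H → G := fun z => z * y * (z : G)⁻¹ * (y : G)⁻¹
    have hZ : (f ⁻¹' (A : Set G)).Finite := by
      apply Set.Finite.preimage' hAfin
      intro b _
      by_cases hb : ∃ z0, f z0 = b
      · obtain ⟨z0, rfl⟩ := hb
        have h3 : ((fun z : G => (z0 : G) * z) '' {z : G | z ∈ H ∧ z * y = y * z}).Finite :=
          hfin.image _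
        apply (Set.Finite.preimage (Subtype.val_injective.injOn) h3).subset
        intro z hz
        have hz' : (z : G) * y * (z : G)⁻¹ * (y : G)⁻¹ = z0 * y * (z0 : G)⁻¹ * (y : G)⁻¹ := hz
        have hz'' : (z : G) * y * (z : G)⁻¹ = z0 * y * (z0 : G)⁻¹ := mul_right_cancel hz'
        refine ⟨(z0 : G)⁻¹ * z, ⟨H.mul_mem (H.inv_mem z0.2) z.2, ?_⟩, by simp⟩
        calc (z0 : G)⁻¹ * z * y = (z0 : G)⁻¹ * ((z : G) * y * (z : G)⁻¹) * z := by group
          _ = (z0 : G)⁻¹ * (z0 * y * (z0 : G)⁻¹) * z := by rw [hz'']
          _ = y * ((z0 : G)⁻¹ * z) := by group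
      · convert Set.finite_empty (α := H)
        ext z
        simp only [Set.mem_preimage, Set.mem_singleton_iff, Set.mem_empty_iff_false, iff_false]
        exact fun hh => hb ⟨z, hh⟩
    apply (hZ.image (QuotientGroup.mk' A')).subset
    intro q hq
    obtain ⟨z, rfl⟩ := QuotientGroup.mk_surjective q
    refine ⟨z, ?_, rfl⟩
    have h4 := Subgroup.mem_centralizer_iff.mp hq _ rfl
    have h5 : ((y * z : H) : H ⧸ A') = ((z * y : H) : H ⧸ A') := h4
    have h6 : (y * z)⁻¹ * (z * y) ∈ A' := QuotientGroup.eq.mp h5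
    have h7 := hA'n.conj_mem _ h6 (y * z)
    have h8 : ((y * z * ((y * z)⁻¹ * (z * y)) * (y * z)⁻¹ : H) : G) =
        (z : G) * y * (z : G)⁻¹ * (y : G)⁻¹ := by
      rw [mul_inv_cancel_left]
      show (z : G) * y * ((y : G) * z)⁻¹ = _
      rw [mul_inv_rev]; group
    show (z : G) * y * (z : G)⁻¹ * (y : G)⁻¹ ∈ A
    rw [← h8]
    exact h7

/-- residually finite locally soluble torsion groups in the class are finite -/
lemma SHAb.finite_RF {G : Type} [Group G] (hKG : K G) (h : LocallySoluble G)
    (ht : Tors G) (hrf : RF G) : Finite G := by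
  classical
  by_contra hinf
  rw [not_finite_iff_infinite] at hinf
  obtain ⟨Q, _, hKQ, hQ, hQt, hQrf, hQinf, hcen⟩ := hK.exists_section hKG h ht hrf hinf
  -- an element of prime order
  obtain ⟨y, hy⟩ := exists_ne (1 : Q)
  have hyord : orderOf y ≠ 0 := by
    obtain ⟨n, hn, hyn⟩ := hQt y
    exact (orderOf_pos_iff.mpr (isOfFinOrder_iff_pow_eq_one.mpr ⟨n, Nat.pos_of_ne_zero hn, hyn⟩)).ne'
  have hyord1 : orderOf y ≠ 1 := fun h => hy (orderOf_eq_one_iff.mp h)
  obtain ⟨p, hp, hpd⟩ := Nat.exists_prime_and_dvd hyord1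
  obtain ⟨x, hx1, hxp⟩ : ∃ x : Q, x ≠ 1 ∧ x ^ p = 1 := by
    refine ⟨y ^ (orderOf y / p), ?_, ?_⟩
    · intro h1
      have h2 := orderOf_dvd_of_pow_eq_one h1
      have h3 : 0 < orderOf y / p := Nat.div_pos (Nat.le_of_dvd (Nat.pos_of_ne_zero hyord) hpd)
        hp.pos
      have h4 := Nat.le_of_dvd h3 h2
      have h5 : orderOf y / p < orderOf y := Nat.div_lt_self (Nat.pos_of_ne_zero hyord) hp.one_lt
      omega
    · rw [← pow_mul, Nat.div_mul_cancel hpd, pow_orderOf_eq_one]
  obtain ⟨N, hN, hNfi, hNs⟩ := hQrf.avoid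
    (((Subgroup.centralizer {x} : Subgroup Q) : Set Q) \ {1}) ((hcen x hx1).sdiff) (by simp)
  have hfix : ∀ z ∈ N, x * z * x⁻¹ = z → z = 1 := by
    intro z hz hzx
    by_contra hz1
    apply hNs z _ hz
    refine ⟨?_, hz1⟩
    show z ∈ Subgroup.centralizer {x}
    rw [Subgroup.mem_centralizer_iff]
    intro c hc
    have hc' : c = x := hc
    rw [hc']
    exact mul_inv_eq_iff_eq_mul.mp hzx
  have hNnil : LocallyNilpotent N := by
    intro F hF
    obtain ⟨S, hS⟩ := hF
    -- the finitely generated x-invariant subgroup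
    let T : Finset Q := (Finset.range p ×ˢ S).image
      (fun z : ℕ × N => x ^ z.1 * (z.2 : Q) * (x ^ z.1)⁻¹)
    let F' : Subgroup Q := Subgroup.closure (T : Set Q)
    have hF'fg : F'.FG := ⟨T, rfl⟩
    have hF'N : F' ≤ N := by
      rw [Subgroup.closure_le]
      intro t ht
      simp only [T, Finset.coe_image, Set.mem_image, Finset.mem_coe] at ht
      obtain ⟨⟨i, s⟩, -, rfl⟩ := ht
      exact hN.conj_mem s.1 s.2 (x ^ i)
    have hF'x : ∀ v ∈ F', x * v * x⁻¹ ∈ F' := by
      intro v hv
      have h1 : F'.map (MulAut.conj x).toMonoidHom ≤ F' := by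
        rw [MonoidHom.map_closure, Subgroup.closure_le]
        rintro _ ⟨t, ht, rfl⟩
        simp only [T, Finset.coe_image, Set.mem_image, Finset.mem_coe, Finset.mem_product,
          Finset.mem_range] at ht
        obtain ⟨⟨i, s⟩, ⟨hi, hs⟩, rfl⟩ := ht
        apply Subgroup.subset_closure
        simp only [T, Finset.coe_image, Set.mem_image, Finset.mem_coe, Finset.mem_product,
          Finset.mem_range]
        show ∃ z : ℕ × N, _ ∧ _ = x * (x ^ i * (s : Q) * (x ^ i)⁻¹) * x⁻¹
        by_cases hi1 : i + 1 < p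
        · refine ⟨(i + 1, s), ⟨hi1, hs⟩, ?_⟩
          simp only [pow_succ']
          group
        · have hip : i + 1 = p := by simp only at hi; omega
          refine ⟨(0, s), ⟨hp.pos, hs⟩, ?_⟩
          have h2 : x * x ^ i = 1 := by rw [← pow_succ', hip, hxp]
          have h3 : x * (x ^ i * (s : Q) * (x ^ i)⁻¹) * x⁻¹ =
              (x * x ^ i) * s * (x * x ^ i)⁻¹ := by group
          rw [h3, h2]; simp
      exact h1 ⟨v, hv, rfl⟩
    have hF'fin : Finite F' := hK.finite_solvable (hK.sub' hKQ F') (hQ F' hF'fg) (hQt.sub F')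
    let α : MulAut F' := MulEquiv.ofBijective
      ({ toFun := fun v => ⟨x * v.1 * x⁻¹, hF'x v.1 v.2⟩
         map_one' := Subtype.ext (by simp)
         map_mul' := fun a b => Subtype.ext (by
          show x * (a.1 * b.1) * x⁻¹ = x * a.1 * x⁻¹ * (x * b.1 * x⁻¹)
          group) } : F' →* F')
      (Finite.injective_iff_bijective.mp fun a b hab => Subtype.ext (by
        have h1 : x * a.1 * x⁻¹ = x * b.1 * x⁻¹ := congrArg Subtype.val hab
        exact mul_left_cancel (mul_right_cancel h1)))
    have hαp : ∀ (k : ℕ) (v : F'), ((α ^ k) v : Q) = x ^ k * v * (x ^ k)⁻¹ := by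
      intro k
      induction k with
      | zero => intro v; simp
      | succ k ih =>
        intro v
        rw [pow_succ, MulAut.mul_apply, ih]
        show x ^ k * (x * v.1 * x⁻¹) * (x ^ k)⁻¹ = _
        rw [pow_succ]; group
    have hαp1 : α ^ p = 1 := by
      refine MulEquiv.ext fun v => Subtype.ext ?_
      rw [hαp, hxp]; simp
    have hαfpf : FPF α := by
      intro v hv
      apply Subtype.ext
      exact hfix v.1 (hF'N v.2) (congrArg Subtype.val hv)
    have hnil : Group.IsNilpotent F' :=
      nilpotent_of_fpf _ F' rfl (hQ F' hF'fg) p hp α hαp1 hαfpf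
    -- F embeds in F'
    have hle : F ≤ F'.comap N.subtype := by
      rw [← hS, Subgroup.closure_le]
      intro s hs
      apply Subgroup.subset_closure
      simp only [T, Finset.coe_image, Set.mem_image, Finset.mem_coe, Finset.mem_product,
          Finset.mem_range]
      exact ⟨(0, s), ⟨hp.pos, hs⟩, by simp⟩
    let φ : F →* F' :=
      { toFun := fun v => ⟨v.1.1, hle v.2⟩
        map_one' := rfl
        map_mul' := fun _ _ => rfl }
    have hφ : Function.Injective φ := fun a b hab =>
      Subtype.ext (Subtype.ext (congrArg (fun z : F' => (z : Q)) hab))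
    exact Group.nilpotent_of_mulEquiv (MonoidHom.ofInjective hφ).symm
  have hNfin := hK.finite_locNilp (hK.sub' hKQ N) hNnil (hQt.sub N)
  have := finite_of_index N hNfin hNfi
  exact not_finite Q

/-- locally soluble torsion groups in the class are finite -/
theorem SHAb.finite_locSol {G : Type} [Group G] (hKG : K G) (h : LocallySoluble G)
    (ht : Tors G) : Finite G := by
  -- the finite residual has finite index
  have key : ∀ (G : Type) [Group G], K G → LocallySoluble G → Tors G →
      ∃ D : Subgroup G, D.Normal ∧ D.FiniteIndex ∧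
        ∀ N : Subgroup G, N.Normal → N.FiniteIndex → D ≤ N := by
    intro G _ hKG h ht
    let D : Subgroup G := sInf {N | N.Normal ∧ N.FiniteIndex}
    have hDle : ∀ N : Subgroup G, N.Normal → N.FiniteIndex → D ≤ N := fun N h1 h2 =>
      sInf_le ⟨h1, h2⟩
    have hDn : D.Normal := by
      constructor
      intro x hx g
      rw [Subgroup.mem_sInf] at hx ⊢
      rintro N ⟨hN, hNfi⟩
      exact hN.conj_mem x (hx N ⟨hN, hNfi⟩) g
    refine ⟨D, hDn, ?_, hDle⟩
    have hrf : RF (G ⧸ D) := by
      intro x hx
      obtain ⟨x, rfl⟩ := QuotientGroup.mk_surjective x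
      have hxD : x ∉ D := fun hh => hx ((QuotientGroup.eq_one_iff x).mpr hh)
      rw [Subgroup.mem_sInf] at hxD
      push Not at hxD
      obtain ⟨N, ⟨hN, hNfi⟩, hxN⟩ := hxD
      refine ⟨N.map (QuotientGroup.mk' D), hN.map _ (QuotientGroup.mk'_surjective D), ?_, ?_⟩
      · exact ⟨by
          have h1 := Subgroup.index_map_dvd N (QuotientGroup.mk'_surjective D)
          exact fun h0 => hNfi.index_ne_zero (Nat.eq_zero_of_zero_dvd (h0 ▸ h1))⟩
      · rintro ⟨n, hn, hnx⟩
        have h1 : n⁻¹ * x ∈ D := QuotientGroup.eq.mp hnx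
        have h2 := hDle N hN hNfi h1
        apply hxN
        have : x = n * (n⁻¹ * x) := by group
        rw [this]
        exact N.mul_mem hn h2
    have hfin : Finite (G ⧸ D) := hK.finite_RF (hK.quo' hKG D)
      (h.of_surjective (QuotientGroup.mk' D) (QuotientGroup.mk'_surjective D))
      (ht.quo (QuotientGroup.mk' D) (QuotientGroup.mk'_surjective D)) hrf
    exact Subgroup.finiteIndex_of_finite_quotient
  obtain ⟨D, hDn, hDfi, hDle⟩ := key G hKG h ht
  obtain ⟨D2, hD2n, hD2fi, hD2le⟩ := key D (hK.sub' hKG D)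
    (h.of_injective D.subtype D.subtype_injective) (ht.sub D)
  have hfi : (D2.map D.subtype).FiniteIndex := by
    constructor
    rw [Subgroup.index_map_subtype]
    exact mul_ne_zero hD2fi.index_ne_zero hDfi.index_ne_zero
  have h1 : D ≤ D2.map D.subtype :=
    (hDle _ (Subgroup.normalCore_normal _) inferInstance).trans (Subgroup.normalCore_le _)
  have h2 : ∀ N : Subgroup D, N.Normal → N.FiniteIndex → N = ⊤ := by
    intro N hN hNfi
    rw [eq_top_iff]
    intro x _
    apply hD2le N hN hNfi
    obtain ⟨y, hy, hyx⟩ := h1 x.2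
    have : y = x := Subtype.ext hyx
    rw [← this]; exact hy
  have hDnil : LocallyNilpotent D := hK.locNilp_of_no_fi (hK.sub' hKG D)
    (h.of_injective D.subtype D.subtype_injective) (ht.sub D) h2
  have hDfin : Finite D := hK.finite_locNilp (hK.sub' hKG D) hDnil (ht.sub D)
  exact finite_of_index D hDfin hDfi

end

end Pool.Agent.SHA
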