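import Pool.Agent.SHA.LocSol

set_option autoImplicit false

/-!
Locally soluble groups in the class are almost cyclic; hyper-(locally soluble or finite) groups.
-/

namespace Pool.Agent.SHA

open scoped commutatorElement

/-- conjugation in an almost cyclic group maps some power of an element of infinite order to
itself or its inverse -/
lemma AlmostCyclic.conj_zpow {F : Type} [Group F] (h : AlmostCyclic F) (g : F)
    (hg : ∀ n : ℕ, n ≠ 0 → g ^ n ≠ 1) (x : F) :
    ∃ n : ℕ, n ≠ 0 ∧ (x * g ^ n * x⁻¹ = g ^ n ∨ x * g ^ n * x⁻¹ = (g ^ n)⁻¹) := by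
  have hfi := h.zpowers_fi g hg
  let N : Subgroup F := (Subgroup.zpowers g).normalCore
  have hNle : N ≤ Subgroup.zpowers g := Subgroup.normalCore_le _
  have hNfi : N.FiniteIndex := inferInstance
  have hNn : N.Normal := Subgroup.normalCore_normal _
  have hcyc : IsCyclic N :=
    isCyclic_of_injective (Subgroup.inclusion hNle) (Subgroup.inclusion_injective hNle)
  obtain ⟨z, hz⟩ := hcyc.exists_generator
  have hz' : ∀ y ∈ N, ∃ k : ℤ, (z : F) ^ k = y := by
    intro y hy
    obtain ⟨k, hk⟩ := Subgroup.mem_zpowers_iff.mp (hz ⟨y, hy⟩)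
    exact ⟨k, by simpa using congrArg Subtype.val hk⟩
  obtain ⟨m, hm⟩ := Subgroup.mem_zpowers_iff.mp (hNle z.2)
  have hgz : ∀ i : ℤ, g ^ i = 1 → i = 0 := by
    intro i hi
    by_contra h
    apply hg i.natAbs (by omega)
    rcases Int.natAbs_eq i with h1 | h1
    · rw [h1, zpow_natCast] at hi; exact hi
    · rw [h1, zpow_neg, zpow_natCast, inv_eq_one] at hi; exact hi
  have hm0 : m ≠ 0 := by
    rintro rfl
    rw [zpow_zero] at hm
    obtain ⟨n, hn, -, hnN⟩ := Subgroup.exists_pow_mem_of_index_ne_zero hNfi.index_ne_zero g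
    obtain ⟨k, hk⟩ := hz' _ hnN
    rw [← hm, one_zpow] at hk
    exact hg n (by omega) hk.symm
  obtain ⟨s, hs⟩ := hz' _ (hNn.conj_mem z z.2 x)
  obtain ⟨t, ht⟩ := hz' _ (hNn.conj_mem z z.2 x⁻¹)
  rw [inv_inv] at ht
  have hst : s * t = 1 := by
    have h1 : (z : F) ^ (s * t) = z := by
      rw [zpow_mul, hs]
      have h2 : (x * (z : F) * x⁻¹) ^ t = x * (z : F) ^ t * x⁻¹ := _root_.conj_zpow
      rw [h2, ht]; group
    rw [← hm, ← zpow_mul] at h1
    have h2 : g ^ (m * (s * t) - m) = 1 := by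
      rw [zpow_sub, h1]; simp
    have h3 := hgz _ h2
    have h4 : m * (s * t) = m * 1 := by linarith
    exact mul_left_cancel₀ hm0 h4
  have hx : x * g ^ m * x⁻¹ = g ^ m ∨ x * g ^ m * x⁻¹ = (g ^ m)⁻¹ := by
    rw [hm, ← hs]
    rcases Int.eq_one_or_neg_one_of_mul_eq_one hst with h | h <;> rw [h]
    · left; simp
    · right; simp
  refine ⟨m.natAbs, by omega, ?_⟩
  rcases Int.natAbs_eq m with h1 | h1
  · rw [h1, zpow_natCast] at hx; exact hx
  · rw [h1, zpow_neg, zpow_natCast, inv_inv] at hx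
    rcases hx with hx | hx
    · left
      have := congrArg (·⁻¹) hx
      simpa [mul_assoc] using this
    · right
      have := congrArg (·⁻¹) hx
      simpa [mul_assoc] using this

section

variable {K : (G : Type) → [Group G] → Prop} (hK : SHAb K)
include hK

/-- the case where every element commutes with a power of a fixed element of infinite order -/
lemma SHAb.almostCyclic_aux {B : Type} [Group B] (hKB : K B) (h : LocallySoluble B) (g : B)
    (hg : ∀ n : ℕ, n ≠ 0 → g ^ n ≠ 1) (hB : ∀ x : B, ∃ n : ℕ, n ≠ 0 ∧ x * g ^ n = g ^ n * x) :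
    AlmostCyclic B := by
  classical
  have key : ∀ x y : B, ∃ d : ℕ, d ≠ 0 ∧ (x * y) ^ d = x ^ d * y ^ d ∧
      x ^ d * y ^ d = y ^ d * x ^ d ∧ ⁅x, y⁆ ^ d = 1 := by
    intro x y
    let F : Subgroup B := Subgroup.closure (({g, x, y} : Finset B) : Set B)
    have hF : F.FG := ⟨_, rfl⟩
    have hFac : AlmostCyclic F :=
      hK.almostCyclic_of_HAF (hK.sub' hKB F) (HAF_of_solvable (h F hF))
    have hgF : g ∈ F := Subgroup.subset_closure (by simp)
    have hxF : x ∈ F := Subgroup.subset_closure (by simp)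
    have hyF : y ∈ F := Subgroup.subset_closure (by simp)
    obtain ⟨n, hn, hxn⟩ := hB x
    obtain ⟨m, hm, hym⟩ := hB y
    have hc : ∀ v ∈ F, v * g ^ (n * m) = g ^ (n * m) * v := by
      intro v hv
      have h1 : F ≤ Subgroup.centralizer {g ^ (n * m)} := by
        rw [Subgroup.closure_le]
        intro s hs
        have hs' : s = g ∨ s = x ∨ s = y := by simpa using hs
        show s ∈ Subgroup.centralizer _
        rw [Subgroup.mem_centralizer_iff]
        intro c hc
        have hc' : c = g ^ (n * m) := hc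
        rw [hc']
        rcases hs' with rfl | rfl | rfl
        · exact ((Commute.refl s).pow_right _).eq.symm
        · rw [pow_mul]
          exact (Commute.pow_right (show Commute s (g ^ n) from hxn) m).eq.symm
        · rw [mul_comm n m, pow_mul]
          exact (Commute.pow_right (show Commute s (g ^ m) from hym) n).eq.symm
      exact (Subgroup.mem_centralizer_iff.mp (h1 hv) _ rfl).symm
    have hcen : (Subgroup.zpowers (⟨g, hgF⟩ ^ (n * m) : F)) ≤ Subgroup.center F := by
      rw [Subgroup.zpowers_le, Subgroup.mem_center_iff]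
      intro v
      apply Subtype.ext
      simpa using hc v.1 v.2
    have hfi1 : (Subgroup.zpowers (⟨g, hgF⟩ ^ (n * m) : F)).FiniteIndex := by
      apply hFac.zpowers_fi
      intro k hk hk1
      rw [← pow_mul] at hk1
      have h2 : g ^ (n * m * k) = 1 := by simpa using congrArg Subtype.val hk1
      exact hg _ (mul_ne_zero (mul_ne_zero hn hm) hk) h2
    have hfi : (Subgroup.center F).FiniteIndex := Subgroup.finiteIndex_of_le hcen
    let τ := MonoidHom.transferCenterPow F
    have hτ : ∀ v : F, ((τ v : Subgroup.center F) : F) = v ^ (Subgroup.center F).index := fun v =>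
      MonoidHom.transferCenterPow_apply v
    refine ⟨(Subgroup.center F).index, hfi.index_ne_zero, ?_, ?_, ?_⟩
    · have h3 := congrArg (fun z : Subgroup.center F => (z : F)) (map_mul τ ⟨x, hxF⟩ ⟨y, hyF⟩)
      have h4 : ((⟨x, hxF⟩ * ⟨y, hyF⟩ : F)) ^ (Subgroup.center F).index =
          (⟨x, hxF⟩ : F) ^ (Subgroup.center F).index * (⟨y, hyF⟩ : F) ^ (Subgroup.center F).index := by
        rw [← hτ, ← hτ, ← hτ]; exact h3
      simpa using congrArg Subtype.val h4
    · have h3 : (⟨x, hxF⟩ : F) ^ (Subgroup.center F).index ∈ Subgroup.center F := by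
        rw [← hτ]; exact (τ _).2
      have h4 := Subgroup.mem_center_iff.mp h3 ((⟨y, hyF⟩ : F) ^ (Subgroup.center F).index)
      simpa using (congrArg Subtype.val h4).symm
    · have h3 : τ ⁅(⟨x, hxF⟩ : F), ⟨y, hyF⟩⁆ = 1 := by
        rw [map_commutatorElement]
        exact commutatorElement_eq_one_iff_mul_comm.mpr
          (Subtype.ext (Subgroup.mem_center_iff.mp (τ ⟨y, hyF⟩).2 _))
      have h4 := hτ ⁅(⟨x, hxF⟩ : F), ⟨y, hyF⟩⁆
      rw [h3] at h4
      have h5 := congrArg Subtype.val h4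
      simp only [commutatorElement_def] at h5 ⊢
      simpa using h5.symm
  -- the torsion subgroup
  let T : Subgroup B :=
    { carrier := {x | ∃ n : ℕ, n ≠ 0 ∧ x ^ n = 1}
      one_mem' := ⟨1, one_ne_zero, one_pow _⟩
      mul_mem' := by
        rintro x y ⟨n, hn, hxn⟩ ⟨m, hm, hym⟩
        obtain ⟨d, hd, h1, h2, -⟩ := key x y
        refine ⟨d * (n * m), mul_ne_zero hd (mul_ne_zero hn hm), ?_⟩
        rw [pow_mul, h1]
        have hc : Commute (x ^ d) (y ^ d) := h2
        rw [hc.mul_pow, ← pow_mul, ← pow_mul]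
        have e1 : x ^ (d * (n * m)) = 1 := by
          rw [show d * (n * m) = n * (d * m) by ring, pow_mul, hxn, one_pow]
        have e2 : y ^ (d * (n * m)) = 1 := by
          rw [show d * (n * m) = m * (d * n) by ring, pow_mul, hym, one_pow]
        rw [e1, e2, one_mul]
      inv_mem' := by
        rintro x ⟨n, hn, hxn⟩
        exact ⟨n, hn, by rw [inv_pow, hxn, inv_one]⟩ }
  have hTn : T.Normal := by
    constructor
    rintro x ⟨n, hn, hxn⟩ y
    exact ⟨n, hn, by rw [conj_pow, hxn]; simp⟩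
  have hTt : Tors T := by
    intro x
    obtain ⟨n, hn, hxn⟩ := x.2
    exact ⟨n, hn, Subtype.ext (by simpa using hxn)⟩
  have hTfin : Finite T := hK.finite_locSol (hK.sub' hKB T)
    (h.of_injective T.subtype T.subtype_injective) hTt
  apply AlmostCyclic.of_quotient T hTfin
  apply hK.ab _ _ (hK.quo' hKB T)
  intro a b
  obtain ⟨a, rfl⟩ := QuotientGroup.mk_surjective a
  obtain ⟨b, rfl⟩ := QuotientGroup.mk_surjective b
  obtain ⟨d, hd, -, -, h3⟩ := key a b
  have h4 : ⁅a, b⁆ ∈ T := ⟨d, hd, h3⟩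
  have h5 : QuotientGroup.mk' T ⁅a, b⁆ = 1 := (QuotientGroup.eq_one_iff _).mpr h4
  rw [map_commutatorElement] at h5
  exact commutatorElement_eq_one_iff_mul_comm.mp h5

/-- locally soluble groups in the class are almost cyclic -/
theorem SHAb.almostCyclic_locSol {G : Type} [Group G] (hKG : K G) (h : LocallySoluble G) :
    AlmostCyclic G := by
  classical
  by_cases ht : Tors G
  · have := hK.finite_locSol hKG h ht
    exact AlmostCyclic.of_finite G
  unfold Tors at ht
  push Not at ht
  obtain ⟨g, hg⟩ := ht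
  have hgx : ∀ x : G, ∃ n : ℕ, n ≠ 0 ∧ (x * g ^ n * x⁻¹ = g ^ n ∨ x * g ^ n * x⁻¹ = (g ^ n)⁻¹) := by
    intro x
    let F : Subgroup G := Subgroup.closure (({g, x} : Finset G) : Set G)
    have hF : F.FG := ⟨_, rfl⟩
    have hFac : AlmostCyclic F :=
      hK.almostCyclic_of_HAF (hK.sub' hKG F) (HAF_of_solvable (h F hF))
    have hgF : g ∈ F := Subgroup.subset_closure (by simp)
    have hxF : x ∈ F := Subgroup.subset_closure (by simp)
    obtain ⟨n, hn, h1⟩ := hFac.conj_zpow ⟨g, hgF⟩
      (fun n hn h => hg n hn (by simpa using congrArg Subtype.val h)) ⟨x, hxF⟩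
    refine ⟨n, hn, ?_⟩
    rcases h1 with h1 | h1
    · left; simpa using congrArg Subtype.val h1
    · right; simpa using congrArg Subtype.val h1
  let A : Subgroup G :=
    { carrier := {x | ∃ n : ℕ, n ≠ 0 ∧ x * g ^ n = g ^ n * x}
      one_mem' := ⟨1, one_ne_zero, by simp⟩
      mul_mem' := by
        rintro x y ⟨n, hn, hx⟩ ⟨m, hm, hy⟩
        refine ⟨n * m, mul_ne_zero hn hm, ?_⟩
        have h1 : Commute x (g ^ (n * m)) := by
          rw [pow_mul]; exact Commute.pow_right (show Commute x (g ^ n) from hx) m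
        have h2 : Commute y (g ^ (n * m)) := by
          rw [mul_comm n m, pow_mul]; exact Commute.pow_right (show Commute y (g ^ m) from hy) n
        exact (h1.mul_left h2).eq
      inv_mem' := by
        rintro x ⟨n, hn, hx⟩
        exact ⟨n, hn, (Commute.inv_left (show Commute x (g ^ n) from hx)).eq⟩ }
  have hAfi : A.FiniteIndex := by
    by_cases hA : ∀ x, x ∈ A
    · have : A = ⊤ := by rw [eq_top_iff]; exact fun x _ => hA x
      rw [this]; infer_instance
    · push Not at hA
      obtain ⟨x0, hx0⟩ := hA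
      have hout : ∀ x : G, x ∉ A → ∃ n : ℕ, n ≠ 0 ∧ x * g ^ n * x⁻¹ = (g ^ n)⁻¹ := by
        intro x hx
        obtain ⟨n, hn, h1 | h1⟩ := hgx x
        · exact absurd ⟨n, hn, mul_inv_eq_iff_eq_mul.mp h1⟩ hx
        · exact ⟨n, hn, h1⟩
      refine fi_of_cover ⊤ A inferInstance {1, x0} (Set.toFinite _) ?_
      intro p _
      by_cases hp : p ∈ A
      · exact ⟨1, by simp, by simpa using hp⟩
      · refine ⟨x0, by simp, ?_⟩
        obtain ⟨n, hn, h1⟩ := hout x0 hx0
        obtain ⟨m, hm, h2⟩ := hout p hp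
        refine ⟨n * m, mul_ne_zero hn hm, ?_⟩
        have h3 : p * g ^ (n * m) * p⁻¹ = (g ^ (n * m))⁻¹ := by
          have : p * g ^ (n * m) * p⁻¹ = (p * g ^ m * p⁻¹) ^ n := by
            rw [conj_pow, ← pow_mul, mul_comm m n]
          rw [this, h2, inv_pow, ← pow_mul, mul_comm m n]
        have h4 : x0 * g ^ (n * m) * x0⁻¹ = (g ^ (n * m))⁻¹ := by
          have : x0 * g ^ (n * m) * x0⁻¹ = (x0 * g ^ n * x0⁻¹) ^ m := by
            rw [conj_pow, ← pow_mul]
          rw [this, h1, inv_pow, ← pow_mul]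
        have h5 : p * g ^ (n * m) = (g ^ (n * m))⁻¹ * p := mul_inv_eq_iff_eq_mul.mp h3
        have h6 : x0⁻¹ * (g ^ (n * m))⁻¹ = g ^ (n * m) * x0⁻¹ := by
          rw [← h4]; group
        calc x0⁻¹ * p * g ^ (n * m) = x0⁻¹ * (p * g ^ (n * m)) := by group
          _ = x0⁻¹ * ((g ^ (n * m))⁻¹ * p) := by rw [h5]
          _ = (x0⁻¹ * (g ^ (n * m))⁻¹) * p := by group
          _ = g ^ (n * m) * (x0⁻¹ * p) := by rw [h6]; group
  have hgA : g ∈ A := ⟨1, one_ne_zero, by simp⟩
  apply AlmostCyclic.of_finiteIndex A _ hAfi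
  refine hK.almostCyclic_aux (hK.sub' hKG A) (h.of_injective A.subtype A.subtype_injective)
    ⟨g, hgA⟩ (fun n hn h => hg n hn (by simpa using congrArg Subtype.val h)) ?_
  intro x
  obtain ⟨n, hn, hx⟩ := x.2
  exact ⟨n, hn, Subtype.ext (by simpa using hx)⟩

end

end Pool.Agent.SHA
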