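import Pool.Agent.SHA.Fin

set_option autoImplicit false

/-!
The largest normal almost cyclic subgroup of a group in the class.
-/

namespace Pool.Agent.SHA

open scoped Pointwise

lemma AlmostCyclic.quo {G Q : Type} [Group G] [Group Q] (h : AlmostCyclic G) (f : G →* Q)
    (hf : Function.Surjective f) : AlmostCyclic Q := by
  obtain ⟨C, hC, hfi⟩ := h
  refine ⟨C.map f, ?_, ?_⟩
  · exact isCyclic_of_surjective (f.subgroupMap C) (f.subgroupMap_surjective C)
  · exact ⟨by
      have h1 := Subgroup.index_map_dvd C hf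
      exact fun h0 => hfi.index_ne_zero (Nat.eq_zero_of_zero_dvd (h0 ▸ h1))⟩

/-- the subgroup generated by the n-th powers -/
def powSub (M : Type) [Group M] (n : ℕ) : Subgroup M := Subgroup.closure {x | ∃ y, x = y ^ n}

instance powSub_char (M : Type) [Group M] (n : ℕ) : (powSub M n).Characteristic := by
  rw [Subgroup.characteristic_iff_map_le]
  intro φ
  rw [powSub, MonoidHom.map_closure, Subgroup.closure_le]
  rintro _ ⟨_, ⟨y, rfl⟩, rfl⟩
  exact Subgroup.subset_closure ⟨φ y, map_pow _ _ _⟩

/-- an infinite almost cyclic group has an infinite cyclic characteristic subgroup -/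
lemma AlmostCyclic.exists_char {M : Type} [Group M] (h : AlmostCyclic M) (hinf : Infinite M) :
    ∃ P : Subgroup M, P.Characteristic ∧ IsCyclic P ∧ Infinite P := by
  obtain ⟨C, hC, hfi⟩ := h
  have hle : powSub M C.index.factorial ≤ C := by
    rw [powSub, Subgroup.closure_le]
    rintro _ ⟨y, rfl⟩
    obtain ⟨n, hn0, hn, hyn⟩ := Subgroup.exists_pow_mem_of_index_ne_zero hfi.index_ne_zero y
    obtain ⟨k, hk⟩ := Nat.dvd_factorial hn0 hn
    rw [hk, pow_mul]
    exact C.pow_mem hyn k
  refine ⟨powSub M C.index.factorial, inferInstance,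
    isCyclic_of_injective (Subgroup.inclusion hle) (Subgroup.inclusion_injective hle), ?_⟩
  obtain ⟨c, hc⟩ := hC.exists_generator
  have hinf0 : ∀ n : ℕ, n ≠ 0 → (c : M) ^ n ≠ 1 := by
    intro n hn h1
    have hfo : IsOfFinOrder c := isOfFinOrder_iff_pow_eq_one.mpr
      ⟨n, Nat.pos_of_ne_zero hn, Subtype.ext (by simpa using h1)⟩
    have h2 : (Subgroup.zpowers c : Set C).Finite := hfo.finite_zpowers
    have h3 : (Subgroup.zpowers c : Set C) = Set.univ := by
      ext x; simpa using hc x
    rw [h3] at h2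
    have h4 : Finite C := Set.finite_univ_iff.mp h2
    have h5 := finite_of_index C h4 hfi
    exact not_finite M
  let z : powSub M C.index.factorial :=
    ⟨(c : M) ^ C.index.factorial, Subgroup.subset_closure ⟨c, rfl⟩⟩
  have hz : Function.Injective fun n : ℕ => z ^ n := by
    intro a b hab
    by_contra hne
    wlog hlt : a < b generalizing a b
    · exact this hab.symm (Ne.symm hne) (by omega)
    have h1 : z ^ a = z ^ b := hab
    have h2 : z ^ (b - a) = 1 := by
      have h3 : z ^ (b - a) * z ^ a = z ^ b := by rw [← pow_add, Nat.sub_add_cancel hlt.le]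
      rw [h1] at h3
      exact mul_eq_right.mp h3
    have h3 : (c : M) ^ (C.index.factorial * (b - a)) = 1 := by
      have := congrArg Subtype.val h2
      simpa [z, pow_mul] using this
    exact hinf0 _ (mul_ne_zero (Nat.factorial_ne_zero _) (by omega)) h3
  exact Infinite.of_injective _ hz

/-- a nontrivial normal almost cyclic subgroup contains a nontrivial normal subgroup that is finite
or abelian -/
lemma exists_normal_of_ac {Q : Type} [Group Q] (M : Subgroup Q) (hM : M.Normal) (hne : M ≠ ⊥)
    (h : AlmostCyclic M) :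
    ∃ D : Subgroup Q, D.Normal ∧ D ≠ ⊥ ∧ (Finite D ∨ ∀ a ∈ D, ∀ b ∈ D, a * b = b * a) := by
  rcases finite_or_infinite M with hfin | hinf
  · exact ⟨M, hM, hne, Or.inl hfin⟩
  · obtain ⟨P, hP, hPc, hPi⟩ := h.exists_char hinf
    refine ⟨P.map M.subtype, inferInstance, ?_, Or.inr ?_⟩
    · intro h1
      have h2 : P = ⊥ := by
        rw [eq_bot_iff]
        intro x hx
        have h3 : (x : Q) ∈ P.map M.subtype := Subgroup.mem_map_of_mem _ hx
        rw [h1, Subgroup.mem_bot] at h3
        exact Subtype.ext h3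
      rw [h2] at hPi
      exact not_finite (⊥ : Subgroup M)
    · rintro _ ⟨a, ha, rfl⟩ _ ⟨b, hb, rfl⟩
      have h1 := hPc.commGroup.mul_comm ⟨a, ha⟩ ⟨b, hb⟩
      have h2 : a * b = b * a := congrArg Subtype.val h1
      exact congrArg Subtype.val h2

section

variable {K : (G : Type) → [Group G] → Prop} (hK : SHAb K)
include hK

/-- extensions of almost cyclic groups by almost cyclic groups in the class are almost cyclic -/
lemma SHAb.ac_ext {G Q : Type} [Group G] [Group Q] (hKG : K G) (f : G →* Q)
    (hf : Function.Surjective f) (hker : AlmostCyclic f.ker) (hQ : AlmostCyclic Q) :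
    AlmostCyclic G := by
  apply hK.almostCyclic_of_HAF hKG
  intro R _ g hg hR
  by_cases h1 : f.ker.map g = ⊥
  · -- R is an image of Q
    have h2 : f.ker ≤ g.ker := by
      intro x hx
      have : g x ∈ f.ker.map g := Subgroup.mem_map_of_mem g hx
      rw [h1] at this
      exact this
    let e : Q →* R := f.liftOfSurjective hf ⟨g, h2⟩
    have he : ∀ x, e (f x) = g x := fun x => f.liftOfRightInverse_comp_apply _ _ ⟨g, h2⟩ x
    have hes : Function.Surjective e := by
      intro r
      obtain ⟨x, rfl⟩ := hg r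
      exact ⟨f x, he x⟩
    have h3 : AlmostCyclic (⊤ : Subgroup R) := (hQ.quo e hes).sub ⊤
    exact exists_normal_of_ac ⊤ inferInstance top_ne_bot h3
  · refine exists_normal_of_ac (f.ker.map g) (Subgroup.Normal.map inferInstance g hg) h1 ?_
    exact hker.quo (g.subgroupMap f.ker) (g.subgroupMap_surjective f.ker)

/-- the largest normal almost cyclic subgroup -/
theorem SHAb.exists_radical {G : Type} [Group G] (hKG : K G) :
    ∃ R : Subgroup G, ∃ _ : R.Normal, AlmostCyclic R ∧
      (∀ N : Subgroup G, N.Normal → HyperLSF N → N ≤ R) ∧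
      (∀ M : Subgroup (G ⧸ R), M.Normal → HyperLSF M → M = ⊥) := by
  let c : Set (Subgroup G) := {N | N.Normal ∧ AlmostCyclic N}
  have hbot : (⊥ : Subgroup G) ∈ c := ⟨inferInstance, AlmostCyclic.of_finite _⟩
  have hdir : DirectedOn (· ≤ ·) c := by
    rintro N ⟨hN, hNac⟩ M ⟨hM, hMac⟩
    refine ⟨N ⊔ M, ⟨inferInstance, ?_⟩, le_sup_left, le_sup_right⟩
    -- the kernel of the map to (N ⊔ M) / N is N; the image is an image of M
    let π : (N ⊔ M : Subgroup G) →* G ⧸ N := (QuotientGroup.mk' N).comp (N ⊔ M).subtype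
    have hker : AlmostCyclic π.rangeRestrict.ker := by
      have h1 : ∀ x ∈ π.rangeRestrict.ker, (x : G) ∈ N := by
        intro x hx
        have h2 : π x = 1 := by
          have : π.rangeRestrict x = 1 := hx
          exact congrArg Subtype.val this
        exact (QuotientGroup.eq_one_iff _).mp h2
      obtain ⟨C, hC, hfi⟩ := hNac
      let φ : π.rangeRestrict.ker →* N :=
        { toFun := fun x => ⟨x.1.1, h1 x.1 x.2⟩
          map_one' := rfl
          map_mul' := fun _ _ => rfl }
      have hφ : Function.Injective φ := fun a b hab =>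
        Subtype.ext (Subtype.ext (congrArg (fun z : N => (z : G)) hab))
      have h3 : AlmostCyclic φ.range := AlmostCyclic.sub _ ⟨C, hC, hfi⟩
      exact h3.quo (MonoidHom.ofInjective hφ).symm.toMonoidHom
        (MonoidHom.ofInjective hφ).symm.surjective
    have hran : AlmostCyclic π.range := by
      let ψ : M →* π.range :=
        { toFun := fun m => ⟨π ⟨m.1, (le_sup_right : M ≤ N ⊔ M) m.2⟩, ⟨_, rfl⟩⟩
          map_one' := Subtype.ext (map_one π)
          map_mul' := fun a b => Subtype.ext (map_mul π ⟨a.1, _⟩ ⟨b.1, _⟩) }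
      refine hMac.quo ψ ?_
      rintro ⟨_, ⟨⟨x, hx⟩, rfl⟩⟩
      have hx' : x ∈ ((N : Set G) * (M : Set G)) := by
        rw [← Subgroup.normal_mul]; exact hx
      obtain ⟨n, hn, m, hm, rfl⟩ := Set.mem_mul.mp hx'
      refine ⟨⟨m, hm⟩, Subtype.ext ?_⟩
      show ((m : G) : G ⧸ N) = ((n * m : G) : G ⧸ N)
      rw [QuotientGroup.mk_mul, (QuotientGroup.eq_one_iff n).mpr hn, one_mul]
    exact hK.ac_ext (hK.sub' hKG _) π.rangeRestrict π.rangeRestrict_surjective hker hran
  let R : Subgroup G := sSup c
  have hRn : R.Normal := by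
    constructor
    intro x hx g
    rw [Subgroup.mem_sSup_of_directedOn ⟨⊥, hbot⟩ hdir] at hx ⊢
    obtain ⟨N, hN, hxN⟩ := hx
    exact ⟨N, hN, hN.1.conj_mem x hxN g⟩
  have hRac : AlmostCyclic R := by
    apply hK.almostCyclic_of_HAF (hK.sub' hKG R)
    intro Q _ f hf hQ
    obtain ⟨q, hq⟩ := exists_ne (1 : Q)
    obtain ⟨x, rfl⟩ := hf q
    obtain ⟨N, hN, hxN⟩ := (Subgroup.mem_sSup_of_directedOn ⟨⊥, hbot⟩ hdir).mp x.2
    have hNR : N ≤ R := le_sSup hN
    have hNn : N.Normal := hN.1
    have hac : AlmostCyclic (N.subgroupOf R) := by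
      have h3 := hN.2
      exact h3.quo (Subgroup.subgroupOfEquivOfLe hNR).symm.toMonoidHom
        (Subgroup.subgroupOfEquivOfLe hNR).symm.surjective
    have hne : (N.subgroupOf R).map f ≠ ⊥ := by
      intro h
      have : f x ∈ (N.subgroupOf R).map f := Subgroup.mem_map_of_mem f hxN
      rw [h] at this
      exact hq this
    exact exists_normal_of_ac _ (Subgroup.Normal.map inferInstance f hf) hne
      (hac.quo (f.subgroupMap _) (f.subgroupMap_surjective _))
  refine ⟨R, hRn, hRac, ?_, ?_⟩
  · intro N hN hNh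
    exact le_sSup ⟨hN, hK.almostCyclic_hyper (hK.sub' hKG N) hNh⟩
  · intro M hM hMh
    have hMac : AlmostCyclic M := hK.almostCyclic_hyper (hK.sub' (hK.quo' hKG R) M) hMh
    let P : Subgroup G := M.comap (QuotientGroup.mk' R)
    let f : P →* M :=
      { toFun := fun x => ⟨QuotientGroup.mk' R x.1, x.2⟩
        map_one' := Subtype.ext (map_one (QuotientGroup.mk' R))
        map_mul' := fun a b => Subtype.ext (map_mul (QuotientGroup.mk' R) a.1 b.1) }
    have hf : Function.Surjective f := by
      rintro ⟨y, hy⟩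
      obtain ⟨x, rfl⟩ := QuotientGroup.mk'_surjective R y
      exact ⟨⟨x, hy⟩, rfl⟩
    have hker : AlmostCyclic f.ker := by
      have h1 : ∀ x ∈ f.ker, (x : G) ∈ R := by
        intro x hx
        have h2 : f x = 1 := hx
        exact (QuotientGroup.eq_one_iff _).mp (congrArg Subtype.val h2)
      let φ : f.ker →* R :=
        { toFun := fun x => ⟨x.1.1, h1 x.1 x.2⟩
          map_one' := rfl
          map_mul' := fun _ _ => rfl }
      have hφ : Function.Injective φ := fun a b hab =>
        Subtype.ext (Subtype.ext (congrArg (fun z : R => (z : G)) hab))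
      have h3 : AlmostCyclic φ.range := AlmostCyclic.sub _ hRac
      exact h3.quo (MonoidHom.ofInjective hφ).symm.toMonoidHom
        (MonoidHom.ofInjective hφ).symm.surjective
    have hPac : AlmostCyclic P := hK.ac_ext (hK.sub' hKG P) f hf hker hMac
    have hPR : P ≤ R := le_sSup ⟨inferInstance, hPac⟩
    rw [eq_bot_iff]
    intro y hy
    obtain ⟨x, rfl⟩ := QuotientGroup.mk'_surjective R y
    exact (QuotientGroup.eq_one_iff x).mpr (hPR hy)

/-- a group in the class with an infinite normal almost cyclic subgroup is infinite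
cyclic-by-torsion -/
theorem SHAb.cyclic_by_torsion {G : Type} [Group G] (hKG : K G) (R : Subgroup G) (hR : R.Normal)
    (hRac : AlmostCyclic R) (hinf : Infinite R) :
    ∃ A : Subgroup G, A.Normal ∧ IsCyclic A ∧ Infinite A ∧
      ∀ g : G, ∃ n : ℕ, n ≠ 0 ∧ g ^ n ∈ A := by
  obtain ⟨P, hP, hPc, hPi⟩ := hRac.exists_char hinf
  have hA : (P.map R.subtype).Normal := inferInstance
  have hAi : Infinite (P.map R.subtype) :=
    (Subgroup.equivMapOfInjective P R.subtype R.subtype_injective).toEquiv.infinite_iff.mp hPi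
  have hAc : IsCyclic (P.map R.subtype) :=
    isCyclic_of_surjective (Subgroup.equivMapOfInjective P R.subtype R.subtype_injective)
      (Subgroup.equivMapOfInjective P R.subtype R.subtype_injective).surjective
  generalize P.map R.subtype = A at *
  refine ⟨A, hA, hAc, hAi, ?_⟩
  obtain ⟨⟨a, haA⟩, ha⟩ := hAc.exists_generator
  have haz : ∀ i : ℤ, a ^ i = 1 → i = 0 := by
    intro i hi
    by_contra h
    have hfo : IsOfFinOrder (⟨a, haA⟩ : A) := by
      rw [isOfFinOrder_iff_zpow_eq_one]
      exact ⟨i, h, Subtype.ext (by simpa using hi)⟩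
    have h2 : (Subgroup.zpowers (⟨a, haA⟩ : A) : Set A).Finite := hfo.finite_zpowers
    have h3 : (Subgroup.zpowers (⟨a, haA⟩ : A) : Set A) = Set.univ := by
      ext x; simpa using ha x
    rw [h3] at h2
    exact Set.infinite_univ h2
  have ha' : ∀ y ∈ A, ∃ k : ℤ, a ^ k = y := by
    intro y hy
    obtain ⟨k, hk⟩ := Subgroup.mem_zpowers_iff.mp (ha ⟨y, hy⟩)
    exact ⟨k, by simpa using congrArg Subtype.val hk⟩
  intro b
  obtain ⟨s, hs⟩ := ha' _ (hA.conj_mem a haA b)
  obtain ⟨t, ht⟩ := ha' _ (hA.conj_mem a haA b⁻¹)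
  rw [inv_inv] at ht
  have hst : s * t = 1 := by
    have h1 : a ^ (s * t) = a := by
      rw [zpow_mul, hs]
      have h2 : (b * a * b⁻¹) ^ t = b * a ^ t * b⁻¹ := _root_.conj_zpow
      rw [h2, ht]; group
    have h2 : a ^ (s * t - 1) = 1 := by
      rw [zpow_sub, h1]; simp
    have := haz _ h2
    omega
  have hs2 : s * s = 1 := by
    rcases Int.eq_one_or_neg_one_of_mul_eq_one hst with h | h <;> rw [h] <;> norm_num
  have hcomm : Commute a (b * b) := by
    have h1 : b * b * a * (b * b)⁻¹ = a := by
      calc b * b * a * (b * b)⁻¹ = b * (b * a * b⁻¹) * b⁻¹ := by group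
        _ = b * a ^ s * b⁻¹ := by rw [hs]
        _ = (b * a * b⁻¹) ^ s := _root_.conj_zpow.symm
        _ = a ^ (s * s) := by rw [← hs, ← zpow_mul]
        _ = a := by rw [hs2, zpow_one]
    have h2 : b * b * a = a * (b * b) := by
      calc b * b * a = (b * b * a * (b * b)⁻¹) * (b * b) := by group
        _ = a * (b * b) := by rw [h1]
    exact h2.symm
  by_contra hcon
  push Not at hcon
  refine hK.no_commuting hKG a (b * b) hcomm ?_
  intro i j hij
  have hj0 : j = 0 := by
    by_contra hj
    have h1 : (b * b) ^ j ∈ A := by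
      rw [← inv_eq_of_mul_eq_one_right hij]
      exact A.inv_mem (A.zpow_mem haA i)
    have h2 : b ^ (2 * j) ∈ A := by
      have h3 : (b * b) ^ j = b ^ (2 * j) := by
        rw [zpow_mul]; congr 1
        rw [zpow_ofNat, pow_two]
      rw [← h3]; exact h1
    apply hcon (2 * j).natAbs (by omega)
    rcases Int.natAbs_eq (2 * j) with h4 | h4
    · rw [h4, zpow_natCast] at h2; exact h2
    · rw [h4, zpow_neg, zpow_natCast] at h2; exact (Subgroup.inv_mem_iff _).mp h2
  rw [hj0, zpow_zero, mul_one] at hij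
  exact ⟨haz i hij, hj0⟩

end

end Pool.Agent.SHA
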